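import Pool.Agent.H979.BK.Stm

/-!
# BK GAP: the spectral gap is attained and positive
-/

set_option autoImplicit false
set_option linter.unusedVariables false

open Filter Topology Finset Pool.Agent.H979.BK

namespace Pool.Agent.H284

namespace BKGap

variable {d : ℕ} {μ : Equiv.Perm (Fin d) → ℝ}

lemma U_nonneg (hμ : IsProb μ) (i j : Fin d) : 0 ≤ U μ i j :=
  Finset.sum_nonneg fun σ _ => by
    split_ifs
    · exact hμ.1 σ
    · exact le_refl _

lemma U_row (hμ : IsProb μ) (i : Fin d) : ∑ j, U μ i j = 1 := by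
  unfold U
  rw [Finset.sum_comm, ← hμ.2]
  refine Finset.sum_congr rfl fun σ _ => ?_
  rw [Finset.sum_ite_eq]
  simp

lemma U_col (hμ : IsProb μ) (j : Fin d) : ∑ i, U μ i j = 1 := by
  unfold U
  rw [Finset.sum_comm, ← hμ.2]
  refine Finset.sum_congr rfl fun σ _ => ?_
  have h1 : ∀ i : Fin d, (if σ i = j then μ σ else 0) = if i = σ.symm j then μ σ else 0 := by
    intro i
    by_cases h : σ i = j
    · rw [if_pos h, if_pos (by rw [← h, Equiv.symm_apply_apply])]
    · rw [if_neg h, if_neg (fun h' => h (by rw [h', Equiv.apply_symm_apply]))]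
  simp_rw [h1]
  rw [Finset.sum_ite_eq']
  simp

/-- the complex matrix -/
noncomputable def A (μ : Equiv.Perm (Fin d) → ℝ) : Matrix (Fin d) (Fin d) ℂ :=
  (U μ).map (fun a => (a : ℂ))

lemma A_apply (v : Fin d → ℂ) (i : Fin d) : (A μ).mulVec v i = ∑ j, (U μ i j : ℂ) * v j := rfl

lemma sum_A (hμ : IsProb μ) (v : Fin d → ℂ) : ∑ i, (A μ).mulVec v i = ∑ i, v i := by
  simp_rw [A_apply]
  rw [Finset.sum_comm]
  refine Finset.sum_congr rfl fun j _ => ?_
  rw [← Finset.sum_mul]
  have h1 : ∑ i, (U μ i j : ℂ) = 1 := by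
    have := congrArg (fun a : ℝ => (a : ℂ)) (U_col hμ j)
    simpa using this
  rw [h1, one_mul]

/-- eigenvalues are at most one in absolute value -/
lemma norm_le (hμ : IsProb μ) {z : ℂ} {v : Fin d → ℂ} (hv : v ≠ 0)
    (h : (A μ).mulVec v = z • v) : ‖z‖ ≤ 1 := by
  obtain ⟨i0, hi0⟩ : ∃ i, v i ≠ 0 := by
    by_contra hcon
    push Not at hcon
    exact hv (funext hcon)
  obtain ⟨i, -, hi⟩ := Finset.exists_max_image (Finset.univ : Finset (Fin d)) (fun i => ‖v i‖)
    ⟨i0, Finset.mem_univ _⟩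
  have hpos : 0 < ‖v i‖ := lt_of_lt_of_le (norm_pos_iff.2 hi0) (hi i0 (Finset.mem_univ _))
  have h1 : z * v i = ∑ j, (U μ i j : ℂ) * v j := by
    have := congrFun h i
    rw [A_apply] at this
    exact this.symm
  have h2 : ‖z‖ * ‖v i‖ ≤ 1 * ‖v i‖ := by
    rw [← norm_mul, h1]
    calc ‖∑ j, (U μ i j : ℂ) * v j‖ ≤ ∑ j, ‖(U μ i j : ℂ) * v j‖ := norm_sum_le _ _
      _ ≤ ∑ j, U μ i j * ‖v i‖ := by
        refine Finset.sum_le_sum fun j _ => ?_
        rw [norm_mul, Complex.norm_real, Real.norm_of_nonneg (U_nonneg hμ i j)]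
        exact mul_le_mul_of_nonneg_left (hi j (Finset.mem_univ _)) (U_nonneg hμ i j)
      _ = 1 * ‖v i‖ := by rw [← Finset.sum_mul, U_row hμ i]
  exact le_of_mul_le_mul_right h2 hpos

lemma pow_nonneg' (hμ : IsProb μ) (r : ℕ) (i j : Fin d) : 0 ≤ (U μ ^ r) i j := by
  induction r generalizing i j with
  | zero =>
    rw [pow_zero, Matrix.one_apply]
    split_ifs
    · exact zero_le_one
    · exact le_refl _
  | succ r ih =>
    rw [pow_succ, Matrix.mul_apply]
    exact Finset.sum_nonneg fun k _ => mul_nonneg (ih i k) (U_nonneg hμ k j)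

lemma pow_row (hμ : IsProb μ) (r : ℕ) (i : Fin d) : ∑ j, (U μ ^ r) i j = 1 := by
  induction r with
  | zero =>
    simp [Matrix.one_apply]
  | succ r ih =>
    simp_rw [pow_succ, Matrix.mul_apply]
    rw [Finset.sum_comm]
    simp_rw [← Finset.mul_sum, U_row hμ, mul_one]
    exact ih

/-- the maximum principle -/
lemma const_real (hμ : IsProb μ) (hirr : Irred μ) {w : Fin d → ℝ}
    (h : ∀ i, ∑ j, U μ i j * w j = w i) (i j : Fin d) : w i = w j := by
  have hp : ∀ (r : ℕ) (i : Fin d), ∑ j, (U μ ^ r) i j * w j = w i := by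
    intro r
    induction r with
    | zero =>
      intro i
      simp [Matrix.one_apply]
    | succ r ih =>
      intro i
      simp_rw [pow_succ, Matrix.mul_apply, Finset.sum_mul]
      rw [Finset.sum_comm]
      rw [← ih i]
      refine Finset.sum_congr rfl fun k _ => ?_
      rw [← h k, Finset.mul_sum]
      refine Finset.sum_congr rfl fun j _ => ?_
      ring
  obtain ⟨m, -, hm⟩ := Finset.exists_max_image (Finset.univ : Finset (Fin d)) w
    ⟨i, Finset.mem_univ _⟩
  have key : ∀ l, w l = w m := by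
    intro l
    obtain ⟨r, hr⟩ := hirr m l
    by_contra hne
    have hlt : w l < w m := lt_of_le_of_ne (hm l (Finset.mem_univ _)) hne
    have h1 : ∑ j, (U μ ^ r) m j * w j < ∑ j, (U μ ^ r) m j * w m := by
      refine Finset.sum_lt_sum (fun k _ => ?_) ⟨l, Finset.mem_univ _, ?_⟩
      · exact mul_le_mul_of_nonneg_left (hm k (Finset.mem_univ _)) (pow_nonneg' hμ r m k)
      · exact mul_lt_mul_of_pos_left hlt hr
    rw [hp r m, ← Finset.sum_mul, pow_row hμ r m, one_mul] at h1
    exact lt_irrefl _ h1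
  rw [key i, key j]

lemma const_complex (hμ : IsProb μ) (hirr : Irred μ) {v : Fin d → ℂ}
    (h : (A μ).mulVec v = v) (i j : Fin d) : v i = v j := by
  have h1 : ∀ i, ∑ j, (U μ i j : ℂ) * v j = v i := fun i => by
    have := congrFun h i
    rw [A_apply] at this
    exact this
  apply Complex.ext
  · refine const_real hμ hirr (w := fun i => (v i).re) (fun i => ?_) i j
    have h2 := congrArg Complex.re (h1 i)
    rw [Complex.re_sum] at h2
    simpa using h2
  · refine const_real hμ hirr (w := fun i => (v i).im) (fun i => ?_) i j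
    have h2 := congrArg Complex.im (h1 i)
    rw [Complex.im_sum] at h2
    simpa using h2

/-- eigenvalues with zero sum eigenvectors have real part less than one -/
lemma re_lt (hμ : IsProb μ) (hirr : Irred μ) {z : ℂ} {v : Fin d → ℂ} (hv : v ≠ 0)
    (hs : ∑ i, v i = 0) (h : (A μ).mulVec v = z • v) : z.re < 1 := by
  have hn := norm_le hμ hv h
  have h1 : z.re ≤ 1 := (Complex.re_le_norm z).trans hn
  refine lt_of_le_of_ne h1 fun h2 => ?_
  have h3 : z = 1 := by
    apply Complex.ext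
    · rw [h2, Complex.one_re]
    · rw [Complex.one_im]
      have h4 : ‖z‖ ^ 2 = z.re * z.re + z.im * z.im := by
        rw [Complex.sq_norm, Complex.normSq_apply]
      have h5 : ‖z‖ ^ 2 ≤ 1 := by
        have := norm_nonneg z
        nlinarith
      rw [h4, h2] at h5
      have h6 : z.im * z.im ≤ 0 := by linarith
      exact mul_self_eq_zero.1 (le_antisymm h6 (mul_self_nonneg _))
  rw [h3, one_smul] at h
  have h4 := const_complex hμ hirr h
  apply hv
  funext i
  have h5 : ∑ j, v j = d * v i := by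
    rw [Finset.sum_congr rfl fun j _ => h4 j i]
    simp
  rw [hs] at h5
  have h6 : (d : ℂ) ≠ 0 := by
    have : 0 < d := i.pos
    exact_mod_cast this.ne'
  have h7 := h5.symm
  rw [mul_eq_zero] at h7
  exact h7.resolve_left h6

/-- there is a zero sum eigenvector -/
lemma exists_eig (hd : 2 ≤ d) (hμ : IsProb μ) : ∃ (z : ℂ) (v : Fin d → ℂ), v ≠ 0 ∧
    ∑ i, v i = 0 ∧ (A μ).mulVec v = z • v := by
  let s : (Fin d → ℂ) →ₗ[ℂ] ℂ := ∑ i, LinearMap.proj i
  have hs : ∀ v, s v = ∑ i, v i := fun v => by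
    simp [s]
  have hmap : ∀ x ∈ LinearMap.ker s, Matrix.toLin' (A μ) x ∈ LinearMap.ker s := by
    intro x hx
    rw [LinearMap.mem_ker, hs] at hx ⊢
    rw [Matrix.toLin'_apply, sum_A hμ, hx]
  have hnt : Nontrivial (LinearMap.ker s) := by
    let i0 : Fin d := ⟨0, by omega⟩
    let i1 : Fin d := ⟨1, by omega⟩
    have h01 : i0 ≠ i1 := by
      intro h
      have := congrArg Fin.val h
      simp [i0, i1] at this
    refine ⟨⟨⟨Pi.single i0 1 - Pi.single i1 1, ?_⟩, 0, ?_⟩⟩
    · rw [LinearMap.mem_ker, hs]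
      simp
    · intro h
      have h1 := congrFun (congrArg Subtype.val h) i0
      simp [h01] at h1
  obtain ⟨z, hz⟩ := Module.End.exists_eigenvalue ((Matrix.toLin' (A μ)).restrict hmap)
  obtain ⟨v, hv⟩ := hz.exists_hasEigenvector
  refine ⟨z, v, fun h => hv.2 (Subtype.ext h), ?_, ?_⟩
  · rw [← hs]
    exact LinearMap.mem_ker.1 v.2
  · have h1 := congrArg Subtype.val hv.apply_eq_smul
    rw [LinearMap.coe_restrict_apply, Matrix.toLin'_apply] at h1
    exact h1

/-- the set in `gap` -/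
lemma set_eq (hd : 2 ≤ d) (hμ : IsProb μ) (hirr : Irred μ) :
    {x : ℝ | ∃ (z : ℂ) (v : Fin d → ℂ), (∃ i j, v i ≠ v j) ∧
      (A μ).mulVec v = z • v ∧ x = 1 - z.re} =
    {x : ℝ | ∃ (z : ℂ) (v : Fin d → ℂ), v ≠ 0 ∧ ∑ i, v i = 0 ∧
      (A μ).mulVec v = z • v ∧ x = 1 - z.re} := by
  ext x
  constructor
  · rintro ⟨z, v, ⟨i, j, hij⟩, h, hx⟩
    refine ⟨z, v, ?_, ?_, h, hx⟩
    · intro h0
      apply hij
      rw [h0]
      rfl
    · have h1 := sum_A hμ v
      rw [h] at h1
      have h2 : z * ∑ i, v i = ∑ i, v i := by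
        rw [Finset.mul_sum]
        exact h1
      by_cases hz : z = 1
      · exfalso
        rw [hz, one_smul] at h
        exact hij (const_complex hμ hirr h i j)
      · have h3 : (z - 1) * ∑ i, v i = 0 := by linear_combination h2
        exact (mul_eq_zero.1 h3).resolve_left (sub_ne_zero.2 hz)
  · rintro ⟨z, v, hv, hs, h, hx⟩
    refine ⟨z, v, ?_, h, hx⟩
    by_contra hcon
    push Not at hcon
    apply hv
    funext i
    have h5 : ∑ j, v j = d * v i := by
      rw [Finset.sum_congr rfl fun j _ => hcon j i]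
      simp
    rw [hs] at h5
    have h6 : (d : ℂ) ≠ 0 := by
      have : 0 < d := i.pos
      exact_mod_cast this.ne'
    exact (mul_eq_zero.1 h5.symm).resolve_left h6

lemma set_finite : {x : ℝ | ∃ (z : ℂ) (v : Fin d → ℂ), v ≠ 0 ∧ ∑ i, v i = 0 ∧
      (A μ).mulVec v = z • v ∧ x = 1 - z.re}.Finite := by
  refine ((Module.End.finite_hasEigenvalue (Matrix.toLin' (A μ))).image
    (fun z : ℂ => 1 - z.re)).subset ?_
  rintro x ⟨z, v, hv, -, h, hx⟩
  refine ⟨z, ?_, hx.symm⟩
  refine Module.End.hasEigenvalue_of_hasEigenvector (x := v) ?_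
  rw [Module.End.hasEigenvector_iff, Module.End.mem_eigenspace_iff, Matrix.toLin'_apply]
  exact ⟨h, hv⟩

end BKGap

open BKGap in
theorem bk_gap : S_GAP := by
  intro d μ hd hμ hirr
  have hgap : gap μ = sInf {x : ℝ | ∃ (z : ℂ) (v : Fin d → ℂ), v ≠ 0 ∧ ∑ i, v i = 0 ∧
      (A μ).mulVec v = z • v ∧ x = 1 - z.re} := by
    rw [← set_eq hd hμ hirr]
    rfl
  have hne : {x : ℝ | ∃ (z : ℂ) (v : Fin d → ℂ), v ≠ 0 ∧ ∑ i, v i = 0 ∧
      (A μ).mulVec v = z • v ∧ x = 1 - z.re}.Nonempty := by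
    obtain ⟨z, v, hv, hs, h⟩ := exists_eig hd hμ
    exact ⟨1 - z.re, z, v, hv, hs, h, rfl⟩
  have hmem := hne.csInf_mem set_finite
  rw [← hgap] at hmem
  obtain ⟨z, v, hv, hs, h, hz⟩ := hmem
  refine ⟨?_, z, v, hv, hs, h, hz, ?_⟩
  · rw [hz]
    have := re_lt hμ hirr hv hs h
    linarith
  · intro z' v' hv' hs' h'
    have h1 : gap μ ≤ 1 - z'.re := by
      rw [hgap]
      exact csInf_le set_finite.bddBelow ⟨z', v', hv', hs', h', rfl⟩
    rw [hz] at h1
    linarith

end Pool.Agent.H284
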