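import Pool.Agent.H646.CR.Stm

set_option autoImplicit false

/-!
# Project CR: measurability of `tr` and `W0` for the labelled process
-/

namespace Pool.Agent.H284.CRtr

open MeasureTheory ProbabilityTheory Set Topology TopologicalSpace Filter
open scoped ENNReal
open Pool.Agent.H646.CR

theorem holds_trm : S_trm := by
  intro G K _ _ _ _ _ _ _ _ _ Y _ Ξ hΞ
  have hsm : ∀ u : G, Measurable fun x : P × K => u • x := fun u =>
    (continuous_const_smul u).measurable
  have h0 : ∀ g : G, Measurable fun ω : (P × K) × (G → Y) => Ξ (ω.2 g) := fun g =>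
    hΞ.comp ((measurable_pi_apply g).comp measurable_snd)
  refine (h0 1).prodMk (measurable_fst.prodMk ?_)
  rw [measurable_pi_iff]
  intro g
  rw [measurable_pi_iff]
  intro u
  apply measurable_to_bool
  have h1 : MeasurableSet {ω : (P × K) × (G → Y) | Ξ (ω.2 g) = u • Ξ (ω.2 1)} :=
    measurableSet_eq_fun (h0 g) ((hsm u).comp (h0 1))
  refine (congrArg MeasurableSet ?_).mpr h1
  ext ω
  simp

theorem tr_lab {G K Y : Type} [Group G] [MulAction G (P × K)] (Ξ : Y → P × K)
    (ω : (P × K) × (G → Y)) (g u : G) :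
    (tr Ξ ω).2.2 g u = true ↔ Ξ (ω.2 g) = u • Ξ (ω.2 1) := by
  show @decide (Ξ (ω.2 g) = u • Ξ (ω.2 1)) (Classical.propDecidable _) = true ↔ _
  exact @decide_eq_true_iff _ (Classical.propDecidable _)

theorem tr_R {G K Y : Type} [Group G] [MulAction G (P × K)] (Ξ : Y → P × K)
    (ω : (P × K) × (G → Y)) (g u : G) (h : Ξ (ω.2 g) = u • Ξ (ω.2 1)) :
    tr Ξ ((g • ω.1, fun k => ω.2 (k * g)) : (P × K) × (G → Y)) = T g u (tr Ξ ω) := by
  have h1 : Ξ (ω.2 (1 * g)) = u • Ξ (ω.2 1) := by rw [one_mul, h]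
  refine Prod.ext h1 (Prod.ext rfl ?_)
  funext k w
  rw [Bool.eq_iff_iff, tr_lab]
  show _ ↔ (tr Ξ ω).2.2 (k * g) (w * u) = true
  rw [tr_lab]
  show Ξ (ω.2 (k * g)) = w • Ξ (ω.2 (1 * g)) ↔ _
  rw [h1, mul_smul]

theorem holds : S_tr1a := by
  intro G K _ _ _ _ _ _ _ _ _ lam q c Q X0 hsys Λ Y _ _ _ _ _ _ _ _ _ B Θ Ξ Y0 hR hB l l' d ζ hζ
  have hm : Measurable (tr (G := G) Ξ) := holds_trm G K Y Ξ hR.mΞ
  have hprob := hζ.prob
  -- almost surely the base point is in `X0`
  have hev : ∀ g : G, Measurable fun ω : (P × K) × (G → Y) => ω.2 g := fun g =>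
    (measurable_pi_apply g).comp measurable_snd
  have hY : ζ {ω | ω.2 1 ∉ Y0} = 0 := by
    have h1 : IsProbabilityMeasure (Measure.map (fun ω : (P × K) × (G → Y) => ω.2 1) ζ) :=
      Measure.isProbabilityMeasure_map (hev 1).aemeasurable
    have h2 := hR.full (Measure.map (fun ω : (P × K) × (G → Y) => ω.2 1) ζ) h1 (by
      intro w
      rw [Measure.map_map (continuous_const_smul w).measurable (hev 1)]
      exact hζ.marg w)
    rw [Measure.map_apply (hev 1) hR.mY0.compl] at h2
    exact h2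
  have hX : ζ {ω | Ξ (ω.2 1) ∉ X0} = 0 := by
    refine measure_mono_null ?_ hY
    intro ω hω h
    exact hω (hR.ΞX _ h).1
  have hlab : ∀ g u : G, MeasurableSet {ω : St G K | ω.2.2 g u = true} := by
    intro g u
    have h1 : Measurable fun ω : St G K => ω.2.2 g u :=
      ((measurable_pi_apply u).comp ((measurable_pi_apply g).comp
        (measurable_snd.comp measurable_snd)))
    exact h1 (measurableSet_singleton true)
  have hT : ∀ g u : G, Measurable (T (K := K) g u) := by
    intro g u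
    refine ((continuous_const_smul u).measurable.comp measurable_fst).prodMk
      (((continuous_const_smul g).measurable.comp
        (measurable_fst.comp measurable_snd)).prodMk ?_)
    rw [measurable_pi_iff]
    intro h
    rw [measurable_pi_iff]
    intro w
    exact ((measurable_pi_apply (w * u)).comp ((measurable_pi_apply (h * g)).comp
      (measurable_snd.comp measurable_snd)))
  refine ⟨Measure.isProbabilityMeasure_map hm.aemeasurable, ?_, ?_, ?_⟩
  · have h1 : MeasurableSet {ω : St G K | ω.2.2 1 1 = false} := by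
      have h2 : {ω : St G K | ω.2.2 1 1 = false} = {ω : St G K | ω.2.2 1 1 = true}ᶜ := by
        ext ω
        simp
      rw [h2]
      exact (hlab 1 1).compl
    rw [Measure.map_apply hm h1]
    have h3 : tr (G := G) Ξ ⁻¹' {ω : St G K | ω.2.2 1 1 = false} = ∅ := by
      rw [eq_empty_iff_forall_notMem]
      intro ω hω
      have h4 : (tr Ξ ω).2.2 1 1 = false := hω
      have h5 : (tr Ξ ω).2.2 1 1 = true := by
        rw [tr_lab, one_smul]
      rw [h4] at h5
      exact Bool.noConfusion h5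
    rw [h3, measure_empty]
  · intro g u w huw
    have h1 : MeasurableSet {ω : St G K | ω.2.2 g u = true ∧ ω.2.2 g w = true} :=
      (hlab g u).inter (hlab g w)
    rw [Measure.map_apply hm h1]
    refine measure_mono_null ?_ hX
    rintro ω ⟨h2, h3⟩ h4
    rw [tr_lab] at h2 h3
    rw [h2] at h3
    apply huw
    have h5 := hsys.X0_free (w⁻¹ * u) (Ξ (ω.2 1)) h4 (by rw [mul_smul, h3, inv_smul_smul])
    rw [inv_mul_eq_one] at h5
    exact h5.symm
  · intro g u D hD
    rw [Measure.map_apply hm ((hlab g u).inter (hT g u hD)),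
      Measure.map_apply hm ((hlab g⁻¹ u⁻¹).inter hD)]
    have hRm : Measurable fun ω : (P × K) × (G → Y) =>
        ((g • ω.1, fun k => ω.2 (k * g)) : (P × K) × (G → Y)) := by
      refine ((continuous_const_smul g).measurable.comp measurable_fst).prodMk ?_
      rw [measurable_pi_iff]
      intro k
      exact hev (k * g)
    conv_rhs => rw [← hζ.inv g]
    rw [Measure.map_apply hRm (hm ((hlab g⁻¹ u⁻¹).inter hD))]
    congr 1
    ext ω
    show ((tr Ξ ω).2.2 g u = true ∧ T g u (tr Ξ ω) ∈ D) ↔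
      ((tr Ξ ((g • ω.1, fun k => ω.2 (k * g)) : (P × K) × (G → Y))).2.2 g⁻¹ u⁻¹ = true ∧
        tr Ξ ((g • ω.1, fun k => ω.2 (k * g)) : (P × K) × (G → Y)) ∈ D)
    rw [tr_lab, tr_lab]
    have h1 : Ξ (ω.2 (g⁻¹ * g)) = u⁻¹ • Ξ (ω.2 (1 * g)) ↔ Ξ (ω.2 g) = u • Ξ (ω.2 1) := by
      rw [inv_mul_cancel, one_mul, eq_inv_smul_iff]
      exact eq_comm
    show _ ↔ (Ξ (ω.2 (g⁻¹ * g)) = u⁻¹ • Ξ (ω.2 (1 * g)) ∧ _)
    rw [h1]
    constructor
    · rintro ⟨h2, h3⟩
      refine ⟨h2, ?_⟩
      rw [tr_R Ξ ω g u h2]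
      exact h3
    · rintro ⟨h2, h3⟩
      refine ⟨h2, ?_⟩
      rw [tr_R Ξ ω g u h2] at h3
      exact h3

end Pool.Agent.H284.CRtr
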