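import Pool.Agent.H646.CS.Stm
import Pool.Agent.H646.CR.PYex
import Pool.Agent.H646.CR.PApprox

set_option autoImplicit false

/-!
# Project CS: existence of the processes with values in the realization (S_yex)
-/

namespace Pool.Agent.H284.CS.Yex

open MeasureTheory ProbabilityTheory Set Topology TopologicalSpace Filter
open scoped ENNReal
open Pool.Agent.H646.CR (P en en_surj dn b2r IsPD mu IsSys S_approx)
open Pool.Agent.H646.CS
open Pool.Agent.H894.CR.Yex (sel polish mu_eq meas_smul mu_inv mu_apply)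

/-- a set of large measure -/
theorem large {X : Type} [MeasurableSpace X] (μ : Measure X) [IsProbabilityMeasure μ]
    (X1 : Set X) (δ : ℝ) (h1 : μ X1ᶜ ≤ ENNReal.ofReal δ) (hδ : 0 ≤ δ) (D : Set X)
    (ε : ℝ) (hε : 0 ≤ ε) (h2 : μ D ≤ ENNReal.ofReal ε) (F : Set X)
    (hF : ∀ x ∈ X1, x ∉ D → x ∈ F) (ε' : ℝ) (hε' : δ + ε ≤ ε') :
    ENNReal.ofReal (1 - ε') ≤ μ F := by
  have h3 : (univ : Set X) ⊆ F ∪ (X1ᶜ ∪ D) := by
    intro x _
    by_cases h : x ∈ X1
    · by_cases h' : x ∈ D
      · exact Or.inr (Or.inr h')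
      · exact Or.inl (hF x h h')
    · exact Or.inr (Or.inl h)
  have h4 : (1 : ℝ≥0∞) ≤ μ F + ENNReal.ofReal (δ + ε) := by
    calc (1 : ℝ≥0∞) = μ univ := measure_univ.symm
      _ ≤ μ F + μ (X1ᶜ ∪ D) := (measure_mono h3).trans (measure_union_le _ _)
      _ ≤ μ F + (μ X1ᶜ + μ D) := by gcongr; exact measure_union_le _ _
      _ ≤ μ F + (ENNReal.ofReal δ + ENNReal.ofReal ε) := by gcongr
      _ = _ := by rw [ENNReal.ofReal_add hδ hε]
  have h5 : ENNReal.ofReal (1 - ε') ≤ ENNReal.ofReal (1 - (δ + ε)) :=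
    ENNReal.ofReal_le_ofReal (by linarith)
  refine h5.trans ?_
  rw [ENNReal.ofReal_sub _ (add_nonneg hδ hε), ENNReal.ofReal_one]
  exact tsub_le_iff_right.2 h4

theorem holds (ha : S_approx) : S_yex := by
  intro G K _ _ _ _ _ _ _ _ _ lam q c Q X0 sys Z _ _ _ _ _ act Θ Ψ X1 s hact hΘ hΨ hX1m hΨΘ horb hX1z
  have hprob := sys.prob
  have : PolishSpace K := polish K
  set μ : Measure (P × K) := mu lam s with hμ
  have hμp : IsProbabilityMeasure μ := by
    rw [hμ, mu_eq]
    exact Measure.isProbabilityMeasure_map measurable_prodMk_left.aemeasurable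
  have hsm : ∀ g : G, Measurable fun x : P × K => g • x := meas_smul
  -- the process
  set F : P × K → (P × K) × (G → Z) := fun x => (x, fun g => Θ (g • x)) with hF
  have hFm : Measurable F :=
    measurable_id.prodMk (measurable_pi_lambda _ fun g => hΘ.comp (hsm g))
  have hnum : (1 : ℝ) / 10 ^ 12 + 1 / 10 ^ 12 ≤ 1 / 10 ^ 11 := by norm_num
  -- choice of the data
  have hgen : ∀ i : Ix, ∃ l : ℕ, ENNReal.ofReal (1 - 1 / 10 ^ 11) ≤
      Measure.map F μ (FY act l (Q8 Q i)) := by
    intro i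
    obtain ⟨f, hfm, hf⟩ := sel (fun m : ℕ => {z : Z | Θ (Q8 Q i • Ψ z) = act m z}) (fun m =>
      measurableSet_eq_fun (hΘ.comp ((hsm (Q8 Q i)).comp hΨ)) (hact m).measurable)
    obtain ⟨l, hl⟩ := ha Z (Measure.map Θ μ) (Measure.isProbabilityMeasure_map hΘ.aemeasurable)
      f hfm (1 / 10 ^ 12) (by positivity)
    refine ⟨l, le_trans ?_ (Measure.le_map_apply hFm.aemeasurable _)⟩
    have hDm : MeasurableSet {y : Z | 1 / 4 < |dn Z l y - f y|} := by
      apply measurableSet_lt measurable_const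
      have h1 : Measurable fun y : Z => dn Z l y - (f y : ℝ) :=
        (dn Z l).continuous.measurable.sub (measurable_from_nat.comp hfm)
      exact h1.norm
    refine large μ X1 (1 / 10 ^ 12) hX1z (by positivity) (Θ ⁻¹' {y : Z | 1 / 4 < |dn Z l y - f y|})
      (1 / 10 ^ 12) (by positivity) ?_ _ ?_ _ hnum
    · rw [← Measure.map_apply hΘ hDm]
      exact hl
    · intro x hx hxD
      have h1 : ¬ (1 / 4 < |dn Z l (Θ x) - f (Θ x)|) := hxD
      have hΨ' := hΨΘ x hx
      obtain ⟨m, hm⟩ := horb x hx (Q8 Q i)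
      have h2 : Θ (Q8 Q i • Ψ (Θ x)) = act (f (Θ x)) (Θ x) := by
        refine hf (Θ x) ⟨m, ?_⟩
        change Θ (Q8 Q i • Ψ (Θ x)) = act m (Θ x)
        rw [hΨ', hm]
      rw [hΨ'] at h2
      refine ⟨f (Θ x), ?_, ?_⟩
      · change |dn Z l (Θ ((1 : G) • x)) - f (Θ x)| ≤ 1 / 4
        rw [one_smul]
        exact not_lt.1 h1
      · change Θ (Q8 Q i • x) = act (f (Θ x)) (Θ ((1 : G) • x))
        rw [one_smul]
        exact h2
  have hdig : ∃ l : ℕ, ENNReal.ofReal (1 - 1 / 10 ^ 11) ≤ Measure.map F μ (HY q l) := by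
    set f : Z → ℕ := fun y => if q (Ψ y) then 1 else 0 with hf
    have hfm : Measurable f := by
      have h1 : Measurable fun b : Bool => if b then (1 : ℕ) else 0 := measurable_of_finite _
      exact h1.comp (sys.q_cont.measurable.comp hΨ)
    obtain ⟨l, hl⟩ := ha Z (Measure.map Θ μ) (Measure.isProbabilityMeasure_map hΘ.aemeasurable)
      f hfm (1 / 10 ^ 12) (by positivity)
    refine ⟨l, le_trans ?_ (Measure.le_map_apply hFm.aemeasurable _)⟩
    have hDm : MeasurableSet {y : Z | 1 / 4 < |dn Z l y - f y|} := by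
      apply measurableSet_lt measurable_const
      have h1 : Measurable fun y : Z => dn Z l y - (f y : ℝ) :=
        (dn Z l).continuous.measurable.sub (measurable_from_nat.comp hfm)
      exact h1.norm
    refine large μ X1 (1 / 10 ^ 12) hX1z (by positivity) (Θ ⁻¹' {y : Z | 1 / 4 < |dn Z l y - f y|})
      (1 / 10 ^ 12) (by positivity) ?_ _ ?_ _ hnum
    · rw [← Measure.map_apply hΘ hDm]
      exact hl
    · intro x hx hxD
      have h1 : ¬ (1 / 4 < |dn Z l (Θ x) - f (Θ x)|) := hxD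
      have hΨ' := hΨΘ x hx
      have h2 : (f (Θ x) : ℝ) = b2r (q x) := by
        rw [hf]
        simp only [hΨ', b2r]
        split_ifs <;> norm_num
      rw [h2] at h1
      change |dn Z l (Θ ((1 : G) • x)) - b2r (q x)| ≤ 1 / 4
      rw [one_smul]
      exact not_lt.1 h1
  choose l hl using hgen
  obtain ⟨l', hl'⟩ := hdig
  refine ⟨l, l', Measure.map F μ, ?_⟩
  refine ⟨Measure.isProbabilityMeasure_map hFm.aemeasurable, ?_, ?_, hl, hl'⟩
  · intro h
    have hm : Measurable fun ω : (P × K) × (G → Z) => (h • ω.1, fun g => ω.2 (g * h)) :=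
      ((hsm h).comp measurable_fst).prodMk
        (measurable_pi_lambda _ fun g => (measurable_pi_apply (g * h)).comp measurable_snd)
    rw [Measure.map_map hm hFm]
    have h1 : ((fun ω : (P × K) × (G → Z) => (h • ω.1, fun g => ω.2 (g * h))) ∘ F) =
        F ∘ fun x => h • x := by
      funext x
      refine Prod.ext rfl ?_
      funext g
      change Θ ((g * h) • x) = Θ (g • h • x)
      rw [mul_smul]
    rw [h1, ← Measure.map_map hFm (hsm h), hμ, mu_inv sys s h]
  · have hm : MeasurableSet {ω : (P × K) × (G → Z) | ω.1.1 ≠ s} :=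
      (measurable_fst.comp measurable_fst) (measurableSet_singleton s).compl
    rw [Measure.map_apply hFm hm, hμ, mu_apply s _ (hFm hm)]
    have h1 : {k : K | (s, k) ∈ F ⁻¹' {ω : (P × K) × (G → Z) | ω.1.1 ≠ s}} = ∅ := by
      ext k
      simp [hF]
    rw [h1, measure_empty]

theorem holds_full : S_yex := holds Pool.Agent.H263.CRApprox.holds

end Pool.Agent.H284.CS.Yex
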