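import Pool.Agent.H979.DE.Stm
import Pool.Graph.R_pool_sql_team_ae5b0c61.H41.Derrw3

set_option autoImplicit false

namespace Pool.Agent.H284

open MeasureTheory Finset Filter Pool.Agent.H41.Derrw Pool.Agent.H979.DE
open scoped Topology ENNReal

lemma one_step_c {V : Type} [DecidableEq V] [Countable V] [MeasurableSpace V]
    [DiscreteMeasurableSpace V] {G : SimpleGraph V} [G.LocallyFinite] {γ : ℝ}
    {v : V} {P : Measure (ℕ → V)} (hP : IsLaw G γ v P) (n : ℕ) (F : (ℕ → V) → ℝ≥0∞)
    (hF : ∀ w w', (∀ k ≤ n + 1, w k = w' k) → F w = F w') :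
    ∫⁻ w, F w ∂P = ∫⁻ w, ∑ y ∈ G.neighborFinset (w n),
      ENNReal.ofReal (trans G γ w n y) * F (Function.update w (n + 1) y) ∂P := by
  let r : (ℕ → V) → (Fin (n + 1) → V) := fun w i => w i
  let e : (Fin (n + 1) → V) → ℕ → V := fun a k => if h : k < n + 1 then a ⟨k, h⟩ else v
  have mr : Measurable r := by fun_prop
  have mr2 : Measurable fun w => (r w, w (n + 1)) := by fun_prop
  have er : ∀ w, ∀ k ≤ n, e (r w) k = w k := fun w k hk => dif_pos (Nat.lt_succ_of_le hk)
  have up : ∀ (w w' : ℕ → V) y, (∀ k ≤ n, w k = w' k) → ∀ k ≤ n + 1,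
      Function.update w (n + 1) y k = Function.update w' (n + 1) y k := fun w w' y h k hk => by
    by_cases e : k = n + 1
    · simp [e]
    · simp [e, h k (by omega)]
  have l1 : ∫⁻ w, F w ∂P = ∫⁻ q : (Fin (n + 1) → V) × V, F (Function.update (e q.1) (n + 1) q.2)
      ∂P.map fun w => (r w, w (n + 1)) := by
    rw [lintegral_map Measurable.of_discrete mr2]
    refine lintegral_congr fun w => hF _ _ fun k hk => ?_
    rw [up _ _ _ (er w) k hk, Function.update_eq_self]
  have l2 : ∫⁻ w, ∑ y ∈ G.neighborFinset (w n),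
        ENNReal.ofReal (trans G γ w n y) * F (Function.update w (n + 1) y) ∂P =
      ∫⁻ a, ∑ y ∈ G.neighborFinset (e a n),
        ENNReal.ofReal (trans G γ (e a) n y) * F (Function.update (e a) (n + 1) y)
        ∂P.map r := by
    rw [lintegral_map Measurable.of_discrete mr]
    refine lintegral_congr fun w => ?_
    rw [er w n le_rfl]
    refine sum_congr rfl fun y _ => ?_
    rw [trans_congr (er w), hF _ _ (up _ _ y (er w))]
  rw [l1, l2, lintegral_countable', lintegral_countable', ENNReal.tsum_prod']
  refine tsum_congr fun a => ?_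
  have key : ∀ y : V, F (Function.update (e (a, y).1) (n + 1) (a, y).2) *
      (P.map fun w => (r w, w (n + 1))) {(a, y)} =
      (ENNReal.ofReal (trans G γ (e a) n y) * F (Function.update (e a) (n + 1) y)) *
        (P.map r) {a} := by
    intro y
    have h := hP.2.2 (Function.update (e a) (n + 1) y) n
    have u2 : ∀ k ≤ n, Function.update (e a) (n + 1) y k = e a k := fun k hk =>
      Function.update_of_ne (by omega) _ _
    have s1 : r ⁻¹' {a} = {w | ∀ k ≤ n, w k = Function.update (e a) (n + 1) y k} := by
      ext w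
      refine ⟨?_, fun h => funext fun i => ?_⟩
      · rintro rfl k hk
        rw [u2 k hk, er w k hk]
      · have := h i (Nat.le_of_lt_succ i.2)
        rw [u2 _ (Nat.le_of_lt_succ i.2)] at this
        exact this.trans (dif_pos i.2)
    have s2 : (fun w => (r w, w (n + 1))) ⁻¹' {(a, y)} =
        {w | ∀ k ≤ n + 1, w k = Function.update (e a) (n + 1) y k} := by
      ext w
      have := Set.ext_iff.1 s1 w
      simp only [Set.mem_preimage, Set.mem_singleton_iff, Prod.mk.injEq, Set.mem_ofPred_eq] at this ⊢
      rw [this]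
      refine ⟨fun h k hk => ?_,
        fun h => ⟨fun k hk => h k (by omega), by simpa using h (n + 1) le_rfl⟩⟩
      by_cases e : k = n + 1
      · simp [e, h.2]
      · exact h.1 k (by omega)
    rw [Measure.map_apply mr2 (MeasurableSet.singleton _),
      Measure.map_apply mr (MeasurableSet.singleton _), s1, s2, h, trans_congr u2,
      Function.update_self]
    ring
  rw [tsum_congr key, tsum_eq_sum (s := G.neighborFinset (e a n)), sum_mul]
  intro y hy
  have h0 : trans G γ (e a) n y = 0 := by
    unfold Pool.Agent.H41.Derrw.trans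
    rw [if_neg]
    intro h
    exact hy ((SimpleGraph.mem_neighborFinset _ _ _).2 h)
  rw [h0, ENNReal.ofReal_zero, zero_mul, zero_mul]

theorem de_one : S_ONE := by
  intro V _ _ _ _ G _ γ v P hP n F hF
  exact one_step_c hP n F hF

end Pool.Agent.H284
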