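import Pool.Agent.H316.EM.Stm2

/-!
# Project EM (helper316): a `t`-periodic maximal annihilator (`S_ANN`)
-/

set_option autoImplicit false

namespace Pool.Agent.H284

open Pool.Agent.H316.EM

namespace EMANN

variable {R V : Type} [CommRing R] [AddCommGroup V] [Module R V]

/-- the annihilator of an element -/
def an (v : V) : Ideal R := LinearMap.ker (LinearMap.toSpanSingleton R V v)

theorem mem_an (v : V) (r : R) : r ∈ (an v : Ideal R) ↔ r • v = 0 := by
  unfold an
  rw [LinearMap.mem_ker, LinearMap.toSpanSingleton_apply]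

/-- the elements killed by an ideal -/
def kil (P : Ideal R) : Submodule R V where
  carrier := {v | ∀ r ∈ P, r • v = 0}
  zero_mem' := fun r _ => smul_zero r
  add_mem' := by
    intro a b ha hb r hr
    rw [smul_add, ha r hr, hb r hr, add_zero]
  smul_mem' := by
    intro c a ha r hr
    rw [smul_comm, ha r hr, smul_zero]

theorem mem_kil (P : Ideal R) (v : V) : v ∈ (kil P : Submodule R V) ↔ ∀ r ∈ P, r • v = 0 := Iff.rfl

theorem iter_smul (σ : R ≃+* R) (t : V ≃+ V) (h : ∀ (r : R) (v : V), t (r • v) = σ r • t v)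
    (i : ℕ) (r : R) (v : V) : (t^[i]) (r • v) = (σ ^ i) r • (t^[i]) v := by
  induction i with
  | zero => rfl
  | succ i ih =>
    rw [Function.iterate_succ_apply', Function.iterate_succ_apply', ih, h, pow_succ']
    rfl

theorem iter_ne (t : V ≃+ V) (i : ℕ) {v : V} (hv : v ≠ 0) : (t^[i]) v ≠ 0 := by
  induction i with
  | zero => exact hv
  | succ i ih =>
    rw [Function.iterate_succ_apply']
    exact (map_ne_zero_iff t t.injective).2 ih

theorem iter_surj (t : V ≃+ V) (i : ℕ) : Function.Surjective (t^[i]) :=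
  t.surjective.iterate i

end EMANN

open EMANN in
theorem em_ann : S_ANN := by
  intro R V Γ _ _ _ _ _ _ _ _ hacc σ t ht
  classical
  -- the maximal annihilator
  obtain ⟨w0, hw0⟩ := exists_ne (0 : V)
  obtain ⟨P, ⟨v0, hv0, hP⟩, hmax⟩ : ∃ P : Ideal R, (∃ v : V, v ≠ 0 ∧ P = an v) ∧
      ∀ J : Ideal R, (∃ v : V, v ≠ 0 ∧ J = an v) → ¬ P < J := by
    obtain ⟨P, h1, h2⟩ := set_has_maximal_iff_noetherian.2
      (inferInstance : IsNoetherian R R) {I : Ideal R | ∃ v : V, v ≠ 0 ∧ I = an v}
      ⟨an w0, w0, hw0, rfl⟩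
    exact ⟨P, h1, fun J hJ => h2 J hJ⟩
  have hmax' : ∀ v : V, v ≠ 0 → P ≤ an v → an v = P := by
    intro v hv hle
    by_contra hne
    exact hmax (an v) ⟨v, hv, rfl⟩ (lt_of_le_of_ne hle (Ne.symm hne))
  have hPrime : P.IsPrime := by
    refine Ideal.isPrime_iff.2 ⟨?_, ?_⟩
    · rw [Ideal.ne_top_iff_one, hP, mem_an, one_smul]
      exact hv0
    · intro a b hab
      by_cases hb : b ∈ P
      · exact Or.inr hb
      · left
        have h1 : b • v0 ≠ 0 := by
          rw [hP, mem_an] at hb
          exact hb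
        have h2 : P ≤ an (b • v0) := by
          intro r hr
          rw [hP, mem_an] at hr
          rw [mem_an, smul_comm, hr, smul_zero]
        rw [← hmax' _ h1 h2, mem_an, smul_smul]
        rw [hP, mem_an] at hab
        exact hab
  -- the conjugates
  set Q : ℕ → Ideal R := fun i => P.comap ((σ ^ i).symm : R ≃+* R) with hQ
  have memQ : ∀ i r, (σ ^ i) r ∈ Q i ↔ r ∈ P := by
    intro i r
    simp only [hQ, Ideal.mem_comap]
    rw [RingEquiv.symm_apply_apply]
  have surjσ : ∀ i (r : R), ∃ s, (σ ^ i) s = r := fun i r => (σ ^ i).surjective r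
  have hQprime : ∀ i, (Q i).IsPrime := fun i => Ideal.comap_isPrime _ P
  have hQmax : ∀ i (v : V), v ≠ 0 → (∀ r ∈ Q i, r • v = 0) → ∀ r, r • v = 0 → r ∈ Q i := by
    intro i v hv hk r hr
    obtain ⟨w, rfl⟩ := iter_surj t i v
    obtain ⟨s, rfl⟩ := surjσ i r
    have hw : w ≠ 0 := by
      rintro rfl
      apply hv
      have := iter_smul σ t ht i 0 (0 : V)
      rw [smul_zero, map_zero, zero_smul] at this
      exact this
    rw [memQ]
    have h1 : P ≤ an w := by
      intro x hx
      rw [mem_an]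
      by_contra hne
      apply iter_ne t i hne
      rw [iter_smul σ t ht]
      exact hk _ ((memQ i x).2 hx)
    rw [← hmax' w hw h1, mem_an]
    by_contra hne
    apply iter_ne t i hne
    rw [iter_smul σ t ht]
    exact hr
  have hmem : ∀ i, (t^[i]) v0 ∈ (kil (Q i) : Submodule R V) := by
    intro i r hr
    obtain ⟨s, rfl⟩ := surjσ i r
    rw [memQ, hP, mem_an] at hr
    rw [← iter_smul σ t ht, hr]
    have := iter_smul σ t ht i 0 (0 : V)
    rw [smul_zero, map_zero, zero_smul] at this
    exact this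
  have hincomp : ∀ i j, Q j ≤ Q i → Q j = Q i := by
    intro i j hle
    refine le_antisymm hle fun r hr => ?_
    exact hQmax j ((t^[i]) v0) (iter_ne t i hv0) (fun s hs => hmem i s (hle hs)) r (hmem i r hr)
  -- the chain
  set W : ℕ → Submodule R V := fun n => ⨆ i ∈ Finset.range n, kil (Q i) with hW
  have hmono : Monotone W := by
    intro a b hab
    refine biSup_mono fun i hi => ?_
    rw [Finset.mem_range] at hi ⊢
    omega
  have hstab : ∀ n, ∀ g : Γ, ∀ x ∈ W n, g • x ∈ W n := by
    intro n g x hx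
    have h1 : W n ≤ (W n).comap (DistribSMul.toLinearMap R V g) := by
      refine iSup₂_le fun i hi => ?_
      intro y hy
      rw [Submodule.mem_comap]
      have h2 : g • y ∈ (kil (Q i) : Submodule R V) := by
        intro r hr
        rw [← smul_comm g r y, hy r hr, smul_zero]
      exact (le_iSup₂_of_le (f := fun i (_ : i ∈ Finset.range n) => (kil (Q i) : Submodule R V))
        i hi le_rfl) h2
    exact h1 hx
  obtain ⟨n, hn⟩ := hacc W hmono hstab
  have hVn : (kil (Q n) : Submodule R V) ≤ W n := by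
    rw [← hn (n + 1) (Nat.le_succ n)]
    exact le_iSup₂_of_le (f := fun i (_ : i ∈ Finset.range (n + 1)) => (kil (Q i) : Submodule R V))
      n (Finset.mem_range.2 (Nat.lt_succ_self n)) le_rfl
  obtain ⟨j, hj, hjn⟩ : ∃ j, j < n ∧ Q j = Q n := by
    by_contra hcon
    push Not at hcon
    have h1 : ∀ j, j < n → ∃ e, e ∈ Q j ∧ e ∉ Q n := by
      intro j hj
      by_contra h2
      push Not at h2
      exact hcon j hj (hincomp n j h2)
    choose! e he1 he2 using h1
    set E : R := ∏ j ∈ Finset.range n, e j with hE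
    have hEn : E ∉ Q n := by
      intro hE'
      rw [hE, (hQprime n).prod_mem_iff] at hE'
      obtain ⟨j, hj, hj'⟩ := hE'
      exact he2 j (Finset.mem_range.1 hj) hj'
    have hkill : W n ≤ LinearMap.ker (LinearMap.lsmul R V E) := by
      refine iSup₂_le fun j hj => ?_
      intro y hy
      rw [LinearMap.mem_ker, LinearMap.lsmul_apply]
      refine hy E ?_
      rw [hE]
      exact Ideal.prod_mem _ hj (he1 j (Finset.mem_range.1 hj))
    have h3 := hkill (hVn (hmem n))
    rw [LinearMap.mem_ker, LinearMap.lsmul_apply] at h3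
    exact hEn (hQmax n _ (iter_ne t n hv0) (hmem n) E h3)
  refine ⟨P, hPrime, ⟨n - j, by omega, fun r => ?_⟩, ⟨v0, hv0, fun r hr => ?_⟩, ?_⟩
  · have h1 : (σ ^ n) r = (σ ^ j) ((σ ^ (n - j)) r) := by
      have : σ ^ n = σ ^ j * σ ^ (n - j) := by
        rw [← pow_add]
        congr 1
        omega
      rw [this]
      rfl
    rw [← memQ n r, ← hjn, h1, memQ]
  · rw [hP, mem_an] at hr
    exact hr
  · intro v hv hk r hr
    have h1 : P ≤ an v := by
      intro x hx
      rw [mem_an]
      exact hk x hx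
    rw [← hmax' v hv h1, mem_an]
    exact hr

end Pool.Agent.H284
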