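import Pool.Agent.H867.FT.Gen11

/-!
# Proof of `Pool.Agent.H867.FT.S_ACP`

Density and induced topology for Mathlib's completion of a Noetherian local ring.
-/

namespace Pool.Agent.H284.FT867ACP

open IsLocalRing

/-- Membership in the powers of the maximal ideal of the completion is evaluation zero. -/
theorem mem_pow_iff (A : Type) [CommRing A] [IsLocalRing A] [IsNoetherianRing A] (n : ℕ)
    (s : AdicCompletion (maximalIdeal A) A) :
    s ∈ maximalIdeal (AdicCompletion (maximalIdeal A) A) ^ n ↔
      AdicCompletion.eval (maximalIdeal A) A n s = 0 := by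
  rw [AdicCompletion.maximalIdeal_eq_map, ← Ideal.map_pow, ← Submodule.restrictScalars_mem A,
    ← Ideal.smul_top_eq_map,
    AdicCompletion.pow_smul_top_eq_ker_eval (Ideal.fg_of_isNoetherianRing (maximalIdeal A)),
    LinearMap.mem_ker]

theorem eval_algebraMap (A : Type) [CommRing A] [IsLocalRing A] [IsNoetherianRing A] (n : ℕ)
    (r : A) :
    AdicCompletion.eval (maximalIdeal A) A n
      (algebraMap A (AdicCompletion (maximalIdeal A) A) r) =
      (maximalIdeal A ^ n • ⊤ : Submodule A A).mkQ r := rfl

theorem acp : Pool.Agent.H867.FT.S_ACP := by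
  intro A _ _ _
  constructor
  · intro n s
    obtain ⟨r, hr⟩ := Submodule.mkQ_surjective (maximalIdeal A ^ n • ⊤ : Submodule A A)
      (AdicCompletion.eval (maximalIdeal A) A n s)
    refine ⟨r, ?_⟩
    rw [mem_pow_iff, map_sub, eval_algebraMap, hr, sub_self]
  · intro n r
    rw [mem_pow_iff, eval_algebraMap, Submodule.mkQ_apply, Submodule.Quotient.mk_eq_zero,
      smul_eq_mul, Ideal.mul_top]

end Pool.Agent.H284.FT867ACP
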