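import Pool.Agent.H979.GW.StmB

set_option autoImplicit false

open MeasureTheory ProbabilityTheory Filter Topology Set
open scoped ENNReal NNReal

/-!
# Project GW, task LUMP: the first coordinate of the signed walk is the walk
-/

namespace Pool.Agent.H284

open Pool.Agent.H979.QIP (P K V bm S cons measurable_consX P_apply)
open Pool.Agent.H979.GW

section lump

variable {X Y : Type} [Countable X] [MeasurableSpace X] [MeasurableSingletonClass X]
  [Countable Y] [MeasurableSpace Y] [MeasurableSingletonClass Y]

theorem lump_cyl (q : X → Measure X) [∀ x, IsProbabilityMeasure (q x)] (q' : Y → Measure Y)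
    [∀ y, IsProbabilityMeasure (q' y)] (p : Y → X) (h : ∀ y, (q' y).map p = q (p y)) (N : ℕ)
    (t : ℕ → Set X) (ht : ∀ i, MeasurableSet (t i)) (y : Y) :
    P q' y {w | ∀ k < N, p (w k) ∈ t k} = P q (p y) {w | ∀ k < N, w k ∈ t k} := by
  have hp : Measurable p := measurable_of_countable p
  induction N generalizing t y with
  | zero => simp
  | succ N ih =>
    have hm1 : MeasurableSet {w : ℕ → Y | ∀ k < N + 1, p (w k) ∈ t k} := by
      have h1 : {w : ℕ → Y | ∀ k < N + 1, p (w k) ∈ t k} =
          ⋂ (k : ℕ) (_ : k < N + 1), (fun w : ℕ → Y => p (w k)) ⁻¹' (t k) := by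
        ext w
        simp
      rw [h1]
      exact MeasurableSet.iInter fun k => MeasurableSet.iInter fun _ =>
        (hp.comp (measurable_pi_apply k)) (ht k)
    have hm2 : MeasurableSet {w : ℕ → X | ∀ k < N + 1, w k ∈ t k} := by
      have h1 : {w : ℕ → X | ∀ k < N + 1, w k ∈ t k} =
          ⋂ (k : ℕ) (_ : k < N + 1), (fun w : ℕ → X => w k) ⁻¹' (t k) := by
        ext w
        simp
      rw [h1]
      exact MeasurableSet.iInter fun k => MeasurableSet.iInter fun _ =>
        (measurable_pi_apply k) (ht k)
    rw [P_apply q' y hm1, P_apply q (p y) hm2, ← h y, lintegral_map (measurable_of_countable _) hp]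
    refine lintegral_congr fun y' => ?_
    have e1 : {w : ℕ → Y | cons y w ∈ {w : ℕ → Y | ∀ k < N + 1, p (w k) ∈ t k}} =
        {w | p y ∈ t 0 ∧ ∀ k < N, p (w k) ∈ t (k + 1)} := by
      ext w
      simp only [mem_ofPred_eq]
      constructor
      · intro hw
        exact ⟨hw 0 (by omega), fun k hk => hw (k + 1) (by omega)⟩
      · rintro ⟨h1, h2⟩ k hk
        cases k with
        | zero => exact h1
        | succ k => exact h2 k (by omega)
    have e2 : {w : ℕ → X | cons (p y) w ∈ {w : ℕ → X | ∀ k < N + 1, w k ∈ t k}} =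
        {w | p y ∈ t 0 ∧ ∀ k < N, w k ∈ t (k + 1)} := by
      ext w
      simp only [mem_ofPred_eq]
      constructor
      · intro hw
        exact ⟨hw 0 (by omega), fun k hk => hw (k + 1) (by omega)⟩
      · rintro ⟨h1, h2⟩ k hk
        cases k with
        | zero => exact h1
        | succ k => exact h2 k (by omega)
    rw [e1, e2]
    by_cases h0 : p y ∈ t 0
    · have := ih (fun k => t (k + 1)) (fun k => ht (k + 1)) y'
      simpa [h0] using this
    · simp [h0]

theorem lump (q : X → Measure X) [∀ x, IsProbabilityMeasure (q x)] (q' : Y → Measure Y)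
    [∀ y, IsProbabilityMeasure (q' y)] (p : Y → X) (h : ∀ y, (q' y).map p = q (p y)) (y : Y) :
    (P q' y).map (fun w (k : ℕ) => p (w k)) = P q (p y) := by
  classical
  have hp : Measurable p := measurable_of_countable p
  have hpm : Measurable (fun (w : ℕ → Y) (k : ℕ) => p (w k)) :=
    measurable_pi_lambda _ fun k => hp.comp (measurable_pi_apply k)
  have hfin : IsProbabilityMeasure ((P q' y).map (fun w (k : ℕ) => p (w k))) :=
    Measure.isProbabilityMeasure_map hpm.aemeasurable
  refine ext_of_generate_finite (squareCylinders fun _ : ℕ => {s : Set X | MeasurableSet s})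
    generateFrom_squareCylinders.symm
    (isPiSystem_squareCylinders (fun _ => MeasurableSpace.isPiSystem_measurableSet)
      (fun _ => MeasurableSet.univ)) ?_ (by rw [measure_univ, measure_univ])
  rintro _ ⟨s, t, ht, rfl⟩
  have ht' : ∀ i, MeasurableSet (t i) := fun i => ht i (mem_univ i)
  obtain ⟨N, hN⟩ := s.exists_nat_subset_range
  set t' : ℕ → Set X := fun i => if i ∈ s then t i else univ with ht'd
  have ht'm : ∀ i, MeasurableSet (t' i) := fun i => by
    rw [ht'd]
    dsimp only
    split_ifs
    · exact ht' i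
    · exact MeasurableSet.univ
  have e1 : Set.pi (s : Set ℕ) t = {w | ∀ k < N, w k ∈ t' k} := by
    ext w
    simp only [Set.mem_pi, Finset.mem_coe, ht'd, mem_ofPred_eq]
    constructor
    · intro hw i _
      split_ifs with hi
      · exact hw i hi
      · trivial
    · intro hw i hi
      have := hw i (Finset.mem_range.1 (hN hi))
      rwa [if_pos hi] at this
  rw [Measure.map_apply hpm (MeasurableSet.pi s.countable_toSet fun i _ => ht' i), e1]
  exact lump_cyl q q' p h N t' ht'm y

end lump

theorem sgc_fst {Λ : Type} [DecidableEq Λ] [Countable Λ] (ρ : ℝ) (ch : List Λ → Finset Λ)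
    (x : List Λ × Bool) : (sgc ρ ch x).map Prod.fst = stp ρ ch x.1 := by
  have hid : ∀ s : Bool, ∀ μ : Measure (List Λ),
      (μ.map (fun w : List Λ => (w, s))).map Prod.fst = μ := by
    intro s μ
    rw [Measure.map_map measurable_fst (measurable_pairl s)]
    exact Measure.map_id
  obtain ⟨v, s⟩ := x
  cases v with
  | nil =>
    unfold sgc
    rw [Measure.map_add _ _ measurable_fst, Measure.map_smul, Measure.map_smul, hid, hid,
      ← add_smul, ENNReal.inv_two_add_inv_two, one_smul]
  | cons a v =>
    unfold sgc
    exact hid s _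

/-- **LUMP** -/
theorem gw_lump : S_LUMP := by
  intro Λ _ _ ρ _ ch v s
  exact lump (stp ρ ch) (sgc ρ ch) Prod.fst (sgc_fst ρ ch) (v, s)

end Pool.Agent.H284
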