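import Mathlib
import Pool.Agent.H398.Kt.Iface

/-!
# Existence of multiplicative characters which are monotone for a relation (K3 of the project Kt of
helper398); adapted from the file Gam/PfChar.lean of helper195
-/

set_option autoImplicit false

open Filter Topology

namespace Pool.Agent.H284.Kt

universe w

/-- the class of functions in which the character is a minimal element -/
structure CL {R : Type w} [CommSemiring R] (c : R → ℝ) (a : R) (g : ℝ) (rel : R → R → Prop)
    (N : R → ℝ) : Prop where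
  nn : ∀ x, 0 ≤ N x
  le : ∀ x, N x ≤ c x
  sub : ∀ x y, N (x + y) ≤ N x + N y
  mono : ∀ x y, N x ≤ N (x + y)
  mul : ∀ x y, N (x * y) ≤ N x * N y
  low : ∀ n m : ℕ, (n : ℝ) * g ^ m ≤ N ((n : R) * a ^ m)
  rl : ∀ x y, rel x y → N x ≤ N y

theorem le_mul_sInf {T : Set ℝ} (hne : T.Nonempty) {K r : ℝ} (hr : 0 ≤ r)
    (h : ∀ t ∈ T, K ≤ r * t) : K ≤ r * sInf T := by
  rcases hr.eq_or_lt with h0 | hr
  · obtain ⟨t, ht⟩ := hne
    have := h t ht
    rw [← h0] at this ⊢
    simpa using this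
  · rw [← div_le_iff₀' hr]
    apply le_csInf hne
    intro t ht
    rw [div_le_iff₀' hr]
    exact h t ht

theorem le_add_sInf {T : Set ℝ} (hne : T.Nonempty) {K r : ℝ}
    (h : ∀ t ∈ T, K ≤ r + t) : K ≤ r + sInf T := by
  have : K - r ≤ sInf T := by
    apply le_csInf hne
    intro t ht
    linarith [h t ht]
  linarith

/-- `h ^ j ≤ C r ^ j` for all `j` implies `h ≤ r` -/
theorem le_of_pow_le {h r C : ℝ} (hr : 0 < r) (H : ∀ j : ℕ, h ^ j ≤ C * r ^ j) : h ≤ r := by
  by_contra hlt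
  rw [not_le] at hlt
  have h1 : 1 < h / r := by rwa [one_lt_div hr]
  obtain ⟨n, hn⟩ := pow_unbounded_of_one_lt C h1
  have h2 := H n
  rw [div_pow, lt_div_iff₀ (pow_pos hr n)] at hn
  linarith

/-- `B ^ m ≤ (m + 1) A ^ m` for all `m` implies `B ≤ A` -/
theorem le_of_pow_le' {A B : ℝ} (hA : 0 ≤ A) (H : ∀ m : ℕ, B ^ m ≤ ((m : ℝ) + 1) * A ^ m) :
    B ≤ A := by
  rcases hA.eq_or_lt with h0 | hA
  · have := H 1
    rw [← h0] at this ⊢
    simpa using this
  by_contra hlt
  rw [not_le] at hlt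
  have h1 : 1 < B / A := by rwa [one_lt_div hA]
  have t1 := tendsto_pow_const_div_const_pow_of_one_lt 1 h1
  have t0 := tendsto_pow_const_div_const_pow_of_one_lt 0 h1
  have t2 := t1.add t0
  rw [add_zero] at t2
  have t3 := t2.eventually (gt_mem_nhds (show (0 : ℝ) < 1 by norm_num))
  obtain ⟨n, hn⟩ := t3.exists
  have hp : 0 < (B / A) ^ n := pow_pos (by linarith) n
  rw [← add_div, div_lt_one hp, pow_one, pow_zero, div_pow, lt_div_iff₀ (pow_pos hA n)] at hn
  have h2 := H n
  linarith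

section

variable {R : Type w} [CommSemiring R] {c : R → ℝ} {a : R} {g : ℝ} {rel : R → R → Prop}
  {N : R → ℝ}

theorem CL.of_inf (T : R → Set ℝ) (hne : ∀ x, (T x).Nonempty) (h0 : ∀ x, ∀ t ∈ T x, 0 ≤ t)
    (hle : ∀ x, ∀ ε : ℝ, 0 < ε → ∃ t ∈ T x, t ≤ c x + ε)
    (hsub : ∀ x y, ∀ r ∈ T x, ∀ s ∈ T y, ∃ t ∈ T (x + y), t ≤ r + s)
    (hmono : ∀ x y, ∀ t ∈ T (x + y), ∃ r ∈ T x, r ≤ t)
    (hmul : ∀ x y, ∀ r ∈ T x, ∀ s ∈ T y, ∃ t ∈ T (x * y), t ≤ r * s)
    (hlow : ∀ n m : ℕ, ∀ t ∈ T ((n : R) * a ^ m), (n : ℝ) * g ^ m ≤ t)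
    (hrel : ∀ x y, rel x y → ∀ s ∈ T y, ∃ t ∈ T x, t ≤ s) :
    CL c a g rel (fun x => sInf (T x)) := by
  have hb : ∀ x, BddBelow (T x) := fun x => ⟨0, h0 x⟩
  refine ⟨?_, ?_, ?_, ?_, ?_, ?_, ?_⟩
  · intro x
    exact le_csInf (hne x) (h0 x)
  · intro x
    apply le_of_forall_pos_le_add
    intro ε hε
    obtain ⟨t, ht, htc⟩ := hle x ε hε
    exact (csInf_le (hb x) ht).trans htc
  · intro x y
    show sInf (T (x + y)) ≤ sInf (T x) + sInf (T y)
    apply le_add_sInf (hne y)
    intro s hs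
    rw [add_comm (sInf (T x)) s]
    apply le_add_sInf (hne x)
    intro r hr
    obtain ⟨t, ht, hts⟩ := hsub x y r hr s hs
    rw [add_comm s r]
    exact (csInf_le (hb _) ht).trans hts
  · intro x y
    show sInf (T x) ≤ sInf (T (x + y))
    apply le_csInf (hne _)
    intro t ht
    obtain ⟨r, hr, hrt⟩ := hmono x y t ht
    exact (csInf_le (hb _) hr).trans hrt
  · intro x y
    show sInf (T (x * y)) ≤ sInf (T x) * sInf (T y)
    apply le_mul_sInf (hne y) (le_csInf (hne x) (h0 x))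
    intro s hs
    rw [mul_comm (sInf (T x)) s]
    apply le_mul_sInf (hne x) (h0 y s hs)
    intro r hr
    obtain ⟨t, ht, hts⟩ := hmul x y r hr s hs
    rw [mul_comm s r]
    exact (csInf_le (hb _) ht).trans hts
  · intro n m
    exact le_csInf (hne _) (hlow n m)
  · intro x y hxy
    show sInf (T x) ≤ sInf (T y)
    apply le_csInf (hne y)
    intro s hs
    obtain ⟨t, ht, hts⟩ := hrel x y hxy s hs
    exact (csInf_le (hb x) ht).trans hts

theorem CL.one (h : CL c a g rel N) (hc1 : c 1 = 1) : N 1 = 1 := by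
  apply le_antisymm
  · rw [← hc1]; exact h.le 1
  · have := h.low 1 0
    simpa using this

theorem CL.zero (h : CL c a g rel N) (hc0 : c 0 = 0) : N 0 = 0 :=
  le_antisymm (hc0 ▸ h.le 0) (h.nn 0)

theorem CL.pow_le (h : CL c a g rel N) (hc1 : c 1 = 1) (x : R) (j : ℕ) : N (x ^ j) ≤ N x ^ j := by
  induction j with
  | zero => simp [h.one hc1]
  | succ j ih =>
    rw [pow_succ, pow_succ]
    exact (h.mul _ _).trans (mul_le_mul_of_nonneg_right ih (h.nn x))

theorem CL.nat_mul_le (h : CL c a g rel N) (hc0 : c 0 = 0) (n : ℕ) (z : R) :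
    N ((n : R) * z) ≤ n * N z := by
  induction n with
  | zero => simp [h.zero hc0]
  | succ n ih =>
    push_cast
    rw [add_mul, one_mul, add_mul, one_mul]
    exact (h.sub _ _).trans (by linarith)

theorem CL.sum_le (h : CL c a g rel N) (hc0 : c 0 = 0) {ι : Type*} (s : Finset ι) (f : ι → R) :
    N (∑ i ∈ s, f i) ≤ ∑ i ∈ s, N (f i) := by
  classical
  induction s using Finset.induction_on with
  | empty => simp [h.zero hc0]
  | insert i s hi ih =>
    rw [Finset.sum_insert hi, Finset.sum_insert hi]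
    exact (h.sub _ _).trans (by linarith)

theorem CL.mono_term (h : CL c a g rel N) {ι : Type*} (s : Finset ι) (f : ι → R) {i : ι}
    (hi : i ∈ s) : N (f i) ≤ N (∑ i ∈ s, f i) := by
  classical
  rw [← Finset.add_sum_erase s f hi]
  exact h.mono _ _

theorem CL.mono_pow (h : CL c a g rel N) (x y : R) (j : ℕ) : N (x ^ j) ≤ N ((x + y) ^ j) := by
  rw [add_pow]
  have := h.mono_term (Finset.range (j + 1)) (fun m => x ^ m * y ^ (j - m) * ((j.choose m : ℕ) : R))
    (i := j) (by simp)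
  simpa using this

/-! ### Zorn -/

theorem exists_min (hc : CL c a g rel c) : ∃ N, CL c a g rel N ∧
    ∀ M, CL c a g rel M → (∀ x, M x ≤ N x) → ∀ x, N x ≤ M x := by
  have hz := zorn_le_nonempty₀ (α := (R → ℝ)ᵒᵈ) {N | CL c a g rel (OrderDual.ofDual N)} (by
    intro S hS hch y hy
    refine ⟨OrderDual.toDual (fun x => sInf {r | ∃ M ∈ S, r = (OrderDual.ofDual M) x}), ?_, ?_⟩
    · show CL c a g rel (fun x => sInf {r | ∃ M ∈ S, r = (OrderDual.ofDual M) x})
      apply CL.of_inf (fun x => {r | ∃ M ∈ S, r = (OrderDual.ofDual M) x})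
      · intro x; exact ⟨_, y, hy, rfl⟩
      · rintro x t ⟨M, hM, rfl⟩
        exact (hS hM).nn x
      · intro x ε hε
        refine ⟨_, ⟨y, hy, rfl⟩, ?_⟩
        have := (hS hy).le x
        linarith
      · rintro x z r ⟨M1, hM1, rfl⟩ s ⟨M2, hM2, rfl⟩
        rcases hch.total hM1 hM2 with h | h
        · refine ⟨_, ⟨M2, hM2, rfl⟩, ?_⟩
          have h1 : (OrderDual.ofDual M2) x ≤ (OrderDual.ofDual M1) x := h x
          have h2 := (hS hM2).sub x z
          linarith
        · refine ⟨_, ⟨M1, hM1, rfl⟩, ?_⟩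
          have h1 : (OrderDual.ofDual M1) z ≤ (OrderDual.ofDual M2) z := h z
          have h2 := (hS hM1).sub x z
          linarith
      · rintro x z t ⟨M, hM, rfl⟩
        exact ⟨_, ⟨M, hM, rfl⟩, (hS hM).mono x z⟩
      · rintro x z r ⟨M1, hM1, rfl⟩ s ⟨M2, hM2, rfl⟩
        rcases hch.total hM1 hM2 with h | h
        · refine ⟨_, ⟨M2, hM2, rfl⟩, ?_⟩
          have h1 : (OrderDual.ofDual M2) x ≤ (OrderDual.ofDual M1) x := h x
          have h2 := (hS hM2).mul x z
          exact h2.trans (mul_le_mul_of_nonneg_right h1 ((hS hM2).nn z))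
        · refine ⟨_, ⟨M1, hM1, rfl⟩, ?_⟩
          have h1 : (OrderDual.ofDual M1) z ≤ (OrderDual.ofDual M2) z := h z
          have h2 := (hS hM1).mul x z
          exact h2.trans (mul_le_mul_of_nonneg_left h1 ((hS hM1).nn x))
      · rintro n m t ⟨M, hM, rfl⟩
        exact (hS hM).low n m
      · rintro x z hxz t ⟨M, hM, rfl⟩
        exact ⟨_, ⟨M, hM, rfl⟩, (hS hM).rl x z hxz⟩
    · intro M hM x
      show sInf {r | ∃ M ∈ S, r = (OrderDual.ofDual M) x} ≤ (OrderDual.ofDual M) x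
      apply csInf_le
      · refine ⟨0, ?_⟩
        rintro t ⟨M', hM', rfl⟩
        exact (hS hM').nn x
      · exact ⟨M, hM, rfl⟩) (OrderDual.toDual c) hc
  obtain ⟨N, _, hN⟩ := hz
  refine ⟨OrderDual.ofDual N, hN.1, ?_⟩
  intro M hM hMN x
  have h1 : N ≤ OrderDual.toDual M := hMN
  exact hN.2 (y := OrderDual.toDual M) hM h1 x

/-! ### Powers -/

theorem CL.rel_pow (h : CL c a g rel N) (hz : ∀ x y z, rel x y → rel (z * x) (z * y)) {x y : R}
    (hxy : rel x y) (j : ℕ) : ∀ z : R, N (z * x ^ j) ≤ N (z * y ^ j) := by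
  induction j with
  | zero =>
    intro z
    rw [pow_zero, pow_zero]
  | succ j ih =>
    intro z
    have e1 : z * x ^ (j + 1) = (z * x ^ j) * x := by ring
    have e2 : (z * x ^ j) * y = (z * y) * x ^ j := by ring
    have e3 : z * y ^ (j + 1) = (z * y) * y ^ j := by ring
    have h1 := h.rl _ _ (hz x y (z * x ^ j) hxy)
    have h2 := ih (z * y)
    rw [e1, e3]
    rw [e2] at h1
    exact h1.trans h2

theorem powers (hc0 : c 0 = 0) (hc1 : c 1 = 1)
    (hz : ∀ x y z, rel x y → rel (z * x) (z * y)) (h : CL c a g rel N)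
    (hmin : ∀ M, CL c a g rel M → (∀ x, M x ≤ N x) → ∀ x, N x ≤ M x) (x : R) (m : ℕ) :
    N (x ^ m) = N x ^ m := by
  set T : R → Set ℝ := fun x => {r | 0 < r ∧ ∃ C, ∀ j : ℕ, N (x ^ j) ≤ C * r ^ j} with hT
  have hC : ∀ {x : R} {r C : ℝ}, (∀ j : ℕ, N (x ^ j) ≤ C * r ^ j) → 0 ≤ C := by
    intro x r C h1
    have := h1 0
    rw [pow_zero, pow_zero, h.one hc1, mul_one] at this
    linarith
  have hmem : ∀ x r, 0 < r → N x ≤ r → r ∈ T x := by
    intro x r hr hxr
    refine ⟨hr, 1, fun j => ?_⟩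
    rw [one_mul]
    exact (h.pow_le hc1 x j).trans (pow_le_pow_left₀ (h.nn x) hxr j)
  have hb : ∀ x, BddBelow (T x) := fun x => ⟨0, fun t ht => ht.1.le⟩
  have hCL : CL c a g rel (fun x => sInf (T x)) := by
    apply CL.of_inf
    · intro x
      exact ⟨N x + 1, hmem x _ (by linarith [h.nn x]) (by linarith)⟩
    · intro x t ht; exact ht.1.le
    · intro x ε hε
      refine ⟨N x + ε, hmem x _ (by linarith [h.nn x]) (by linarith), ?_⟩
      linarith [h.le x]
    · rintro x y r ⟨hr, C, hrC⟩ s ⟨hs, D, hsD⟩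
      refine ⟨r + s, ⟨by linarith, C * D, fun j => ?_⟩, le_rfl⟩
      rw [add_pow, add_pow, Finset.mul_sum]
      refine (h.sum_le hc0 _ _).trans (Finset.sum_le_sum ?_)
      intro i _
      have h1 : N (x ^ i * y ^ (j - i) * ((j.choose i : ℕ) : R)) ≤
          (j.choose i : ℝ) * N (x ^ i * y ^ (j - i)) := by
        rw [mul_comm]
        exact h.nat_mul_le hc0 _ _
      have h2 := h.mul (x ^ i) (y ^ (j - i))
      have h3 := hrC i
      have h4 := hsD (j - i)
      have h5 : N (x ^ i) * N (y ^ (j - i)) ≤ (C * r ^ i) * (D * s ^ (j - i)) :=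
        mul_le_mul h3 h4 (h.nn _) (mul_nonneg (hC hrC) (pow_nonneg hr.le _))
      calc N (x ^ i * y ^ (j - i) * ((j.choose i : ℕ) : R))
          ≤ (j.choose i : ℝ) * N (x ^ i * y ^ (j - i)) := h1
        _ ≤ (j.choose i : ℝ) * ((C * r ^ i) * (D * s ^ (j - i))) := by
            apply mul_le_mul_of_nonneg_left (h2.trans h5) (Nat.cast_nonneg _)
        _ = C * D * (r ^ i * s ^ (j - i) * (j.choose i : ℝ)) := by ring
    · rintro x y t ⟨ht, C, htC⟩
      exact ⟨t, ⟨ht, C, fun j => (h.mono_pow x y j).trans (htC j)⟩, le_rfl⟩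
    · rintro x y r ⟨hr, C, hrC⟩ s ⟨hs, D, hsD⟩
      refine ⟨r * s, ⟨mul_pos hr hs, C * D, fun j => ?_⟩, le_rfl⟩
      rw [mul_pow, mul_pow]
      have h5 : N (x ^ j) * N (y ^ j) ≤ (C * r ^ j) * (D * s ^ j) :=
        mul_le_mul (hrC j) (hsD j) (h.nn _) (mul_nonneg (hC hrC) (pow_nonneg hr.le _))
      calc N (x ^ j * y ^ j) ≤ N (x ^ j) * N (y ^ j) := h.mul _ _
        _ ≤ (C * r ^ j) * (D * s ^ j) := h5
        _ = C * D * (r ^ j * s ^ j) := by ring
    · rintro n m t ⟨ht, C, htC⟩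
      apply le_of_pow_le ht (C := C)
      intro j
      refine le_trans ?_ (htC j)
      have h1 := h.low (n ^ j) (m * j)
      have e1 : ((n ^ j : ℕ) : R) * a ^ (m * j) = ((n : R) * a ^ m) ^ j := by
        rw [mul_pow, ← pow_mul]; push_cast; ring
      rw [e1] at h1
      refine le_trans (le_of_eq ?_) h1
      rw [mul_pow, ← pow_mul]; push_cast; ring
    · rintro x y hxy s ⟨hs, D, hsD⟩
      refine ⟨s, ⟨hs, D, fun j => ?_⟩, le_rfl⟩
      have h1 := h.rel_pow hz hxy j 1
      rw [one_mul, one_mul] at h1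
      exact h1.trans (hsD j)
  have hle : ∀ x, sInf (T x) ≤ N x := by
    intro x
    apply le_of_forall_pos_le_add
    intro ε hε
    exact csInf_le (hb x) (hmem x _ (by linarith [h.nn x]) (by linarith))
  have heq := hmin _ hCL hle
  apply le_antisymm (h.pow_le hc1 x m)
  by_contra hlt
  rw [not_le] at hlt
  rcases Nat.eq_zero_or_pos m with hm | hm
  · rw [hm, pow_zero, pow_zero, h.one hc1] at hlt
    exact lt_irrefl _ hlt
  have hNx : 0 < N x := by
    rcases (h.nn x).eq_or_lt with h0 | h0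
    · exfalso
      rw [← h0, zero_pow hm.ne'] at hlt
      exact absurd (h.nn (x ^ m)) (not_le.2 hlt)
    · exact h0
  obtain ⟨r, hr0, hrN, hrm⟩ : ∃ r, 0 < r ∧ r < N x ∧ N (x ^ m) < r ^ m := by
    have hcont : Tendsto (fun t : ℝ => t ^ m) (𝓝[<] (N x)) (𝓝 (N x ^ m)) :=
      ((continuous_pow m).tendsto _).mono_left nhdsWithin_le_nhds
    have h1 := hcont.eventually (lt_mem_nhds hlt)
    have h2 : ∀ᶠ t in 𝓝[<] (N x), t < N x := eventually_mem_nhdsWithin
    have h3 : ∀ᶠ t in 𝓝[<] (N x), 0 < t := (lt_mem_nhds hNx).filter_mono nhdsWithin_le_nhds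
    obtain ⟨r, hr1, hr2, hr3⟩ := (h1.and (h2.and h3)).exists
    exact ⟨r, hr3, hr2, hr1⟩
  have hrT : r ∈ T x := by
    refine ⟨hr0, (N x / r) ^ m, fun j => ?_⟩
    have hj : j = m * (j / m) + j % m := (Nat.div_add_mod j m).symm
    have h1 : N (x ^ j) ≤ (r ^ m) ^ (j / m) * N x ^ (j % m) := by
      conv_lhs => rw [hj, pow_add, pow_mul]
      refine (h.mul _ _).trans ?_
      apply mul_le_mul _ (h.pow_le hc1 _ _) (h.nn _) (pow_nonneg (pow_nonneg hr0.le _) _)
      exact (h.pow_le hc1 _ _).trans (pow_le_pow_left₀ (h.nn _) hrm.le _)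
    have h2 : N x ^ (j % m) ≤ (N x / r) ^ m * r ^ (j % m) := by
      have h3 : N x ^ (j % m) = (N x / r) ^ (j % m) * r ^ (j % m) := by
        rw [← mul_pow, div_mul_cancel₀ _ hr0.ne']
      rw [h3]
      apply mul_le_mul_of_nonneg_right _ (pow_nonneg hr0.le _)
      apply pow_le_pow_right₀
      · rw [one_le_div hr0]; exact hrN.le
      · exact (Nat.mod_lt _ hm).le
    calc N (x ^ j) ≤ (r ^ m) ^ (j / m) * N x ^ (j % m) := h1
      _ ≤ (r ^ m) ^ (j / m) * ((N x / r) ^ m * r ^ (j % m)) :=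
          mul_le_mul_of_nonneg_left h2 (pow_nonneg (pow_nonneg hr0.le _) _)
      _ = (N x / r) ^ m * r ^ j := by
          conv_rhs => rw [hj, pow_add, pow_mul]
          ring
  have h4 := csInf_le (hb x) hrT
  have h5 := heq x
  linarith

/-! ### Translation -/

theorem translation (hz : ∀ x y z, rel x y → rel (z * x) (z * y)) (h : CL c a g rel N)
    (hmin : ∀ M, CL c a g rel M → (∀ x, M x ≤ N x) → ∀ x, N x ≤ M x) {b : R} (hb : 0 < N b)
    (hlow : ∀ j n m : ℕ, (n : ℝ) * g ^ m * N b ^ j ≤ N (b ^ j * ((n : R) * a ^ m))) (x : R) :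
    N (b * x) = N b * N x := by
  set q : R → ℕ → ℝ := fun x j => N (b ^ j * x) / N b ^ j with hq
  have hp : ∀ j : ℕ, 0 < N b ^ j := fun j => pow_pos hb j
  have hanti : ∀ x, Antitone (q x) := by
    intro x
    apply antitone_nat_of_succ_le
    intro j
    show N (b ^ (j + 1) * x) / N b ^ (j + 1) ≤ N (b ^ j * x) / N b ^ j
    rw [div_le_div_iff₀ (hp _) (hp _)]
    have h1 : N (b ^ (j + 1) * x) ≤ N b * N (b ^ j * x) := by
      have : b ^ (j + 1) * x = b * (b ^ j * x) := by ring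
      rw [this]
      exact h.mul _ _
    calc N (b ^ (j + 1) * x) * N b ^ j ≤ (N b * N (b ^ j * x)) * N b ^ j :=
          mul_le_mul_of_nonneg_right h1 (hp j).le
      _ = N (b ^ j * x) * N b ^ (j + 1) := by ring
  set T : R → Set ℝ := fun x => {r | ∃ j, r = q x j} with hT
  have hq0 : ∀ x j, 0 ≤ q x j := fun x j => div_nonneg (h.nn _) (hp j).le
  have hqz : ∀ x, q x 0 = N x := by
    intro x
    show N (b ^ 0 * x) / N b ^ 0 = N x
    simp
  have hbd : ∀ x, BddBelow (T x) := by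
    intro x
    refine ⟨0, ?_⟩
    rintro t ⟨j, rfl⟩
    exact hq0 x j
  have hCL : CL c a g rel (fun x => sInf (T x)) := by
    apply CL.of_inf
    · intro x; exact ⟨_, 0, rfl⟩
    · rintro x t ⟨j, rfl⟩; exact hq0 x j
    · intro x ε hε
      refine ⟨_, ⟨0, rfl⟩, ?_⟩
      rw [hqz]
      linarith [h.le x]
    · rintro x y r ⟨i, rfl⟩ s ⟨j, rfl⟩
      refine ⟨_, ⟨max i j, rfl⟩, ?_⟩
      have h1 := hanti x (le_max_left i j)
      have h2 := hanti y (le_max_right i j)
      have h3 : q (x + y) (max i j) ≤ q x (max i j) + q y (max i j) := by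
        show N (b ^ (max i j) * (x + y)) / N b ^ (max i j) ≤
          N (b ^ (max i j) * x) / N b ^ (max i j) + N (b ^ (max i j) * y) / N b ^ (max i j)
        rw [← add_div, mul_add]
        exact div_le_div_of_nonneg_right (h.sub _ _) (hp _).le
      linarith
    · rintro x y t ⟨j, rfl⟩
      refine ⟨_, ⟨j, rfl⟩, ?_⟩
      show N (b ^ j * x) / N b ^ j ≤ N (b ^ j * (x + y)) / N b ^ j
      rw [mul_add]
      exact div_le_div_of_nonneg_right (h.mono _ _) (hp _).le
    · rintro x y r ⟨i, rfl⟩ s ⟨j, rfl⟩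
      refine ⟨_, ⟨max i j + max i j, rfl⟩, ?_⟩
      have h1 := hanti x (le_max_left i j)
      have h2 := hanti y (le_max_right i j)
      have h3 : q (x * y) (max i j + max i j) ≤ q x (max i j) * q y (max i j) := by
        show N (b ^ (max i j + max i j) * (x * y)) / N b ^ (max i j + max i j) ≤
          N (b ^ (max i j) * x) / N b ^ (max i j) * (N (b ^ (max i j) * y) / N b ^ (max i j))
        rw [div_mul_div_comm, ← pow_add]
        apply div_le_div_of_nonneg_right _ (hp _).le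
        have e : b ^ (max i j + max i j) * (x * y) = (b ^ (max i j) * x) * (b ^ (max i j) * y) := by
          ring
        rw [e]
        exact h.mul _ _
      exact h3.trans (mul_le_mul h1 h2 (hq0 _ _) (hq0 _ _))
    · rintro n m t ⟨j, rfl⟩
      show (n : ℝ) * g ^ m ≤ N (b ^ j * ((n : R) * a ^ m)) / N b ^ j
      rw [le_div_iff₀ (hp j)]
      exact hlow j n m
    · rintro x y hxy t ⟨j, rfl⟩
      refine ⟨_, ⟨j, rfl⟩, ?_⟩
      show N (b ^ j * x) / N b ^ j ≤ N (b ^ j * y) / N b ^ j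
      exact div_le_div_of_nonneg_right (h.rl _ _ (hz x y (b ^ j) hxy)) (hp _).le
  have hle : ∀ x, sInf (T x) ≤ N x := by
    intro x
    have := csInf_le (hbd x) ⟨0, rfl⟩
    rwa [hqz] at this
  have heq := hmin _ hCL hle
  apply le_antisymm (h.mul _ _)
  have h1 : N x ≤ q x 1 := (heq x).trans (csInf_le (hbd x) ⟨1, rfl⟩)
  have h2 : q x 1 = N (b * x) / N b := by
    show N (b ^ 1 * x) / N b ^ 1 = _
    rw [pow_one, pow_one]
  rw [h2, le_div_iff₀ hb] at h1
  linarith

end

theorem proof_relChar : Pool.Agent.H398.Kt.S_relChar.{w} := by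
  intro R _ c rel hcnn hc1 hcadd hcmul hcrel hz a g hg hlow hup
  have hc0 : c 0 = 0 := by
    have := hcadd 0 0
    rw [add_zero] at this
    linarith
  have hcn : ∀ (n : ℕ) (z : R), c ((n : R) * z) = n * c z := by
    intro n z
    induction n with
    | zero => simp [hc0]
    | succ n ih =>
      push_cast
      rw [add_mul, one_mul, add_mul, one_mul, hcadd, ih]
  have hcCL : CL c a g rel c := by
    refine ⟨hcnn, fun x => le_rfl, fun x y => (hcadd x y).le, fun x y => ?_, hcmul, fun n m => ?_,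
      hcrel⟩
    · rw [hcadd]; linarith [hcnn y]
    · rw [hcn]
      exact mul_le_mul_of_nonneg_left (hlow m) (Nat.cast_nonneg _)
  obtain ⟨N, h, hmin⟩ := exists_min hcCL
  have hpow := powers hc0 hc1 hz h hmin
  -- the value at `a`
  have hNa : N a = g := by
    apply le_antisymm
    · apply le_of_forall_pos_le_add
      intro ε hε
      obtain ⟨m, hm, hcm⟩ := hup ε hε
      have h1 : N a ^ m ≤ (g + ε) ^ m := by
        rw [← hpow]
        exact (h.le _).trans hcm
      exact le_of_pow_le_pow_left₀ hm.ne' (by linarith) h1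
    · have := h.low 1 1
      simpa using this
  have hNn : ∀ n : ℕ, N (n : R) ≤ n := by
    intro n
    have := h.nat_mul_le hc0 n 1
    rw [h.one hc1, mul_one, mul_one] at this
    exact this
  have hNna : ∀ n i : ℕ, N ((n : R) * a ^ i) = n * g ^ i := by
    intro n i
    apply le_antisymm
    · refine (h.mul _ _).trans ?_
      rw [hpow, hNa]
      exact mul_le_mul_of_nonneg_right (hNn n) (pow_nonneg hg.le _)
    · exact h.low n i
  -- multiplication by `n a ^ i`
  have hmulna : ∀ (n i : ℕ) (x : R), N ((n : R) * a ^ i * x) = n * g ^ i * N x := by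
    intro n i x
    rcases Nat.eq_zero_or_pos n with hn | hn
    · subst hn; simp [h.zero hc0]
    · rw [← hNna n i]
      apply translation hz h hmin
      · rw [hNna]; positivity
      · intro j n' m
        rw [hNna]
        have h1 := h.low (n ^ j * n') (i * j + m)
        have e1 : ((n ^ j * n' : ℕ) : R) * a ^ (i * j + m) =
            ((n : R) * a ^ i) ^ j * ((n' : R) * a ^ m) := by
          rw [mul_pow, ← pow_mul]; push_cast; ring
        rw [e1] at h1
        refine le_trans (le_of_eq ?_) h1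
        rw [mul_pow, ← pow_mul]; push_cast; ring
  -- multiplicativity
  have hmul : ∀ b x, N (b * x) = N b * N x := by
    intro b x
    rcases (h.nn b).eq_or_lt with hb | hb
    · apply le_antisymm (h.mul b x)
      rw [← hb, zero_mul]
      exact h.nn _
    · apply translation hz h hmin hb
      intro j n m
      rw [mul_comm (b ^ j), hmulna, hpow]
  -- additivity
  have hadd : ∀ x y, N x + N y ≤ N (x + y) := by
    intro x y
    apply le_of_pow_le' (h.nn _)
    intro m
    rw [add_pow]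
    have h1 : ∀ j ∈ Finset.range (m + 1), N x ^ j * N y ^ (m - j) * (m.choose j : ℝ) ≤ N (x + y) ^ m := by
      intro j hj
      have h2 := h.mono_term (Finset.range (m + 1))
        (fun j => x ^ j * y ^ (m - j) * ((m.choose j : ℕ) : R)) hj
      rw [← add_pow, hpow] at h2
      refine le_trans (le_of_eq ?_) h2
      have h3 : N (x ^ j * y ^ (m - j) * ((m.choose j : ℕ) : R)) =
          N (((m.choose j : ℕ) : R) * a ^ 0 * (x ^ j * y ^ (m - j))) := by
        congr 1; ring
      rw [h3, hmulna, hmul, hpow, hpow]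
      ring
    have h4 := Finset.sum_le_sum h1
    rw [Finset.sum_const, Finset.card_range, nsmul_eq_mul] at h4
    push_cast at h4
    exact h4
  refine ⟨N, h.nn, h.one hc1, ?_, hmul, h.le, hNa, h.rl⟩
  intro x y
  exact le_antisymm (h.sub x y) (hadd x y)

end Pool.Agent.H284.Kt
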