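import Pool.Agent.H416.LG.Tasks3

set_option autoImplicit false

/-!
# Project LG (helper416), task LG18: automorphisms of Noetherian local algebras
-/

namespace Pool.Agent.H284.LG18

open Pool.Agent.H416.LG IsLocalRing

universe u v w z

section fin

variable (F : Type z) [Field F] (R : Type z) [CommRing R] [IsLocalRing R] [Algebra F R]

/-- the powers of the maximal ideal, as subspaces -/
def W (c : ℕ) : Submodule F R := (maximalIdeal R ^ c).restrictScalars F

theorem mem_W {c : ℕ} {x : R} : x ∈ W F R c ↔ x ∈ maximalIdeal R ^ c := Iff.rfl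

theorem exists_one [Module.Finite F (ResidueField R)] :
    ∃ V : Submodule F R, V.FG ∧ V ⊔ W F R 1 = ⊤ := by
  let π : R →ₗ[F] ResidueField R := (IsScalarTower.toAlgHom F R (ResidueField R)).toLinearMap
  have hπ : Function.Surjective π := residue_surjective
  obtain ⟨g, hg⟩ := π.exists_rightInverse_of_surjective (LinearMap.range_eq_top.2 hπ)
  refine ⟨LinearMap.range g, ?_, ?_⟩
  · rw [← Submodule.map_top]
    exact Module.Finite.fg_top.map g
  · rw [eq_top_iff]
    intro x _
    rw [Submodule.mem_sup]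
    refine ⟨g (π x), LinearMap.mem_range_self g _, x - g (π x), ?_, add_sub_cancel _ _⟩
    rw [mem_W, pow_one]
    have h1 : π (x - g (π x)) = 0 := by
      rw [map_sub, sub_eq_zero]
      exact (congrArg (fun f : ResidueField R →ₗ[F] ResidueField R => f (π x)) hg).symm
    exact (residue_eq_zero_iff _).1 h1

theorem exists_fg [IsNoetherianRing R] [Module.Finite F (ResidueField R)] (c : ℕ) :
    ∃ V : Submodule F R, V.FG ∧ V ⊔ W F R c = ⊤ := by
  induction c with
  | zero =>
    refine ⟨⊥, Submodule.fg_bot, ?_⟩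
    rw [bot_sup_eq, eq_top_iff]
    intro x _
    rw [mem_W, pow_zero, Ideal.one_eq_top]
    exact Submodule.mem_top
  | succ c ih =>
    obtain ⟨V, hV, hVW⟩ := ih
    obtain ⟨V₁, hV₁, hVW₁⟩ := exists_one F R
    obtain ⟨s, hs⟩ := IsNoetherian.noetherian (maximalIdeal R ^ c)
    refine ⟨V ⊔ V₁ * Submodule.span F (s : Set R),
      hV.sup (hV₁.mul (Submodule.fg_span s.finite_toSet)), ?_⟩
    have key : ∀ y ∈ maximalIdeal R ^ c,
        y ∈ V₁ * Submodule.span F (s : Set R) ⊔ W F R (c + 1) := by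
      intro y hy
      rw [← hs] at hy
      induction hy using Submodule.closure_induction with
      | zero => exact Submodule.zero_mem _
      | add x y _ _ hx hy => exact Submodule.add_mem _ hx hy
      | smul_mem r x hx =>
        have hxm : x ∈ maximalIdeal R ^ c := by
          rw [← hs]
          exact Submodule.subset_span hx
        have hr : r ∈ V₁ ⊔ W F R 1 := by
          rw [hVW₁]
          exact Submodule.mem_top
        obtain ⟨v, hv, μ, hμ, rfl⟩ := Submodule.mem_sup.1 hr
        rw [smul_eq_mul, add_mul]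
        refine Submodule.add_mem_sup
          (Submodule.mul_mem_mul hv (Submodule.subset_span hx)) ?_
        rw [mem_W, pow_one] at hμ
        rw [mem_W, pow_succ']
        exact Ideal.mul_mem_mul hμ hxm
    rw [eq_top_iff]
    intro x _
    have hx : x ∈ V ⊔ W F R c := by
      rw [hVW]
      exact Submodule.mem_top
    obtain ⟨v, hv, y, hy, rfl⟩ := Submodule.mem_sup.1 hx
    rw [sup_assoc]
    exact Submodule.add_mem_sup hv (key y hy)

theorem fin_quot [IsNoetherianRing R] [Module.Finite F (ResidueField R)] (c : ℕ) :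
    Module.Finite F (R ⧸ W F R c) := by
  obtain ⟨V, hV, hVW⟩ := exists_fg F R c
  have : Module.Finite F V := Module.Finite.iff_fg.2 hV
  refine Module.Finite.of_surjective ((W F R c).mkQ ∘ₗ V.subtype) ?_
  rw [← LinearMap.range_eq_top, LinearMap.range_comp, Submodule.range_subtype, eq_top_iff]
  intro y _
  obtain ⟨x, rfl⟩ := Submodule.mkQ_surjective _ y
  have hx : x ∈ V ⊔ W F R c := by
    rw [hVW]
    exact Submodule.mem_top
  obtain ⟨v, hv, u, hu, rfl⟩ := Submodule.mem_sup.1 hx
  refine ⟨v, hv, ?_⟩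
  rw [map_add, left_eq_add, Submodule.mkQ_apply, Submodule.Quotient.mk_eq_zero]
  exact hu

end fin

section act

variable {F : Type z} [Field F] {R : Type z} [CommRing R] [IsLocalRing R] [Algebra F R]

theorem aut_mem (σ : R ≃ₐ[F] R) {x : R} (hx : x ∈ maximalIdeal R) : σ x ∈ maximalIdeal R := by
  rw [mem_maximalIdeal, mem_nonunits_iff] at hx ⊢
  intro h
  apply hx
  have h1 := h.map σ.symm
  rwa [AlgEquiv.symm_apply_apply] at h1

theorem aut_pow (σ : R ≃ₐ[F] R) (c : ℕ) : ∀ x ∈ maximalIdeal R ^ c, σ x ∈ maximalIdeal R ^ c := by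
  induction c with
  | zero =>
    intro x _
    rw [pow_zero, Ideal.one_eq_top]
    exact Submodule.mem_top
  | succ c ih =>
    intro x hx
    rw [pow_succ] at hx ⊢
    induction hx using Submodule.mul_induction_on' with
    | mem_mul_mem b hb d hd =>
      rw [map_mul]
      exact Ideal.mul_mem_mul (ih b hb) (aut_mem σ hd)
    | add x _ y _ hx hy =>
      rw [map_add]
      exact Submodule.add_mem _ hx hy

/-- the action on the quotient -/
noncomputable def act (F : Type z) [Field F] (R : Type z) [CommRing R] [IsLocalRing R] [Algebra F R]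
    (c : ℕ) : (R ≃ₐ[F] R) →* Module.End F (R ⧸ W F R c) where
  toFun σ := (W F R c).mapQ (W F R c) σ.toLinearMap (fun x hx => aut_pow σ c x hx)
  map_one' := by
    apply LinearMap.ext
    intro w
    obtain ⟨a, rfl⟩ := Submodule.mkQ_surjective _ w
    rfl
  map_mul' x y := by
    apply LinearMap.ext
    intro w
    obtain ⟨a, rfl⟩ := Submodule.mkQ_surjective _ w
    rfl

theorem act_mk (c : ℕ) (σ : R ≃ₐ[F] R) (a : R) :
    act F R c σ ((W F R c).mkQ a) = (W F R c).mkQ (σ a) := rfl

theorem act_eq_one {c : ℕ} {σ : R ≃ₐ[F] R} (h : act F R c σ = 1) (x : R) :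
    σ x - x ∈ maximalIdeal R ^ c := by
  have h4 : act F R c σ ((W F R c).mkQ x) = (W F R c).mkQ x := by
    rw [h]
    rfl
  rw [act_mk, ← sub_eq_zero, ← map_sub, Submodule.mkQ_apply, Submodule.Quotient.mk_eq_zero] at h4
  exact h4

theorem act_eq_one' {c : ℕ} {σ : R ≃ₐ[F] R} (h : ∀ x, σ x - x ∈ maximalIdeal R ^ c) :
    act F R c σ = 1 := by
  apply LinearMap.ext
  intro w
  obtain ⟨x, rfl⟩ := Submodule.mkQ_surjective _ w
  rw [act_mk, Module.End.one_apply, ← sub_eq_zero, ← map_sub, Submodule.mkQ_apply,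
    Submodule.Quotient.mk_eq_zero]
  exact h x

/-- automorphisms which are trivial modulo the square raise the power -/
theorem raise {a : R ≃ₐ[F] R} (h2 : ∀ x, a x - x ∈ maximalIdeal R ^ 2) (k : ℕ) :
    ∀ x ∈ maximalIdeal R ^ k, a x - x ∈ maximalIdeal R ^ (k + 1) := by
  induction k with
  | zero =>
    intro x _
    exact Ideal.pow_le_pow_right (by norm_num) (h2 x)
  | succ k ih =>
    intro x hx
    rw [pow_succ] at hx
    induction hx using Submodule.mul_induction_on' with
    | mem_mul_mem b hb d hd =>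
      have e : a (b * d) - b * d = (a b - b) * a d + b * (a d - d) := by
        rw [map_mul]
        ring
      rw [e]
      refine Ideal.add_mem _ ?_ ?_
      · rw [pow_succ (n := k + 1)]
        exact Ideal.mul_mem_mul (ih b hb) (aut_mem a hd)
      · have h3 := Ideal.mul_mem_mul hb (h2 d)
        rw [← pow_add] at h3
        exact h3
    | add x _ y _ hx hy =>
      have e : a (x + y) - (x + y) = (a x - x) + (a y - y) := by
        rw [map_add]
        ring
      rw [e]
      exact Ideal.add_mem _ hx hy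

omit [IsLocalRing R] in
theorem sum_iter (a : R ≃ₐ[F] R) (n : ℕ) (x : R) :
    (a ^ n) x - x = ∑ i ∈ Finset.range n, (a ^ i) (a x - x) := by
  induction n with
  | zero => rw [Finset.sum_range_zero, pow_zero, AlgEquiv.one_apply, sub_self]
  | succ n ih =>
    rw [Finset.sum_range_succ, ← ih, map_sub, pow_succ, AlgEquiv.mul_apply]
    ring

theorem raise_pow {a : R ≃ₐ[F] R} (h2 : ∀ x, a x - x ∈ maximalIdeal R ^ 2) (i : ℕ) :
    ∀ x, (a ^ i) x - x ∈ maximalIdeal R ^ 2 := by
  intro x
  rw [sum_iter]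
  exact Submodule.sum_mem _ fun j _ => aut_pow (a ^ j) 2 _ (h2 x)

theorem unip [CharZero F] {a : R ≃ₐ[F] R} (h2 : ∀ x, a x - x ∈ maximalIdeal R ^ 2) {c n : ℕ}
    (hn : 0 < n) (hc : ∀ x, (a ^ n) x - x ∈ maximalIdeal R ^ c) (k : ℕ) (hk : k ≤ c) :
    ∀ x, a x - x ∈ maximalIdeal R ^ k := by
  induction k with
  | zero =>
    intro x
    rw [pow_zero, Ideal.one_eq_top]
    exact Submodule.mem_top
  | succ k ih =>
    intro x
    have hN := ih (by omega) x
    obtain ⟨N, hNdef⟩ : ∃ N, N = a x - x := ⟨_, rfl⟩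
    have h3 := hc x
    rw [sum_iter] at h3
    rw [← hNdef] at hN h3 ⊢
    have h4 : ∑ i ∈ Finset.range n, ((a ^ i) N - N) ∈ maximalIdeal R ^ (k + 1) :=
      Submodule.sum_mem _ fun i _ => raise (raise_pow h2 i) k N hN
    have h5 : ∑ i ∈ Finset.range n, (a ^ i) N ∈ maximalIdeal R ^ (k + 1) :=
      Ideal.pow_le_pow_right hk h3
    have h6 : (n : F) • N = ∑ i ∈ Finset.range n, (a ^ i) N -
        ∑ i ∈ Finset.range n, ((a ^ i) N - N) := by
      rw [Finset.sum_sub_distrib, Finset.sum_const, Finset.card_range, Nat.cast_smul_eq_nsmul]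
      abel
    have h7 : (n : F) • N ∈ W F R (k + 1) := by
      rw [h6]
      exact Submodule.sub_mem _ h5 h4
    have hnF : (n : F) ≠ 0 := Nat.cast_ne_zero.2 hn.ne'
    have h8 := (W F R (k + 1)).smul_mem ((n : F)⁻¹) h7
    rwa [smul_smul, inv_mul_cancel₀ hnF, one_smul] at h8

theorem exists_level [CharZero F] [IsNoetherianRing R] (g : R ≃ₐ[F] R)
    (hg : ∀ k : ℕ, 0 < k → g ^ k ≠ 1) :
    ∃ c : ℕ, ∀ k : ℕ, 0 < k → act F R c g ^ k ≠ 1 := by
  by_contra hcon
  push Not at hcon
  obtain ⟨k, hk, hk1⟩ := hcon 2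
  apply hg k hk
  rw [← map_pow] at hk1
  have h2 := act_eq_one hk1
  have h3 : ∀ c x, (g ^ k) x - x ∈ maximalIdeal R ^ c := by
    intro c
    obtain ⟨n, hn, hn1⟩ := hcon c
    rw [← map_pow] at hn1
    have h4 : act F R c ((g ^ k) ^ n) = 1 := by
      rw [← pow_mul, mul_comm, pow_mul, map_pow, hn1, one_pow]
    exact unip h2 hn (act_eq_one h4) c le_rfl
  ext x
  have h5 : (g ^ k) x - x ∈ ⨅ c : ℕ, maximalIdeal R ^ c := by
    rw [Submodule.mem_iInf]
    exact fun c => h3 c x
  rw [Ideal.iInf_pow_eq_bot_of_isLocalRing (maximalIdeal R) (Ideal.IsMaximal.ne_top inferInstance),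
    Ideal.mem_bot, sub_eq_zero] at h5
  rw [h5]
  rfl

end act

theorem LG18_holds : S_LG18.{w, z} := by
  intro F _ _ R _ _ _ _ _ G _ φ g hg H _ hgH
  obtain ⟨c, hc⟩ := exists_level (φ g) hg
  have := fin_quot F R c
  have : Module.Free F (R ⧸ W F R c) := Module.Free.of_divisionRing F _
  let b := Module.finBasis F (R ⧸ W F R c)
  let e := LinearMap.toMatrixAlgEquiv b
  let ρ : H →* GL (Fin (Module.finrank F (R ⧸ W F R c))) F :=
    (Units.map (e : Module.End F (R ⧸ W F R c) →* _)).comp
      (((act F R c).comp (φ.comp H.subtype)).toHomUnits)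
  refine ⟨F, inferInstance, _, ρ, fun n hn h1 => hc n hn ?_⟩
  rw [← map_pow] at h1
  have h2 : e (act F R c (φ (((⟨g, hgH⟩ : H) ^ n : H) : G))) = 1 := congrArg Units.val h1
  have h3 : act F R c (φ (((⟨g, hgH⟩ : H) ^ n : H) : G)) = 1 := by
    apply e.injective
    rw [h2, map_one]
  rw [← map_pow, ← map_pow]
  exact h3

end Pool.Agent.H284.LG18
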