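import Pool.Agent.H465.OC.StmC

/-!
# Project OC, task C10: trace of Frobenius of the canonical lift from complex multiplication
-/

set_option autoImplicit false

noncomputable section

open UpperHalfPlane hiding I
open ModularForm MatrixGroups EisensteinSeries
open Pool.Agent.Q279.SC Pool.Agent.Q237.SX Pool.Agent.H465.OC

namespace Pool.Agent.H284.OCTraceC

open Polynomial (aeval)

lemma mf_move {F : Type} [FunLike F ℍ ℂ] {k : ℤ} [SlashInvariantFormClass F 𝒮ℒ k] (f : F)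
    (a b c d : ℤ) (hdet : a * d - b * c = 1) (z w : ℍ)
    (hw : (w : ℂ) * (c * z + d) = a * z + b) :
    f w = ((c : ℂ) * z + d) ^ k * f z ∧ (c : ℂ) * z + d ≠ 0 := by
  obtain ⟨γ, hγ⟩ : ∃ γ : SL(2, ℤ), (γ : Matrix (Fin 2) (Fin 2) ℤ) = !![a, b; c, d] :=
    ⟨⟨!![a, b; c, d], by rw [Matrix.det_fin_two_of]; exact hdet⟩, rfl⟩
  have h1 := SlashInvariantForm.slash_action_eqn'' (Γ := 𝒮ℒ) f
    (γ := Matrix.SpecialLinearGroup.mapGL ℝ γ) ⟨γ, rfl⟩ z
  have hden : denom γ z = (c : ℂ) * z + d := by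
    rw [ModularGroup.denom_apply, hγ]
    rfl
  have hne : (c : ℂ) * z + d ≠ 0 := by
    rw [← hden]
    exact denom_ne_zero _ _
  have hw' : γ • z = w := by
    ext
    rw [coe_specialLinearGroup_apply, hγ]
    simp only [algebraMap_int_eq, eq_intCast, Matrix.of_apply, Matrix.cons_val', Matrix.cons_val_zero,
      Matrix.cons_val_one, Matrix.cons_val_fin_one, Complex.ofReal_intCast]
    rw [div_eq_iff hne, hw]
  refine ⟨?_, hne⟩
  rw [← hden, ← hw']
  exact h1

lemma zp4 (D : ℂ) : D ^ (4 : ℤ) = D ^ 4 := by norm_cast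

lemma zp6 (D : ℂ) : D ^ (6 : ℤ) = D ^ 6 := by norm_cast

/-- a polynomial of degree two with three zeros -/
lemma quad3 {u v w x y z : ℂ} (hxy : x ≠ y) (hxz : x ≠ z) (hyz : y ≠ z)
    (hx : u + x * v + x ^ 2 * w = 0) (hy : u + y * v + y ^ 2 * w = 0)
    (hz : u + z * v + z ^ 2 * w = 0) : u = 0 ∧ v = 0 ∧ w = 0 := by
  have h1 : v + (x + y) * w = 0 := by
    have : (x - y) * (v + (x + y) * w) = 0 := by linear_combination hx - hy
    exact (mul_eq_zero.1 this).resolve_left (sub_ne_zero.2 hxy)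
  have h2 : v + (x + z) * w = 0 := by
    have : (x - z) * (v + (x + z) * w) = 0 := by linear_combination hx - hz
    exact (mul_eq_zero.1 this).resolve_left (sub_ne_zero.2 hxz)
  have h3 : w = 0 := by
    have : (y - z) * w = 0 := by linear_combination h1 - h2
    exact (mul_eq_zero.1 this).resolve_left (sub_ne_zero.2 hyz)
  have h4 : v = 0 := by rw [h3, mul_zero, add_zero] at h1; exact h1
  refine ⟨?_, h4, h3⟩
  rw [h3, h4, mul_zero, mul_zero, add_zero, add_zero] at hx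
  exact hx

/-- the trace of a nonreal number -/
lemma trace_lt {p : ℕ} (hp : 0 < p) {t : ℤ} {μ : ℂ} (him : μ.im ≠ 0)
    (h : (p : ℂ) * μ ^ 2 - t * μ + 1 = 0) : t ^ 2 < 4 * p := by
  have hre := congrArg Complex.re h
  have hi := congrArg Complex.im h
  have e1 : μ ^ 2 = μ * μ := sq μ
  rw [e1] at hre hi
  simp only [Complex.add_re, Complex.sub_re, Complex.mul_re, Complex.natCast_re, Complex.natCast_im,
    Complex.intCast_re, Complex.intCast_im, Complex.one_re, Complex.zero_re, zero_mul,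
    sub_zero] at hre
  simp only [Complex.add_im, Complex.sub_im, Complex.mul_im, Complex.mul_re, Complex.natCast_re,
    Complex.natCast_im, Complex.intCast_re, Complex.intCast_im, Complex.one_im, Complex.zero_im,
    zero_mul, add_zero] at hi
  have h1 : (t : ℝ) = 2 * p * μ.re := by
    have : μ.im * ((t : ℝ) - 2 * p * μ.re) = 0 := by linear_combination -hi
    have h2 := (mul_eq_zero.1 this).resolve_left him
    linarith
  have h2 : (p : ℝ) * (μ.re ^ 2 + μ.im ^ 2) = 1 := by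
    rw [h1] at hre
    nlinarith
  have hp' : (0 : ℝ) < p := by exact_mod_cast hp
  have h3 : (t : ℝ) ^ 2 < 4 * p := by
    have h4 : 0 < μ.im ^ 2 := by positivity
    rw [h1]
    have h5 : (p : ℝ) * μ.re ^ 2 < 1 := by nlinarith [mul_pos hp' h4]
    nlinarith
  exact_mod_cast h3

/-- the final identity -/
lemma final_id {p : ℕ} {t : ℤ} {μ : ℂ} (h : (p : ℂ) * μ ^ 2 - t * μ + 1 = 0) :
    (μ ^ 4) ^ 2 + (p : ℂ) ^ 2 * (μ ^ 6) ^ 2 = ((t : ℂ) ^ 2 - 2 * p) * (μ ^ 4 * μ ^ 6) := by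
  linear_combination (μ ^ 8 * (p * μ ^ 2 + t * μ + 1)) * h

/-- the imaginary part of `c τ + d` -/
lemma im_ne {τ τ' : ℍ} {a b c d : ℤ} (hdet : a * d - b * c = 1)
    (h : (τ' : ℂ) * (c * τ + d) = a * τ + b) (hne : τ'.im ≠ τ.im) :
    ((c : ℂ) * τ + d).im ≠ 0 := by
  have e1 : ((c : ℂ) * τ + d).im = c * τ.im := by
    simp only [Complex.add_im, Complex.mul_im, Complex.intCast_re, Complex.intCast_im, zero_mul,
      add_zero]
    rfl
  rw [e1]
  intro h0
  have hc : c = 0 := by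
    rcases mul_eq_zero.1 h0 with h1 | h1
    · exact_mod_cast h1
    · exact absurd h1 τ.im_pos.ne'
  rw [hc, mul_zero, sub_zero] at hdet
  rw [hc] at h
  have h2 := congrArg Complex.im h
  simp only [Int.cast_zero, zero_mul, zero_add, Complex.add_im, Complex.mul_im, Complex.intCast_re,
    Complex.intCast_im, mul_zero, add_zero] at h2
  have h3 : τ'.im * d = a * τ.im := by
    simpa using h2
  have h4 : d ^ 2 = 1 := by
    have h5 : IsUnit d := IsUnit.of_mul_eq_one a (by rw [mul_comm]; exact hdet)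
    rcases Int.isUnit_iff.1 h5 with h6 | h6 <;> rw [h6] <;> norm_num
  have h5 : (d : ℝ) ^ 2 = 1 := by exact_mod_cast h4
  have h6 : (a : ℝ) * d = 1 := by exact_mod_cast hdet
  apply hne
  calc τ'.im = τ'.im * (d : ℝ) ^ 2 := by rw [h5, mul_one]
    _ = (τ'.im * d) * d := by ring
    _ = (a * τ.im) * d := by rw [h3]
    _ = (a * d) * τ.im := by ring
    _ = τ.im := by rw [h6, one_mul]

variable {p : ℕ} [hp : Fact p.Prime]

/-- the case of the point `p τ` -/
lemma caseI (hJ : JInj) {τ : ℍ} {u v w : ℂ} (ha : E₄ τ ≠ 0) (hb : E₆ τ ≠ 0)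
    (hu : u * ModularForm.discriminant τ = ModularForm.discriminant (mulP p τ))
    (hv : v * E₄ τ = E₄ (mulP p τ)) (hw : w * E₆ τ = E₆ (mulP p τ)) (huv : v ^ 3 = u) :
    ∃ (t : ℤ) (μ : ℂ), μ.im ≠ 0 ∧ v = μ ^ 4 ∧ w = μ ^ 6 ∧ (p : ℂ) * μ ^ 2 - t * μ + 1 = 0 := by
  obtain ⟨a, b, c, d, hdet, h⟩ := hJ τ (mulP p τ) (by
    rw [← hu, ← hv, ← huv]
    ring)
  obtain ⟨h4, -⟩ := mf_move (k := 4) E₄ a b c d hdet τ _ h
  obtain ⟨h6, -⟩ := mf_move (k := 6) E₆ a b c d hdet τ _ h
  rw [zp4] at h4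
  rw [zp6] at h6
  refine ⟨a + p * d, (c : ℂ) * τ + d, ?_, ?_, ?_, ?_⟩
  · refine im_ne hdet h ?_
    have e1 : (mulP p τ).im = p * τ.im := by
      show ((p : ℂ) * τ).im = _
      simp only [Complex.mul_im, Complex.natCast_re, Complex.natCast_im, zero_mul, add_zero]
      rfl
    rw [e1]
    have h1 : (1 : ℝ) < p := by exact_mod_cast hp.out.one_lt
    have h2 := τ.im_pos
    intro h3
    nlinarith
  · rw [h4] at hv
    exact mul_right_cancel₀ ha hv
  · rw [h6] at hw
    exact mul_right_cancel₀ hb hw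
  · rw [coe_mulP] at h
    have hd : (a : ℂ) * d - b * c = 1 := by exact_mod_cast hdet
    push_cast
    linear_combination (c : ℂ) * h - hd

/-- the case of the points `(τ + b) / p` -/
lemma caseB (hJ : JInj) {τ : ℍ} (β : ℕ) {u v w : ℂ} (ha : E₄ τ ≠ 0) (hb : E₆ τ ≠ 0)
    (hu : u * ModularForm.discriminant τ = ModularForm.discriminant (divP p β τ) / p ^ 12)
    (hv : v * E₄ τ = E₄ (divP p β τ) / p ^ 4) (hw : w * E₆ τ = E₆ (divP p β τ) / p ^ 6)
    (huv : v ^ 3 = u) :
    ∃ (t : ℤ) (μ : ℂ), μ.im ≠ 0 ∧ v = μ ^ 4 ∧ w = μ ^ 6 ∧ (p : ℂ) * μ ^ 2 - t * μ + 1 = 0 := by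
  have hp0 : (p : ℂ) ≠ 0 := by exact_mod_cast hp.out.ne_zero
  have hu' : ModularForm.discriminant (divP p β τ) = p ^ 12 * (u * ModularForm.discriminant τ) := by
    rw [hu]
    field_simp
  have hv' : E₄ (divP p β τ) = p ^ 4 * (v * E₄ τ) := by
    rw [hv]
    field_simp
  obtain ⟨a, b, c, d, hdet, h⟩ := hJ τ (divP p β τ) (by
    rw [hu', hv', ← huv]
    ring)
  obtain ⟨h4, -⟩ := mf_move (k := 4) E₄ a b c d hdet τ _ h
  obtain ⟨h6, -⟩ := mf_move (k := 6) E₆ a b c d hdet τ _ h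
  rw [zp4] at h4
  rw [zp6] at h6
  have him := im_ne hdet h (by
    have e1 : (divP p β τ).im = τ.im / p := by
      show (((τ : ℂ) + β) / p).im = _
      rw [Complex.div_natCast_im]
      simp only [Complex.add_im, Complex.natCast_im, add_zero]
      rfl
    rw [e1]
    have h1 : (1 : ℝ) < p := by exact_mod_cast hp.out.one_lt
    have h2 := τ.im_pos
    intro h3
    rw [div_eq_iff (by linarith)] at h3
    nlinarith)
  refine ⟨p * a - β * c + d, ((c : ℂ) * τ + d) / p, ?_, ?_, ?_, ?_⟩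
  · rw [Complex.div_natCast_im]
    have h1 : (p : ℝ) ≠ 0 := by exact_mod_cast hp.out.ne_zero
    exact div_ne_zero him h1
  · rw [h4] at hv
    apply mul_right_cancel₀ ha
    rw [hv, div_pow]
    ring
  · rw [h6] at hw
    apply mul_right_cancel₀ hb
    rw [hw, div_pow]
    ring
  · rw [coe_divP] at h
    have hd : (a : ℂ) * d - b * c = 1 := by exact_mod_cast hdet
    have h' : ((τ : ℂ) + β) * (c * τ + d) = p * (a * τ + b) := by
      rw [div_mul_eq_mul_div, div_eq_iff hp0] at h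
      rw [h]
      ring
    push_cast
    field_simp
    linear_combination (c : ℂ) * h' - p * hd

theorem main : HeckePoly → JSurj → JInj → Emb → TraceC := by
  intro hHP hJS hJI hE p _ c δ e4 e6 hc hc' h4 h6 _ H
  obtain ⟨σ⟩ := hE p
  set S : ℤ_[p] →+* ℂ := σ.comp (PadicInt.Coe.ringHom (p := p)) with hS
  have hSapp : ∀ x : ℤ_[p], S x = σ (x : ℚ_[p]) := fun x => rfl
  have hSinj : Function.Injective S := σ.injective.comp Subtype.coe_injective
  obtain ⟨τ, hτ⟩ := hJS (S c)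
  have hD : ModularForm.discriminant τ ≠ 0 := discriminant_ne_zero τ
  set D := ModularForm.discriminant τ with hDdef
  have h1728 : E₆ τ ^ 2 = (S c - 1728) * D := by
    have h1 := discriminant_eq_E₄_cube_sub_E₆_sq τ
    rw [← hDdef] at h1
    have h2 : 1728 * D = E₄ τ ^ 3 - E₆ τ ^ 2 := by
      rw [h1]
      ring
    linear_combination hτ + h2
  have hSc : S c ≠ 0 := by
    rw [Ne, map_eq_zero_iff S hSinj]
    exact hc
  have hSc' : S c - 1728 ≠ 0 := by
    have h1 : S (c - 1728) ≠ 0 := by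
      rw [Ne, map_eq_zero_iff S hSinj]
      exact sub_ne_zero.2 hc'
    rw [map_sub, map_ofNat] at h1
    exact h1
  have ha : E₄ τ ≠ 0 := by
    intro h0
    rw [h0] at hτ
    have : S c * D = 0 := by rw [← hτ]; ring
    exact mul_ne_zero hSc hD this
  have hb : E₆ τ ≠ 0 := by
    intro h0
    rw [h0] at h1728
    have : (S c - 1728) * D = 0 := by rw [← h1728]; ring
    exact mul_ne_zero hSc' hD this
  have hj : jC τ = S c := by
    unfold jC
    rw [hτ, ← hDdef, mul_div_cancel_right₀ _ hD]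
  -- the conjugates
  let dM : ℕ → ℂ := fun M => if M < p then ModularForm.discriminant (divP p M τ) / p ^ 12 else
    ModularForm.discriminant (mulP p τ)
  let xM : ℕ → ℂ := fun M => if M < p then E₄ (divP p M τ) / p ^ 4 else E₄ (mulP p τ)
  let yM : ℕ → ℂ := fun M => if M < p then E₆ (divP p M τ) / p ^ 6 else E₆ (mulP p τ)
  -- every value of `θ` is one of the conjugates
  have key : ∀ s : ℕ, ∃ M ∈ Finset.range (p + 1),
      (S δ + s * (S e4 * S c) + s ^ 2 * (S e6 * (S c - 1728))) * D =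
        dM M + s * (xM M * E₄ τ ^ 2) + s ^ 2 * (yM M * E₆ τ) := by
    intro s
    obtain ⟨g, hg1, hg2⟩ := hHP p 1 (s : ℤ) ((s : ℤ) ^ 2)
    have h1 := H 1 (s : ℤ) ((s : ℤ) ^ 2) g hg1
    have h2 := congrArg σ h1
    rw [map_sum, map_zero] at h2
    set Θ : ℤ_[p] := (((1 : ℤ) : ℤ_[p]) * δ + ((s : ℤ) : ℤ_[p]) * (e4 * c) +
      (((s : ℤ) ^ 2 : ℤ) : ℤ_[p]) * (e6 * (c - 1728))) with hΘ
    have hΘS : S Θ = S δ + s * (S e4 * S c) + s ^ 2 * (S e6 * (S c - 1728)) := by
      rw [hΘ]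
      simp only [map_add, map_mul, map_sub, map_intCast, map_ofNat]
      push_cast
      ring
    have h3 : ∀ k, σ ((-1 : ℚ_[p]) ^ k * aeval (c : ℚ_[p]) (g k) * (Θ : ℚ_[p]) ^ (p + 1 - k)) =
        (-1 : ℂ) ^ k * aeval (jC τ) (g k) * (S Θ) ^ (p + 1 - k) := by
      intro k
      rw [map_mul, map_mul, map_pow, map_pow, map_neg, map_one, hj]
      congr 2
      have h4 := Polynomial.aeval_algHom_apply (R := ℚ) (RingHom.toRatAlgHom σ) (c : ℚ_[p]) (g k)
      exact h4.symm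
    have h4 : ∑ k ∈ Finset.range (p + 2), (-1 : ℂ) ^ k * aeval (jC τ) (g k) *
        (S Θ) ^ (p + 1 - k) = 0 := by
      rw [← h2]
      exact Finset.sum_congr rfl fun k _ => (h3 k).symm
    rw [hg2 τ (S Θ)] at h4
    rcases mul_eq_zero.1 h4 with h5 | h5
    · refine ⟨p, Finset.mem_range.2 (Nat.lt_succ_self p), ?_⟩
      have h6 : S Θ = thI p 1 (s : ℤ) ((s : ℤ) ^ 2) τ := sub_eq_zero.1 h5
      rw [← hΘS, h6]
      unfold thI
      rw [← hDdef, div_mul_cancel₀ _ hD]
      simp only [dM, xM, yM, lt_irrefl, if_false]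
      push_cast
      ring
    · obtain ⟨b, hb', h5⟩ := Finset.prod_eq_zero_iff.1 h5
      have hbp := Finset.mem_range.1 hb'
      refine ⟨b, Finset.mem_range.2 (by omega), ?_⟩
      have h6 : S Θ = thB p 1 (s : ℤ) ((s : ℤ) ^ 2) b τ := sub_eq_zero.1 h5
      rw [← hΘS, h6]
      unfold thB
      rw [← hDdef, div_mul_cancel₀ _ hD]
      simp only [dM, xM, yM, hbp, if_true]
      push_cast
      ring
  choose M hM hMeq using key
  obtain ⟨m, hm, hcard⟩ := Finset.exists_lt_card_fiber_of_mul_lt_card_of_maps_to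
    (s := Finset.range (2 * p + 3)) (t := Finset.range (p + 1)) (f := M) (n := 2)
    (fun s _ => hM s) (by rw [Finset.card_range, Finset.card_range]; omega)
  obtain ⟨x, hx, y, hy, z, hz, hxy, hxz, hyz⟩ := Finset.two_lt_card.1 hcard
  have hx' := hMeq x
  have hy' := hMeq y
  have hz' := hMeq z
  rw [(Finset.mem_filter.1 hx).2] at hx'
  rw [(Finset.mem_filter.1 hy).2] at hy'
  rw [(Finset.mem_filter.1 hz).2] at hz'
  obtain ⟨q1, q2, q3⟩ := quad3 (u := S δ * D - dM m)
    (v := S e4 * S c * D - xM m * E₄ τ ^ 2) (w := S e6 * (S c - 1728) * D - yM m * E₆ τ)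
    (x := (x : ℂ)) (y := (y : ℂ)) (z := (z : ℂ)) (by exact_mod_cast hxy) (by exact_mod_cast hxz)
    (by exact_mod_cast hyz) (by linear_combination hx') (by linear_combination hy')
    (by linear_combination hz')
  have hu : S δ * D = dM m := sub_eq_zero.1 q1
  have hv : S e4 * E₄ τ = xM m := by
    have h1 : E₄ τ ^ 2 * (S e4 * E₄ τ - xM m) = 0 := by
      linear_combination q2 + S e4 * hτ
    have h2 := (mul_eq_zero.1 h1).resolve_left (pow_ne_zero 2 ha)
    exact sub_eq_zero.1 h2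
  have hw : S e6 * E₆ τ = yM m := by
    have h1 : E₆ τ * (S e6 * E₆ τ - yM m) = 0 := by
      linear_combination q3 + S e6 * h1728
    have h2 := (mul_eq_zero.1 h1).resolve_left hb
    exact sub_eq_zero.1 h2
  have huv : S e4 ^ 3 = S δ := by rw [← map_pow, h4]
  obtain ⟨t, μ, him, hv4, hw6, heq⟩ : ∃ (t : ℤ) (μ : ℂ), μ.im ≠ 0 ∧ S e4 = μ ^ 4 ∧
      S e6 = μ ^ 6 ∧ (p : ℂ) * μ ^ 2 - t * μ + 1 = 0 := by
    by_cases hmp : m < p
    · simp only [dM, xM, yM, hmp, if_true] at hu hv hw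
      exact caseB hJI m ha hb hu hv hw huv
    · simp only [dM, xM, yM, hmp, if_false] at hu hv hw
      exact caseI hJI ha hb hu hv hw huv
  refine ⟨t, trace_lt (Fact.out : p.Prime).pos him heq, hSinj ?_⟩
  simp only [map_add, map_mul, map_pow, map_sub, map_natCast, map_intCast, map_ofNat]
  rw [hv4, hw6]
  exact final_id heq

end Pool.Agent.H284.OCTraceC
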