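import Pool.Agent.H691.Q2.Stm

/-!
# Max-min area triangulations (helper691), P1c: segments with close edges do not cross
-/

set_option autoImplicit false

namespace Pool.Agent.H284.Q2P1c

open Pool.Agent.W982.TA Pool.Agent.H691.Q2

theorem affine_neg {A B : ℤ} {i j : ℤ} (hi : i ≤ 0) (hj : 1 ≤ j) (h : A * (A + B) < 0) :
    (A + i * B) * (A + j * B) < 0 := by
  rcases mul_neg_iff.1 h with ⟨h1, h2⟩ | ⟨h1, h2⟩
  · have hB : B < 0 := by omega
    have e1 : 0 ≤ i * B := mul_nonneg_of_nonpos_of_nonpos hi hB.le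
    have e2 : j * B ≤ B := by nlinarith
    exact mul_neg_of_pos_of_neg (by omega) (by omega)
  · have hB : 0 < B := by omega
    have e1 : i * B ≤ 0 := mul_nonpos_of_nonpos_of_nonneg hi hB.le
    have e2 : B ≤ j * B := by nlinarith
    exact mul_neg_of_neg_of_pos (by omega) (by omega)

theorem half {w v w' v' : Pt} {i j i' j' : ℤ} (hi : i ≤ 0) (hj : 1 ≤ j) (hi' : i' ≤ 0)
    (hj' : 1 ≤ j') (h : dt w (w + v) w' * dt w (w + v) (w' + v') < 0) :
    dt (w.1 + i * v.1, w.2 + i * v.2) (w.1 + j * v.1, w.2 + j * v.2)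
      (w'.1 + i' * v'.1, w'.2 + i' * v'.2) *
    dt (w.1 + i * v.1, w.2 + i * v.2) (w.1 + j * v.1, w.2 + j * v.2)
      (w'.1 + j' * v'.1, w'.2 + j' * v'.2) < 0 := by
  have h1 : dt w (w + v) w' * (dt w (w + v) w' + (v.1 * v'.2 - v.2 * v'.1)) < 0 := by
    have : dt w (w + v) (w' + v') = dt w (w + v) w' + (v.1 * v'.2 - v.2 * v'.1) := by
      simp only [dt, Prod.fst_add, Prod.snd_add]
      ring
    rwa [this] at h
  have h2 := affine_neg hi' hj' h1
  have e : ∀ t : ℤ, dt (w.1 + i * v.1, w.2 + i * v.2) (w.1 + j * v.1, w.2 + j * v.2)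
      (w'.1 + t * v'.1, w'.2 + t * v'.2) =
      (j - i) * (dt w (w + v) w' + t * (v.1 * v'.2 - v.2 * v'.1)) := by
    intro t
    simp only [dt, Prod.fst_add, Prod.snd_add]
    ring
  rw [e, e]
  have h3 : 0 < (j - i) * (j - i) := mul_pos (by omega) (by omega)
  nlinarith

theorem p1c (h3 : TaskG3) : TaskP1c := by
  intro X Y N W T hpar hgood w v w' v' hn hn' hcross
  obtain ⟨i, j, α, β, hi, hj, hα, hβ, hA, hB, hT⟩ := hn
  obtain ⟨i', j', α', β', hi', hj', hα', hβ', hA', hB', hT'⟩ := hn'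
  have hc : PCross (w.1 + i * v.1, w.2 + i * v.2) (w.1 + j * v.1, w.2 + j * v.2)
      (w'.1 + i' * v'.1, w'.2 + i' * v'.2) (w'.1 + j' * v'.1, w'.2 + j' * v'.2) :=
    ⟨half hi hj hi' hj' hcross.1, half hi' hj' hi hj hcross.2⟩
  have hc' := pcross_sp hpar.N0 hpar.Y0 hA hB hA' hB' hα hβ hα' hβ' hc
  have hnd := h3 _ _ _ _ hc'
  by_cases heq : s(sp N (w.1 + i * v.1, w.2 + i * v.2) α, sp N (w.1 + j * v.1, w.2 + j * v.2) β) =
      s(sp N (w'.1 + i' * v'.1, w'.2 + i' * v'.2) α', sp N (w'.1 + j' * v'.1, w'.2 + j' * v'.2) β')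
  · have hzero : ∀ p q : Pt, dt p q p = 0 := by
      intro p q
      simp only [dt]
      ring
    rcases Sym2.eq_iff.1 heq with ⟨h1, h2⟩ | ⟨h1, h2⟩
    · have := hc'.1
      rw [← h1, hzero, zero_mul] at this
      exact lt_irrefl _ this
    · have := hc'.1
      rw [← h1, hzero, mul_zero] at this
      exact lt_irrefl _ this
  · exact hnd (hgood.tri.noncross _ _ _ _ hT hT' heq)

end Pool.Agent.H284.Q2P1c
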