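import Mathlib
import Pool.Agent.H576.RD.Stm

set_option autoImplicit false

/-! # RD D4a (subtask by helper284) -/

namespace Pool.Agent.H284

namespace RDD4a

open Pool.Agent.H576.RD

lemma e2_apply_zero : (e2 : E) 0 = 0 := by
  simp [e2]

lemma e2_apply_one : (e2 : E) 1 = 0 := by
  simp [e2]

lemma e2_apply_two : (e2 : E) 2 = 1 := by
  simp [e2]

lemma norm_e2 : ‖(e2 : E)‖ = 1 := by
  simp [e2]

lemma eq_smul_of_not_off {v : E} (h : ¬ Off v) : v = v 2 • e2 := by
  unfold Off at h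
  push Not at h
  ext i
  rw [PiLp.smul_apply, smul_eq_mul]
  fin_cases i
  · show v 0 = v 2 * e2 0
    rw [h.1, e2_apply_zero, mul_zero]
  · show v 1 = v 2 * e2 1
    rw [h.2, e2_apply_one, mul_zero]
  · show v 2 = v 2 * e2 2
    rw [e2_apply_two, mul_one]

lemma not_off_smul (c : ℝ) : ¬ Off (c • (e2 : E)) := by
  unfold Off
  rw [PiLp.smul_apply, PiLp.smul_apply, e2_apply_zero, e2_apply_one, smul_zero]
  rintro (h | h) <;> exact h rfl

/-- steps are parallel to the axis -/
lemma key {r : ℝ} {X : Set E} {L d : ℝ} (h : D4H r X L d) (hlt : L < d) {x : E}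
    {φ : LI} (hφ : Eqv X 0 x 9 φ) {y : E} (hy : y ∈ X) (hyx : ‖y - x‖ ≤ L) :
    ∃ c : ℝ, y - x = c • φ e2 := by
  obtain ⟨v, hv⟩ : ∃ v : E, v = φ.symm (y - x) := ⟨_, rfl⟩
  have hv' : φ v = y - x := by
    rw [hv, LinearIsometryEquiv.apply_symm_apply]
  have hn : ‖v‖ = ‖y - x‖ := by
    rw [hv, LinearIsometryEquiv.norm_map]
  have hL := h.L2
  have hvX : v ∈ X := by
    have h1 := (hφ v (by rw [hn]; linarith)).2 (by rw [hv', add_sub_cancel]; exact hy)
    rw [zero_add] at h1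
    exact h1
  have hoff : ¬ Off v := by
    intro ho
    have := h.dle v hvX (by rw [hn]; linarith) ho
    rw [hn] at this
    linarith
  refine ⟨v 2, ?_⟩
  rw [← hv', ← map_smul]
  exact congrArg φ (eq_smul_of_not_off hoff)

end RDD4a

open RDD4a Pool.Agent.H576.RD in
theorem rd_d4a : Pool.Agent.H576.RD.S_D4a := by
  intro r X L d h
  by_contra hlt
  push Not at hlt
  have main : ∀ y, Relation.ReflTransGen (fun p q => q ∈ X ∧ ‖q - p‖ ≤ L) 0 y →
      y ∈ X ∧ (∃ c : ℝ, y = c • e2) ∧ ∃ φ : LI, Eqv X 0 y 9 φ ∧ (φ e2 = e2 ∨ φ e2 = -e2) := by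
    intro y hy
    induction hy with
    | refl =>
      exact ⟨h.zero, ⟨0, (zero_smul ℝ _).symm⟩, 1, Eqv.refl X 0 9, Or.inl rfl⟩
    | tail hab hbc ih =>
      rename_i x y
      obtain ⟨hx, ⟨c, hc⟩, φ, hφ, hax⟩ := ih
      obtain ⟨hy, hyx⟩ := hbc
      by_cases hxy : y = x
      · subst hxy
        exact ⟨hx, ⟨c, hc⟩, φ, hφ, hax⟩
      · obtain ⟨t, ht⟩ := key h hlt hφ hy hyx
        have ht' : ∃ t' : ℝ, y - x = t' • e2 := by
          rcases hax with h1 | h1
          · exact ⟨t, by rw [ht, h1]⟩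
          · exact ⟨-t, by rw [ht, h1, smul_neg, neg_smul]⟩
        obtain ⟨t', ht'⟩ := ht'
        refine ⟨hy, ⟨c + t', ?_⟩, ?_⟩
        · rw [add_smul, ← hc, ← ht', add_sub_cancel]
        · obtain ⟨ψ, hψ⟩ := h.nn 0 h.zero y hy
          obtain ⟨u, hu⟩ := key h hlt hψ hx (by rw [norm_sub_rev]; exact hyx)
          refine ⟨ψ, hψ, ?_⟩
          have hne : x - y ≠ 0 := sub_ne_zero.2 (Ne.symm hxy)
          have hu0 : u ≠ 0 := by
            rintro rfl
            rw [zero_smul] at hu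
            exact hne hu
          have h2 : ψ e2 = (-(t') / u) • e2 := by
            have h3 : u • ψ e2 = (-t') • e2 := by
              rw [← hu, neg_smul, ← ht', neg_sub]
            have h4 : ψ e2 = u⁻¹ • (u • ψ e2) := by
              rw [smul_smul, inv_mul_cancel₀ hu0, one_smul]
            rw [h4, h3, smul_smul, div_eq_inv_mul]
          have h5 : ‖ψ e2‖ = 1 := by
            rw [LinearIsometryEquiv.norm_map, norm_e2]
          rw [h2, norm_smul, norm_e2, mul_one, Real.norm_eq_abs] at h5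
          rcases (abs_eq zero_le_one).1 h5 with h6 | h6
          · left
            rw [h2, h6, one_smul]
          · right
            rw [h2, h6, neg_smul, one_smul]
  obtain ⟨v, hv, -, hoff⟩ := h.datt
  obtain ⟨-, ⟨c, hc⟩, -⟩ := main v (h.conn 0 h.zero v hv)
  rw [hc] at hoff
  exact not_off_smul c hoff

end Pool.Agent.H284
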