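import Pool.Agent.H558.TW.Stm

set_option autoImplicit false

/-!
# Joint parity: residue classes (helper284, for helper558)
-/

namespace Pool.Agent.H284.TWCL

open PowerSeries Finset Pool.Agent.R836.PP Pool.Agent.H558.KK Pool.Agent.H558.PP
open Pool.Agent.H558.TW
open Pool.Agent.K7.H72.MT hiding W few dis DD dis_stable dis_vary DD_stable DD_sum DD_block few_bad
  dis_le DD_le base count

/-- comparison of the two counts -/
theorem N2_cP {b b' β h ρ t t₀ x i : ℕ} (hb : b' ≤ b) (hβ : β = ρ % 2 ^ b') (hβh : β + h < 2 ^ b)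
    (ht : t % 2 ^ b = t₀) (hx : 2 ^ (b + i) ≤ x) (w0 w1 : ℕ → ZMod 2) :
    N2 (2 ^ i) (node P2 b β t₀ 1) (node P2 b (β + h) t₀ 1) (fun a => w0 (β + 2 ^ b * a))
      (fun a => w1 (β + 2 ^ b * a)) (t / 2 ^ b) ≤ cP (2 ^ b') ρ h w0 w1 t x := by
  unfold N2 cP
  have hP : 0 < 2 ^ b := by positivity
  refine card_le_card_of_injOn (fun a => β + 2 ^ b * a) ?_ ?_
  · intro a ha
    obtain ⟨h1, h2, h3⟩ := mem_filter.1 (mem_coe.1 ha)
    rw [mem_range] at h1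
    have e1 : coeff (β + 2 ^ b * a) (P2 ^ t) = coeff a (node P2 b β t₀ 1 * P2 ^ (t / 2 ^ b)) := by
      have := coeff_node P2 b β t a 1 (by omega)
      rw [one_mul] at this
      rw [this, ← ht, node_mod]
    have e2 : coeff (β + 2 ^ b * a + h) (P2 ^ t) =
        coeff a (node P2 b (β + h) t₀ 1 * P2 ^ (t / 2 ^ b)) := by
      have := coeff_node P2 b (β + h) t a 1 hβh
      rw [one_mul] at this
      rw [show β + 2 ^ b * a + h = β + h + 2 ^ b * a by ring, this, ← ht, node_mod]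
    rw [mem_coe, mem_filter, mem_range]
    refine ⟨?_, ?_, ?_, ?_⟩
    · have h4 : 2 ^ b * (a + 1) ≤ 2 ^ b * 2 ^ i := Nat.mul_le_mul_left _ h1
      rw [← pow_add] at h4
      have h5 : 2 ^ b * (a + 1) = 2 ^ b * a + 2 ^ b := by ring
      show β + 2 ^ b * a < x + 1
      omega
    · show (β + 2 ^ b * a) % 2 ^ b' = ρ % 2 ^ b'
      obtain ⟨c, hc⟩ : 2 ^ b' ∣ 2 ^ b := pow_dvd_pow 2 hb
      rw [hc, mul_assoc, Nat.add_mul_mod_self_left, hβ, Nat.mod_mod]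
    · show coeff (β + 2 ^ b * a) (P2 ^ t) ≠ w0 (β + 2 ^ b * a)
      rw [e1]
      exact h2
    · show coeff (β + 2 ^ b * a + h) (P2 ^ t) ≠ w1 (β + 2 ^ b * a)
      rw [e2]
      exact h3
  · intro a1 _ a2 _ h
    simp only [Nat.add_left_cancel_iff] at h
    exact Nat.eq_of_mul_eq_mul_left hP h

open scoped Classical in
/-- one residue class modulo `2 ^ b` -/
theorem cls {b b' β h ρ t₀ : ℕ} (hb : b' ≤ b) (hβ : β = ρ % 2 ^ b') (hβh : β + h < 2 ^ b)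
    (w0 w1 : ℕ → ZMod 2)
    {ε δ : ℝ} (hδ : 0 < δ) (K x i : ℕ) (hx2 : 2 ^ (b + i) ≤ x) (hx3 : x < 2 ^ (b + i + 1))
    (hxK : x < 2 ^ K)
    (h6 : (#{t ∈ range (2 ^ (K - b)) | (N2 (2 ^ i) (node P2 b β t₀ 1) (node P2 b (β + h) t₀ 1)
        (fun a => w0 (β + 2 ^ b * a)) (fun a => w1 (β + 2 ^ b * a)) t : ℝ) < δ * 2 ^ i} : ℝ) ≤
        ε * 2 ^ (K - b)) :
    (#{t ∈ range (2 ^ K) | t % 2 ^ b = t₀ ∧
      (cP (2 ^ b') ρ h w0 w1 t x : ℝ) < δ / 2 ^ (b + 1) * x} : ℝ) ≤ ε * 2 ^ (K - b) := by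
  have hbK : b + i < K := by
    have : 2 ^ (b + i) < 2 ^ K := by omega
    exact (Nat.pow_lt_pow_iff_right (by norm_num)).1 this
  have hP : 0 < 2 ^ b := by positivity
  have hx3r : (x : ℝ) ≤ 2 ^ (b + 1) * 2 ^ i := by
    rw [← pow_add, show b + 1 + i = b + i + 1 by ring]
    exact_mod_cast hx3.le
  refine le_trans ?_ h6
  have hcard : #{t ∈ range (2 ^ K) | t % 2 ^ b = t₀ ∧
      (cP (2 ^ b') ρ h w0 w1 t x : ℝ) < δ / 2 ^ (b + 1) * x} ≤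
      #{t ∈ range (2 ^ (K - b)) | (N2 (2 ^ i) (node P2 b β t₀ 1) (node P2 b (β + h) t₀ 1)
        (fun a => w0 (β + 2 ^ b * a)) (fun a => w1 (β + 2 ^ b * a)) t : ℝ) < δ * 2 ^ i} := by
    refine card_le_card_of_injOn (fun t => t / 2 ^ b) ?_ ?_
    · intro t ht
      obtain ⟨htK, ht0, h3⟩ := mem_filter.1 ht
      rw [mem_range] at htK
      have hKb : 2 ^ K = 2 ^ b * 2 ^ (K - b) := by
        rw [← pow_add]
        congr 1
        omega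
      rw [mem_coe, mem_filter, mem_range]
      refine ⟨Nat.div_lt_of_lt_mul (by rw [← hKb]; exact htK), ?_⟩
      have h4 := N2_cP (i := i) hb hβ hβh ht0 hx2 w0 w1
      have h5 : (N2 (2 ^ i) (node P2 b β t₀ 1) (node P2 b (β + h) t₀ 1)
          (fun a => w0 (β + 2 ^ b * a)) (fun a => w1 (β + 2 ^ b * a)) (t / 2 ^ b) : ℝ) ≤
          cP (2 ^ b') ρ h w0 w1 t x := by
        exact_mod_cast h4
      calc _ ≤ (cP (2 ^ b') ρ h w0 w1 t x : ℝ) := h5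
        _ < δ / 2 ^ (b + 1) * x := h3
        _ ≤ δ / 2 ^ (b + 1) * (2 ^ (b + 1) * 2 ^ i) := by gcongr
        _ = δ * 2 ^ i := by
            field_simp
    · intro t1 h1 t2 h2 h
      have h1' := (mem_filter.1 (mem_coe.1 h1)).2.1
      have h2' := (mem_filter.1 (mem_coe.1 h2)).2.1
      simp only at h
      rw [← Nat.mod_add_div t1 (2 ^ b), ← Nat.mod_add_div t2 (2 ^ b), h, h1', h2']
  exact_mod_cast hcard

/-- **CL** -/
theorem cl (hsc : S_SC) (hne : S_NE) (hA : S_A) : S_CL := by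
  classical
  intro b' h hh ε hε
  obtain ⟨δ, hδ, hSC⟩ := hsc ε hε
  set b : ℕ := b' + h + 1 with hb
  have hP : 0 < 2 ^ b := by positivity
  have h2b : 2 ∣ 2 ^ b := dvd_pow_self 2 (by omega)
  have hbb : b' ≤ b := by omega
  have hb1 : 1 ≤ b := by omega
  have hbig : 2 ^ b' + h < 2 ^ b := by
    have h1 : h + 1 < 2 ^ (h + 1) := Nat.lt_two_pow_self
    have h2 : 2 ^ b = 2 ^ b' * 2 ^ (h + 1) := by rw [hb, ← pow_add, add_assoc]
    have h3 : 1 ≤ 2 ^ b' := Nat.one_le_two_pow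
    rw [h2]
    nlinarith
  refine ⟨δ / 2 ^ (b + 1), by positivity, ?_⟩
  intro ρ
  set β : ℕ := ρ % 2 ^ b' with hβ
  have hβlt' : β < 2 ^ b' := Nat.mod_lt _ (by positivity)
  have hβh : β + h < 2 ^ b := by omega
  have hβlt : β < 2 ^ b := by omega
  have hex : ∀ t₀ : ℕ, ∃ i0 : ℕ, t₀ % 2 = 1 → t₀ < 2 ^ b → ∀ (w0 w1 : ℕ → ZMod 2) (K i : ℕ),
      i0 ≤ i → i ≤ K → (#{t ∈ range (2 ^ K) | (N2 (2 ^ i) (node P2 b β t₀ 1)
        (node P2 b (β + h) t₀ 1)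
        (fun a => w0 (β + 2 ^ b * a)) (fun a => w1 (β + 2 ^ b * a)) t : ℝ) < δ * 2 ^ i} : ℝ) ≤
        ε * 2 ^ K := by
    intro t₀
    by_cases h1 : t₀ % 2 = 1
    · by_cases h2 : t₀ < 2 ^ b
      · obtain ⟨m', hm'⟩ := hne b β h t₀ hh hβh h1 h2
        obtain ⟨i0, hi0⟩ := hSC (5 * 4 ^ b) (m' + 1)
        refine ⟨i0, fun _ _ w0 w1 K i h3 h4 => ?_⟩
        exact hi0 (node P2 b β t₀ 1) (node P2 b (β + h) t₀ 1) (fun a => w0 (β + 2 ^ b * a))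
          (fun a => w1 (β + 2 ^ b * a)) (hA b β t₀ hb1 hβlt h1) (hA b (β + h) t₀ hb1 hβh h1)
          ⟨m', Nat.lt_succ_self m', hm'⟩ K i h3 h4
      · exact ⟨0, fun _ h => absurd h h2⟩
    · exact ⟨0, fun h => absurd h h1⟩
  choose I hI using hex
  set i1 : ℕ := ∑ t₀ ∈ range (2 ^ b), I t₀ with hi1
  refine ⟨2 ^ (b + i1), ?_⟩
  intro w0 w1 x K hx0 hxK
  have hx1 : 1 ≤ x := le_trans Nat.one_le_two_pow hx0
  have hlog : b + i1 ≤ Nat.log 2 x := Nat.le_log_of_pow_le (by norm_num) hx0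
  obtain ⟨i, hi⟩ := Nat.exists_eq_add_of_le (show b ≤ Nat.log 2 x by omega)
  have hii : i1 ≤ i := by omega
  have hx2 : 2 ^ (b + i) ≤ x := by
    rw [← hi]
    exact Nat.pow_log_le_self 2 (by omega)
  have hx3 : x < 2 ^ (b + i + 1) := by
    rw [← hi]
    exact Nat.lt_pow_succ_log_self (by norm_num) _
  have hbK : b + i < K := by
    have : 2 ^ (b + i) < 2 ^ K := by omega
    exact (Nat.pow_lt_pow_iff_right (by norm_num)).1 this
  have hcl : ∀ t₀, t₀ % 2 = 1 → t₀ < 2 ^ b → (#{t ∈ range (2 ^ K) | t % 2 ^ b = t₀ ∧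
      (cP (2 ^ b') ρ h w0 w1 t x : ℝ) < δ / 2 ^ (b + 1) * x} : ℝ) ≤ ε * 2 ^ (K - b) := by
    intro t₀ h1 h2
    refine cls hbb hβ hβh w0 w1 hδ K x i hx2 hx3 hxK ?_
    have h3 : I t₀ ≤ i := by
      have h4 : I t₀ ≤ ∑ t₀ ∈ range (2 ^ b), I t₀ :=
        single_le_sum (f := I) (fun _ _ => Nat.zero_le _) (mem_range.2 h2)
      omega
    exact hI t₀ h1 h2 w0 w1 (K - b) i h3 (by omega)
  have hsub : {t ∈ range (2 ^ K) | t % 2 = 1 ∧
      (cP (2 ^ b') ρ h w0 w1 t x : ℝ) < δ / 2 ^ (b + 1) * x} ⊆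
      ({t₀ ∈ range (2 ^ b) | t₀ % 2 = 1}).biUnion fun t₀ => {t ∈ range (2 ^ K) | t % 2 ^ b = t₀ ∧
        (cP (2 ^ b') ρ h w0 w1 t x : ℝ) < δ / 2 ^ (b + 1) * x} := by
    intro t ht
    obtain ⟨h1, h2, h5⟩ := mem_filter.1 ht
    rw [mem_biUnion]
    refine ⟨t % 2 ^ b, ?_, ?_⟩
    · rw [mem_filter, mem_range]
      refine ⟨Nat.mod_lt _ hP, ?_⟩
      rw [Nat.mod_mod_of_dvd _ h2b]
      exact h2
    · rw [mem_filter]
      exact ⟨h1, rfl, h5⟩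
  have h1 := (card_le_card hsub).trans card_biUnion_le
  calc (#{t ∈ range (2 ^ K) | t % 2 = 1 ∧
      (cP (2 ^ b') ρ h w0 w1 t x : ℝ) < δ / 2 ^ (b + 1) * x} : ℝ) ≤
      ((∑ t₀ ∈ range (2 ^ b) with t₀ % 2 = 1, #{t ∈ range (2 ^ K) | t % 2 ^ b = t₀ ∧
        (cP (2 ^ b') ρ h w0 w1 t x : ℝ) < δ / 2 ^ (b + 1) * x} : ℕ) : ℝ) := by exact_mod_cast h1
    _ = ∑ t₀ ∈ range (2 ^ b) with t₀ % 2 = 1, (#{t ∈ range (2 ^ K) | t % 2 ^ b = t₀ ∧
        (cP (2 ^ b') ρ h w0 w1 t x : ℝ) < δ / 2 ^ (b + 1) * x} : ℝ) := by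
        push_cast
        rfl
    _ ≤ ∑ t₀ ∈ range (2 ^ b) with t₀ % 2 = 1, ε * 2 ^ (K - b) := by
        refine sum_le_sum fun t₀ ht => ?_
        rw [mem_filter, mem_range] at ht
        exact hcl t₀ ht.2 ht.1
    _ ≤ ∑ t₀ ∈ range (2 ^ b), ε * 2 ^ (K - b) := by
        refine sum_le_sum_of_subset_of_nonneg (filter_subset _ _) fun t₀ _ _ => ?_
        positivity
    _ = ε * 2 ^ K := by
        rw [sum_const, card_range, nsmul_eq_mul]
        push_cast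
        have h7 : (2 : ℝ) ^ K = 2 ^ b * 2 ^ (K - b) := by
          rw [← pow_add]
          congr 1
          omega
        rw [h7]
        ring

end Pool.Agent.H284.TWCL
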