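import Pool.Agent.H235.Ti.SpecL
import Pool.Graph.R_pool_sql_team_seeded_63374d34.N789.QD.KF

set_option autoImplicit false

namespace Pool.Agent.H284.TiL5

open MeasureTheory Set Filter Topology Complex
open Pool.Agent.N275.QD (Rf Kf Gf Gr Hh S_KF)
open Pool.Agent.H235.Ti
open Pool.Agent.N789.KF (integrable_exp_cosh Kf_neg part1_abs integrable_exp_abs part4)
open scoped Real ENNReal ComplexConjugate

/-! ### the cut-off function -/

section cut

variable {d : ℝ}

theorem Xi_smooth (d : ℝ) : ContDiff ℝ 2 (Xi d) := by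
  unfold Xi
  exact Real.smoothTransition.contDiff.comp (by fun_prop)

theorem X1_smooth (d : ℝ) : ContDiff ℝ 1 (X1 d) := by
  have h := Xi_smooth d
  have h2 : ContDiff ℝ (1 + 1) (Xi d) := by
    rw [one_add_one_eq_two]
    exact h
  exact ((contDiff_succ_iff_deriv).1 h2).2.2

theorem X1_cont (d : ℝ) : Continuous (X1 d) := (X1_smooth d).continuous

theorem X2_cont (d : ℝ) : Continuous (X2 d) := (X1_smooth d).continuous_deriv le_rfl

theorem Xi_deriv (d x : ℝ) : HasDerivAt (Xi d) (X1 d x) x :=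
  ((Xi_smooth d).differentiable (by norm_num) x).hasDerivAt

theorem X1_deriv (d x : ℝ) : HasDerivAt (X1 d) (X2 d x) x :=
  ((X1_smooth d).differentiable (by norm_num) x).hasDerivAt

theorem Xi_left (hd : 0 < d) {x : ℝ} (hx : x ≤ d / 3) : Xi d x = 0 := by
  unfold Xi
  apply Real.smoothTransition.zero_of_nonpos
  have : 3 * x / d ≤ 1 := by
    rw [div_le_one hd]
    linarith
  linarith

theorem Xi_right (hd : 0 < d) {x : ℝ} (hx : 2 * d / 3 ≤ x) : Xi d x = 1 := by
  unfold Xi
  apply Real.smoothTransition.one_of_one_le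
  have : 2 ≤ 3 * x / d := by
    rw [le_div_iff₀ hd]
    linarith
  linarith

theorem X1_zero (hd : 0 < d) {x : ℝ} (hx : x < d / 3 ∨ 2 * d / 3 < x) : X1 d x = 0 := by
  unfold X1
  rcases hx with hx | hx
  · have h : Xi d =ᶠ[𝓝 x] fun _ => (0 : ℝ) := by
      filter_upwards [Iio_mem_nhds hx] with y hy
      exact Xi_left hd (le_of_lt hy)
    rw [h.deriv_eq, deriv_const]
  · have h : Xi d =ᶠ[𝓝 x] fun _ => (1 : ℝ) := by
      filter_upwards [Ioi_mem_nhds hx] with y hy
      exact Xi_right hd (le_of_lt hy)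
    rw [h.deriv_eq, deriv_const]

theorem X2_zero (hd : 0 < d) {x : ℝ} (hx : x < d / 3 ∨ 2 * d / 3 < x) : X2 d x = 0 := by
  unfold X2
  have h : X1 d =ᶠ[𝓝 x] fun _ => (0 : ℝ) := by
    rcases hx with hx | hx
    · filter_upwards [Iio_mem_nhds hx] with y hy
      exact X1_zero hd (Or.inl hy)
    · filter_upwards [Ioi_mem_nhds hx] with y hy
      exact X1_zero hd (Or.inr hy)
  rw [h.deriv_eq, deriv_const]

theorem int_Ioi_eq (hd : 0 < d) (f : ℝ → ℝ) (h : ∀ x, x < d / 3 ∨ 2 * d / 3 < x → f x = 0) :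
    ∫ x in Ioi (0 : ℝ), f x = ∫ x in (0 : ℝ)..d, f x := by
  rw [intervalIntegral.integral_of_le hd.le]
  apply setIntegral_eq_of_subset_of_forall_sdiff_eq_zero measurableSet_Ioi Ioc_subset_Ioi_self
  intro x hx
  apply h
  right
  have h1 : ¬ (0 < x ∧ x ≤ d) := hx.2
  have h2 : 0 < x := hx.1
  have h3 : d < x := by
    by_contra h4
    exact h1 ⟨h2, not_lt.1 h4⟩
  linarith

theorem int_X (hd : 0 < d) (a b : ℝ) :
    ∫ x in Ioi (0 : ℝ), (a * X2 d x + b * X1 d x) = b := by
  rw [int_Ioi_eq hd _ (fun x hx => by rw [X1_zero hd hx, X2_zero hd hx]; ring)]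
  have h : ∀ x ∈ uIcc 0 d, HasDerivAt (fun x => a * X1 d x + b * Xi d x) (a * X2 d x + b * X1 d x) x :=
    fun x _ => ((X1_deriv d x).const_mul a).add ((Xi_deriv d x).const_mul b)
  rw [intervalIntegral.integral_eq_sub_of_hasDerivAt h]
  · rw [X1_zero (x := d) hd (Or.inr (by linarith)), X1_zero (x := 0) hd (Or.inl (by linarith)),
      Xi_left (x := 0) hd (by linarith), Xi_right (x := d) hd (by linarith)]
    ring
  · exact ((continuous_const.mul (X2_cont d)).add
      (continuous_const.mul (X1_cont d))).intervalIntegrable _ _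

theorem bd_X (_ : 0 < d) (f : ℝ → ℝ) (hf : Continuous f)
    (h : ∀ x, x < d / 3 ∨ 2 * d / 3 < x → f x = 0) : ∃ M : ℝ, 0 ≤ M ∧ ∀ x, |f x| ≤ M := by
  obtain ⟨M, hM⟩ := isCompact_Icc.exists_bound_of_continuousOn (s := Icc (d / 3) (2 * d / 3))
    hf.continuousOn
  refine ⟨max M 0, le_max_right _ _, fun x => ?_⟩
  by_cases hx : x ∈ Icc (d / 3) (2 * d / 3)
  · exact (hM x hx).trans (le_max_left _ _)
  · have : x < d / 3 ∨ 2 * d / 3 < x := by
      by_contra h2
      push Not at h2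
      exact hx ⟨h2.1, h2.2⟩
    rw [h x this, abs_zero]
    exact le_max_right _ _

end cut

/-! ### the radial part of the modes -/

/-- the factor depending on `x` -/
noncomputable def Pf (d κ s x : ℝ) : ℝ :=
  (X2 d x + 2 * κ * Real.cosh s * X1 d x) * Real.exp (-(κ * (d - x) * Real.cosh s))

theorem ms_eq (d κ s : ℝ) (z : ℂ) : ms d κ s z = Pf d κ s z.re * Real.sin (κ * z.im * Real.sinh s) := rfl

theorem mc_eq (d κ s : ℝ) (z : ℂ) : mc d κ s z = Pf d κ s z.re * Real.cos (κ * z.im * Real.sinh s) := rfl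

theorem Pf_cont (d κ : ℝ) : Continuous fun q : ℝ × ℝ => Pf d κ q.1 q.2 := by
  unfold Pf
  have h1 := X1_cont d
  have h2 := X2_cont d
  have h3 : Continuous Real.cosh := Real.continuous_cosh
  fun_prop

/-- the bound in `s` -/
theorem Pf_bd {d κ : ℝ} (hd : 0 < d) (hκ : 0 < κ) : ∃ c : ℝ → ℝ, Integrable c ∧ (∀ s, 0 ≤ c s) ∧
    ∀ s x, |Pf d κ s x| ≤ c s * (Icc (d / 3) (2 * d / 3)).indicator (fun _ => (1 : ℝ)) x := by
  obtain ⟨M1, hM1, h1⟩ := bd_X hd (X1 d) (X1_cont d) fun x hx => X1_zero hd hx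
  obtain ⟨M2, hM2, h2⟩ := bd_X hd (X2 d) (X2_cont d) fun x hx => X2_zero hd hx
  have hc0 : 0 < κ * (d / 3) := by positivity
  refine ⟨fun s => (M2 + 2 * κ * M1 * (2 / (κ * (d / 3)))) *
    Real.exp (-(κ * (d / 3) / 2 * Real.cosh s)), ?_, ?_, ?_⟩
  · exact (integrable_exp_cosh (c := κ * (d / 3) / 2) (by positivity)).const_mul _
  · intro s
    positivity
  · intro s x
    by_cases hx : x ∈ Icc (d / 3) (2 * d / 3)
    · rw [indicator_of_mem hx, mul_one]
      have hch : 0 < Real.cosh s := Real.cosh_pos s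
      obtain ⟨E, hE⟩ : ∃ E, E = Real.exp (-(κ * (d / 3) / 2 * Real.cosh s)) := ⟨_, rfl⟩
      have hE0 : 0 < E := by rw [hE]; exact Real.exp_pos _
      have e1 : Real.exp (-(κ * (d - x) * Real.cosh s)) ≤ E * E := by
        rw [hE, ← Real.exp_add]
        apply Real.exp_le_exp.2
        have h3 : d / 3 ≤ d - x := by have := hx.2; linarith
        have h4 : κ * (d / 3) * Real.cosh s ≤ κ * (d - x) * Real.cosh s := by gcongr
        linarith
      have e2 : Real.cosh s * E ≤ 2 / (κ * (d / 3)) := by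
        have h5 : κ * (d / 3) / 2 * Real.cosh s ≤ Real.exp (κ * (d / 3) / 2 * Real.cosh s) :=
          (by linarith [Real.add_one_le_exp (κ * (d / 3) / 2 * Real.cosh s)])
        have h6 : Real.exp (κ * (d / 3) / 2 * Real.cosh s) * E = 1 := by
          rw [hE, ← Real.exp_add]
          simp
        have h7 : κ * (d / 3) / 2 * Real.cosh s * E ≤ 1 := by
          rw [← h6]
          gcongr
        rw [le_div_iff₀ hc0]
        nlinarith
      have e3 : E ≤ 1 := by
        rw [hE]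
        apply Real.exp_le_one_iff.2
        have : 0 ≤ κ * (d / 3) / 2 * Real.cosh s := by positivity
        linarith
      have e4 : |X2 d x + 2 * κ * Real.cosh s * X1 d x| ≤ M2 + 2 * κ * Real.cosh s * M1 := by
        refine (abs_add_le _ _).trans ?_
        rw [abs_mul (2 * κ * Real.cosh s), abs_of_nonneg (by positivity : 0 ≤ 2 * κ * Real.cosh s)]
        have := h1 x
        have := h2 x
        gcongr
      unfold Pf
      beta_reduce
      rw [abs_mul, abs_of_pos (Real.exp_pos _), ← hE]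
      calc |X2 d x + 2 * κ * Real.cosh s * X1 d x| * Real.exp (-(κ * (d - x) * Real.cosh s))
          ≤ (M2 + 2 * κ * Real.cosh s * M1) * (E * E) := by gcongr
        _ = (M2 * E + 2 * κ * M1 * (Real.cosh s * E)) * E := by ring
        _ ≤ (M2 * 1 + 2 * κ * M1 * (2 / (κ * (d / 3)))) * E := by gcongr
        _ = _ := by ring
    · have hx' : x < d / 3 ∨ 2 * d / 3 < x := by
        by_contra h2
        push Not at h2
        exact hx ⟨h2.1, h2.2⟩
      rw [indicator_of_notMem hx]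
      unfold Pf
      rw [X1_zero hd hx', X2_zero hd hx']
      simp

/-! ### the angular functions -/

/-- `K sinh` -/
noncomputable def gS (μ κ : ℝ) (z : ℂ) : ℝ := Kf μ (κ * ‖z‖) * Real.sinh (arg z * μ)

/-- `K cosh` -/
noncomputable def gC (μ κ : ℝ) (z : ℂ) : ℝ := Kf μ (κ * ‖z‖) * Real.cosh (arg z * μ)

theorem Kf_contOn (μ : ℝ) {κ : ℝ} (hκ : 0 < κ) :
    ContinuousOn (fun z : ℂ => Kf μ (κ * ‖z‖)) {z | 0 < z.re} := by
  refine part4.comp (f := fun z : ℂ => (μ, κ * ‖z‖)) (by fun_prop) ?_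
  intro z hz
  have : 0 < ‖z‖ := by
    rw [norm_pos_iff]
    rintro rfl
    simp at hz
  exact ⟨mem_univ _, mul_pos hκ this⟩

theorem arg_contOn : ContinuousOn arg {z : ℂ | 0 < z.re} := fun _ hz =>
  (continuousAt_arg (Or.inl hz)).continuousWithinAt

theorem gS_contOn (μ : ℝ) {κ : ℝ} (hκ : 0 < κ) : ContinuousOn (gS μ κ) {z | 0 < z.re} :=
  (Kf_contOn μ hκ).mul (Real.continuous_sinh.comp_continuousOn (arg_contOn.mul continuousOn_const))

theorem gC_contOn (μ : ℝ) {κ : ℝ} (hκ : 0 < κ) : ContinuousOn (gC μ κ) {z | 0 < z.re} :=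
  (Kf_contOn μ hκ).mul (Real.continuous_cosh.comp_continuousOn (arg_contOn.mul continuousOn_const))

theorem gC_bd (μ : ℝ) {κ d : ℝ} (hκ : 0 < κ) (hd : 0 < d) : ∃ B : ℝ, 0 ≤ B ∧
    ∀ z : ℂ, d / 3 ≤ z.re → |gC μ κ z| ≤ B * Real.exp (-(κ * |z.im|)) := by
  refine ⟨√(π / (2 * (κ * (d / 3)))) * Real.cosh (π * μ), by positivity, fun z hz => ?_⟩
  have hz0 : d / 3 ≤ ‖z‖ := hz.trans (re_le_norm z)
  have hz1 : 0 < ‖z‖ := by linarith
  have h1 := part1_abs (μ := μ) (x := κ * ‖z‖) (β := 0) (by positivity) le_rfl (by positivity)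
  simp only [zero_mul, neg_zero, Real.exp_zero, one_mul, Real.cos_zero, mul_one] at h1
  have h2 : |Kf μ (κ * ‖z‖)| ≤ Real.exp (-(κ * |z.im|)) * √(π / (2 * (κ * (d / 3)))) := by
    refine h1.trans ?_
    have h3 : Real.exp (-(κ * ‖z‖)) ≤ Real.exp (-(κ * |z.im|)) := by
      apply Real.exp_le_exp.2
      have := abs_im_le_norm z
      have : κ * |z.im| ≤ κ * ‖z‖ := by gcongr
      linarith
    have h4 : √(π / (2 * (κ * ‖z‖))) ≤ √(π / (2 * (κ * (d / 3)))) := by
      apply Real.sqrt_le_sqrt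
      gcongr
    gcongr
  have h5 : |Real.cosh (arg z * μ)| ≤ Real.cosh (π * μ) := by
    rw [abs_of_pos (Real.cosh_pos _), Real.cosh_le_cosh, abs_mul, abs_mul, abs_of_pos Real.pi_pos]
    have := abs_arg_le_pi z
    gcongr
  unfold gC
  rw [abs_mul]
  calc |Kf μ (κ * ‖z‖)| * |Real.cosh (arg z * μ)| ≤
      (Real.exp (-(κ * |z.im|)) * √(π / (2 * (κ * (d / 3))))) * Real.cosh (π * μ) := by gcongr
    _ = _ := by ring

theorem gS_bd (μ : ℝ) {κ d : ℝ} (hκ : 0 < κ) (hd : 0 < d) : ∃ B : ℝ, 0 ≤ B ∧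
    ∀ z : ℂ, d / 3 ≤ z.re → |gS μ κ z| ≤ B * Real.exp (-(κ * |z.im|)) := by
  obtain ⟨B, hB, h⟩ := gC_bd μ hκ hd
  refine ⟨B, hB, fun z hz => le_trans ?_ (h z hz)⟩
  unfold gS gC
  rw [abs_mul, abs_mul]
  have : |Real.sinh (arg z * μ)| ≤ |Real.cosh (arg z * μ)| := by
    rw [← sq_le_sq, Real.cosh_sq]
    linarith
  gcongr

/-! ### integration over the complex plane -/

theorem int_prod (f : ℂ → ℝ) (S : Set ℝ) (hS : MeasurableSet S)
    (hf : IntegrableOn f {z : ℂ | 0 < z.re ∧ z.im ∈ S}) :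
    ∫ z in {z : ℂ | 0 < z.re ∧ z.im ∈ S}, f z =
      ∫ x in Ioi (0 : ℝ), ∫ y in S, f ((x : ℂ) + (y : ℂ) * I) := by
  have hmp := Complex.volume_preserving_equiv_real_prod.symm
  have hpre : (measurableEquivRealProd.symm) ⁻¹' {z : ℂ | 0 < z.re ∧ z.im ∈ S} =
      Ioi (0 : ℝ) ×ˢ S := by
    ext p
    simp [measurableEquivRealProd_symm_apply]
  have h1 := hmp.setIntegral_preimage_emb measurableEquivRealProd.symm.measurableEmbedding f
    {z : ℂ | 0 < z.re ∧ z.im ∈ S}
  rw [hpre] at h1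
  rw [← h1]
  have hf2 : IntegrableOn (fun p : ℝ × ℝ => f (measurableEquivRealProd.symm p))
      (Ioi (0 : ℝ) ×ˢ S) := by
    have := (hmp.integrableOn_comp_preimage measurableEquivRealProd.symm.measurableEmbedding
      (f := f) (s := {z : ℂ | 0 < z.re ∧ z.im ∈ S})).2 hf
    rw [hpre] at this
    exact this
  rw [Measure.volume_eq_prod, setIntegral_prod _ hf2]
  refine setIntegral_congr_fun measurableSet_Ioi fun x _ => ?_
  refine setIntegral_congr_fun hS fun y _ => ?_
  simp only [measurableEquivRealProd_symm_apply]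
  congr 1
  apply Complex.ext <;> simp

theorem int_bd {κ d B : ℝ} (hκ : 0 < κ) :
    Integrable fun z : ℂ => B * Real.exp (-(κ * |z.im|)) *
      (Icc (d / 3) (2 * d / 3)).indicator (fun _ => (1 : ℝ)) z.re := by
  have hmp := Complex.volume_preserving_equiv_real_prod
  have h1 : Integrable (fun p : ℝ × ℝ => (Icc (d / 3) (2 * d / 3)).indicator (fun _ => (1 : ℝ)) p.1 *
      (B * Real.exp (-(κ * |p.2|)))) (volume.prod volume) := by
    refine Integrable.mul_prod (f := (Icc (d / 3) (2 * d / 3)).indicator (fun _ => (1 : ℝ)))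
      (g := fun y => B * Real.exp (-(κ * |y|))) ?_ ?_
    · rw [integrable_indicator_iff measurableSet_Icc]
      exact (continuousOn_const).integrableOn_Icc
    · exact (integrable_exp_abs hκ).const_mul B
  have h2 := (hmp.integrable_comp_emb measurableEquivRealProd.measurableEmbedding).2 h1
  refine h2.congr (Eventually.of_forall fun z => ?_)
  simp only [Function.comp_apply, measurableEquivRealProd_apply]
  ring

theorem meas_half : MeasurableSet {z : ℂ | 0 < z.re} :=
  measurableSet_lt measurable_const measurable_re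

theorem meas_S {S : Set ℝ} (hS : MeasurableSet S) : MeasurableSet {z : ℂ | 0 < z.re ∧ z.im ∈ S} :=
  meas_half.inter (measurable_im hS)

/-- integrability for one mode -/
theorem mode_int {κ d : ℝ} (hκ : 0 < κ) (hd : 0 < d) (g : ℂ → ℝ)
    (hg : ContinuousOn g {z | 0 < z.re}) (B : ℝ)
    (hB : ∀ z : ℂ, d / 3 ≤ z.re → |g z| ≤ B * Real.exp (-(κ * |z.im|))) (T : ℝ → ℝ)
    (hT : Continuous T) (hT1 : ∀ x, |T x| ≤ 1) (s : ℝ) :
    IntegrableOn (fun z => g z * (Pf d κ s z.re * T (κ * z.im * Real.sinh s))) {z : ℂ | 0 < z.re} := by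
  obtain ⟨c, -, hc0, hc⟩ := Pf_bd hd hκ
  have hcont : Continuous fun z : ℂ => Pf d κ s z.re * T (κ * z.im * Real.sinh s) := by
    have h1 : Continuous fun z : ℂ => Pf d κ s z.re :=
      (Pf_cont d κ).comp (f := fun z : ℂ => (s, z.re)) (by fun_prop)
    have h2 : Continuous fun z : ℂ => κ * z.im * Real.sinh s := by fun_prop
    exact h1.mul (hT.comp h2)
  refine Integrable.mono' (((int_bd (d := d) (B := B) hκ).const_mul (c s)).integrableOn)
    ((hg.mul hcont.continuousOn).aestronglyMeasurable meas_half) ?_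
  refine Eventually.of_forall fun z => ?_
  rw [Real.norm_eq_abs, abs_mul, abs_mul]
  by_cases hz : z.re ∈ Icc (d / 3) (2 * d / 3)
  · have h1 := hc s z.re
    rw [indicator_of_mem hz, mul_one] at h1
    rw [indicator_of_mem hz, mul_one]
    have h2 := hB z hz.1
    have h3 := hT1 (κ * z.im * Real.sinh s)
    have h4 : |Pf d κ s z.re| * |T (κ * z.im * Real.sinh s)| ≤ c s * 1 := by
      gcongr
      exact hc0 s
    calc |g z| * (|Pf d κ s z.re| * |T (κ * z.im * Real.sinh s)|) ≤
        (B * Real.exp (-(κ * |z.im|))) * (c s * 1) := by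
          gcongr
          exact (abs_nonneg _).trans h2
      _ = _ := by ring
  · have h1 := hc s z.re
    rw [indicator_of_notMem hz, mul_zero] at h1
    have h2 : |Pf d κ s z.re| = 0 := le_antisymm h1 (abs_nonneg _)
    rw [indicator_of_notMem hz, h2]
    simp

/-- the pairing with one mode -/
theorem pairing {κ d : ℝ} (hκ : 0 < κ) (hd : 0 < d) (g : ℂ → ℝ)
    (hg : ContinuousOn g {z | 0 < z.re}) (B : ℝ)
    (hB : ∀ z : ℂ, d / 3 ≤ z.re → |g z| ≤ B * Real.exp (-(κ * |z.im|))) (T : ℝ → ℝ)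
    (hT : Continuous T) (hT1 : ∀ x, |T x| ≤ 1) (s : ℝ) (S : Set ℝ) (hS : MeasurableSet S) (W : ℝ)
    (hW : ∀ x : ℝ, 0 < x → ∫ y in S, g ((x : ℂ) + (y : ℂ) * I) * T (κ * y * Real.sinh s) =
      W * Real.exp (-(κ * x * Real.cosh s))) :
    ∫ z in {z : ℂ | 0 < z.re ∧ z.im ∈ S}, g z * (Pf d κ s z.re * T (κ * z.im * Real.sinh s)) =
      2 * W * (κ * Real.cosh s) * Real.exp (-(κ * d * Real.cosh s)) := by
  rw [int_prod _ S hS ((mode_int hκ hd g hg B hB T hT hT1 s).mono_set fun z hz => hz.1)]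
  have h1 : ∀ x : ℝ, 0 < x → ∫ y in S, g ((x : ℂ) + (y : ℂ) * I) *
      (Pf d κ s ((x : ℂ) + (y : ℂ) * I).re * T (κ * ((x : ℂ) + (y : ℂ) * I).im * Real.sinh s)) =
      Real.exp (-(κ * d * Real.cosh s)) * W * X2 d x +
        Real.exp (-(κ * d * Real.cosh s)) * W * (2 * κ * Real.cosh s) * X1 d x := by
    intro x hx
    have h2 : ∀ y : ℝ, g ((x : ℂ) + (y : ℂ) * I) *
        (Pf d κ s ((x : ℂ) + (y : ℂ) * I).re * T (κ * ((x : ℂ) + (y : ℂ) * I).im * Real.sinh s)) =
        Pf d κ s x * (g ((x : ℂ) + (y : ℂ) * I) * T (κ * y * Real.sinh s)) := by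
      intro y
      have e1 : ((x : ℂ) + (y : ℂ) * I).re = x := by simp
      have e2 : ((x : ℂ) + (y : ℂ) * I).im = y := by simp
      rw [e1, e2]
      ring
    simp_rw [h2]
    rw [integral_const_mul, hW x hx]
    unfold Pf
    have h3 : Real.exp (-(κ * (d - x) * Real.cosh s)) * Real.exp (-(κ * x * Real.cosh s)) =
        Real.exp (-(κ * d * Real.cosh s)) := by
      rw [← Real.exp_add]
      congr 1
      ring
    rw [← h3]
    ring
  rw [setIntegral_congr_fun measurableSet_Ioi h1, int_X hd]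
  ring

/-! ### symmetry -/

theorem arg_refl {x : ℝ} (hx : 0 < x) (y : ℝ) :
    arg ((x : ℂ) + ((-y : ℝ) : ℂ) * I) = -arg ((x : ℂ) + (y : ℂ) * I) ∧
      ‖(x : ℂ) + ((-y : ℝ) : ℂ) * I‖ = ‖(x : ℂ) + (y : ℂ) * I‖ := by
  have h1 : (x : ℂ) + ((-y : ℝ) : ℂ) * I = conj ((x : ℂ) + (y : ℂ) * I) := by
    simp
  have h2 : arg ((x : ℂ) + (y : ℂ) * I) ≠ π := by
    intro h
    rw [arg_eq_pi_iff] at h
    have := h.1
    simp at this
    linarith
  rw [h1]
  refine ⟨?_, norm_conj _⟩
  rw [arg_conj, if_neg h2]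

theorem gS_odd (μ κ : ℝ) {x : ℝ} (hx : 0 < x) (y : ℝ) :
    gS μ κ ((x : ℂ) + ((-y : ℝ) : ℂ) * I) = -gS μ κ ((x : ℂ) + (y : ℂ) * I) := by
  unfold gS
  obtain ⟨h1, h2⟩ := arg_refl hx y
  rw [h1, h2, neg_mul, Real.sinh_neg]
  ring

theorem gC_even (μ κ : ℝ) {x : ℝ} (hx : 0 < x) (y : ℝ) :
    gC μ κ ((x : ℂ) + ((-y : ℝ) : ℂ) * I) = gC μ κ ((x : ℂ) + (y : ℂ) * I) := by
  unfold gC
  obtain ⟨h1, h2⟩ := arg_refl hx y
  rw [h1, h2, neg_mul, Real.cosh_neg]

theorem even_int (f : ℝ → ℝ) (hf : ∀ y, f (-y) = f y) :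
    ∫ y, f y = 2 * ∫ y in Ioi (0 : ℝ), f y := by
  rw [← integral_comp_abs]
  congr 1
  funext y
  rcases abs_choice y with h | h
  · rw [h]
  · rw [h, hf]

theorem odd_int (f : ℝ → ℝ) (hf : ∀ y, f (-y) = -f y) : ∫ y, f y = 0 := by
  have h := integral_neg_eq_self f volume
  simp_rw [hf] at h
  rw [integral_neg] at h
  linarith

/-! ### the statement -/

theorem quad_S (hL4 : S_L4) (μ : ℝ) {κ d : ℝ} (hκ : 0 < κ) (hd : 0 < d) {s : ℝ} (hs : 0 < s) :
    ∫ z in {z : ℂ | 0 < z.re ∧ 0 < z.im}, Kf μ (κ * ‖z‖) * Real.sinh (arg z * μ) * ms d κ s z =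
      π * Real.sin (μ * s) * Real.exp (-(κ * d * Real.cosh s)) := by
  obtain ⟨B, -, hB⟩ := gS_bd μ hκ hd
  have h := pairing hκ hd (gS μ κ) (gS_contOn μ hκ) B hB Real.sin Real.continuous_sin
    Real.abs_sin_le_one s (Ioi 0) measurableSet_Ioi
    (π / 2 * Real.sin (μ * s) / (κ * Real.cosh s)) (fun x hx => by
      rw [show ∫ y in Ioi (0 : ℝ), gS μ κ ((x : ℂ) + (y : ℂ) * I) * Real.sin (κ * y * Real.sinh s) = _
        from (hL4 μ κ x s hκ hx hs).2.2.1]
      ring)
  have hch := Real.cosh_pos s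
  have e : 2 * (π / 2 * Real.sin (μ * s) / (κ * Real.cosh s)) * (κ * Real.cosh s) *
      Real.exp (-(κ * d * Real.cosh s)) =
      π * Real.sin (μ * s) * Real.exp (-(κ * d * Real.cosh s)) := by
    field_simp
  rw [← e]
  exact h

theorem l5 (hL4 : Pool.Agent.H235.Ti.S_L4) : Pool.Agent.H235.Ti.S_L5 := by
  intro μ κ d hκ hd
  refine ⟨fun ν => ?_, fun s hs => quad_S hL4 μ hκ hd hs, fun s hs => ?_⟩
  · -- the superposition
    obtain ⟨B, hB0, hB⟩ := gS_bd μ hκ hd
    obtain ⟨c, hci, hc0, hc⟩ := Pf_bd hd hκ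
    have hmQ : MeasurableSet {z : ℂ | 0 < z.re ∧ 0 < z.im} := meas_S (S := Ioi 0) measurableSet_Ioi
    have hint : Integrable (fun q : ℂ × ℝ => gS μ κ q.1 * (ms d κ q.2 q.1 * Real.sin (ν * q.2)))
        ((volume.restrict {z : ℂ | 0 < z.re ∧ 0 < z.im}).prod (volume.restrict (Ioi (0 : ℝ)))) := by
      have hb : Integrable (fun q : ℂ × ℝ => (B * Real.exp (-(κ * |q.1.im|)) *
          (Icc (d / 3) (2 * d / 3)).indicator (fun _ => (1 : ℝ)) q.1.re) * c q.2)
          ((volume.restrict {z : ℂ | 0 < z.re ∧ 0 < z.im}).prod (volume.restrict (Ioi (0 : ℝ)))) :=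
        Integrable.mul_prod (f := fun z : ℂ => B * Real.exp (-(κ * |z.im|)) *
          (Icc (d / 3) (2 * d / 3)).indicator (fun _ => (1 : ℝ)) z.re) (int_bd hκ).integrableOn
          hci.integrableOn
      refine Integrable.mono' hb ?_ ?_
      · have m1 : AEStronglyMeasurable (gS μ κ) (volume.restrict {z : ℂ | 0 < z.re ∧ 0 < z.im}) :=
          ((gS_contOn μ hκ).mono fun z hz => hz.1).aestronglyMeasurable hmQ
        have m2 : Continuous fun q : ℂ × ℝ => ms d κ q.2 q.1 * Real.sin (ν * q.2) := by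
          have h1 : Continuous fun q : ℂ × ℝ => Pf d κ q.2 q.1.re :=
            (Pf_cont d κ).comp (f := fun q : ℂ × ℝ => (q.2, q.1.re)) (by fun_prop)
          have h3 : Continuous Real.sinh := Real.continuous_sinh
          simp_rw [ms_eq]
          fun_prop
        exact m1.comp_fst.mul m2.aestronglyMeasurable
      · refine Eventually.of_forall fun q => ?_
        rw [Real.norm_eq_abs, abs_mul, abs_mul, ms_eq, abs_mul]
        by_cases hz : q.1.re ∈ Icc (d / 3) (2 * d / 3)
        · have h1 := hc q.2 q.1.re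
          rw [indicator_of_mem hz, mul_one] at h1
          rw [indicator_of_mem hz, mul_one]
          have h2 := hB q.1 hz.1
          have h3 := Real.abs_sin_le_one (κ * q.1.im * Real.sinh q.2)
          have h5 := Real.abs_sin_le_one (ν * q.2)
          have h4 : |Pf d κ q.2 q.1.re| * |Real.sin (κ * q.1.im * Real.sinh q.2)| *
              |Real.sin (ν * q.2)| ≤ c q.2 * 1 * 1 := by
            have := hc0 q.2
            gcongr
          calc |gS μ κ q.1| * (|Pf d κ q.2 q.1.re| * |Real.sin (κ * q.1.im * Real.sinh q.2)| *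
              |Real.sin (ν * q.2)|) ≤ (B * Real.exp (-(κ * |q.1.im|))) * (c q.2 * 1 * 1) := by
                gcongr
            _ = _ := by ring
        · have h1 := hc q.2 q.1.re
          rw [indicator_of_notMem hz, mul_zero] at h1
          have h2 : |Pf d κ q.2 q.1.re| = 0 := le_antisymm h1 (abs_nonneg _)
          rw [indicator_of_notMem hz, h2]
          simp
    have e1 : ∫ z in {z : ℂ | 0 < z.re ∧ 0 < z.im}, Kf μ (κ * ‖z‖) * Real.sinh (arg z * μ) *
        cn d κ ν z = ∫ z in {z : ℂ | 0 < z.re ∧ 0 < z.im}, ∫ s in Ioi (0 : ℝ),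
        gS μ κ z * (ms d κ s z * Real.sin (ν * s)) := by
      congr 1
      funext z
      rw [integral_const_mul]
      rfl
    rw [e1, integral_integral_swap hint, ← integral_const_mul]
    refine setIntegral_congr_fun measurableSet_Ioi fun s hs => ?_
    have h6 := quad_S hL4 μ hκ hd hs
    have h7 : ∫ z in {z : ℂ | 0 < z.re ∧ 0 < z.im}, gS μ κ z * (ms d κ s z * Real.sin (ν * s)) =
        (∫ z in {z : ℂ | 0 < z.re ∧ 0 < z.im}, Kf μ (κ * ‖z‖) * Real.sinh (arg z * μ) * ms d κ s z) *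
          Real.sin (ν * s) := by
      rw [← integral_mul_const]
      congr 1
      funext z
      unfold gS
      ring
    rw [h7, h6]
    ring
  · obtain ⟨B, -, hB⟩ := gS_bd μ hκ hd
    obtain ⟨B', -, hB'⟩ := gC_bd μ hκ hd
    have hch := Real.cosh_pos s
    have hset : {z : ℂ | 0 < z.re} = {z : ℂ | 0 < z.re ∧ z.im ∈ (univ : Set ℝ)} := by
      ext z
      simp
    rw [hset]
    refine ⟨?_, ?_, ?_, ?_⟩
    · have h := pairing hκ hd (gS μ κ) (gS_contOn μ hκ) B hB Real.sin Real.continuous_sin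
        Real.abs_sin_le_one s univ MeasurableSet.univ
        (2 * (π / 2 * Real.sin (μ * s) / (κ * Real.cosh s))) (fun x hx => by
          rw [Measure.restrict_univ, even_int _ (fun y => by
              rw [gS_odd μ κ hx]
              have : κ * -y * Real.sinh s = -(κ * y * Real.sinh s) := by ring
              rw [this, Real.sin_neg]
              ring),
            show ∫ y in Ioi (0 : ℝ), gS μ κ ((x : ℂ) + (y : ℂ) * I) *
              Real.sin (κ * y * Real.sinh s) = _ from (hL4 μ κ x s hκ hx hs).2.2.1]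
          ring)
      have e : 2 * (2 * (π / 2 * Real.sin (μ * s) / (κ * Real.cosh s))) * (κ * Real.cosh s) *
          Real.exp (-(κ * d * Real.cosh s)) =
          2 * π * Real.sin (μ * s) * Real.exp (-(κ * d * Real.cosh s)) := by
        field_simp
      rw [← e]
      exact h
    · have h := pairing hκ hd (gC μ κ) (gC_contOn μ hκ) B' hB' Real.cos Real.continuous_cos
        Real.abs_cos_le_one s univ MeasurableSet.univ
        (2 * (π / 2 * Real.cos (μ * s) / (κ * Real.cosh s))) (fun x hx => by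
          rw [Measure.restrict_univ, even_int _ (fun y => by
              rw [gC_even μ κ hx]
              have : κ * -y * Real.sinh s = -(κ * y * Real.sinh s) := by ring
              rw [this, Real.cos_neg]),
            show ∫ y in Ioi (0 : ℝ), gC μ κ ((x : ℂ) + (y : ℂ) * I) *
              Real.cos (κ * y * Real.sinh s) = _ from (hL4 μ κ x s hκ hx hs).2.2.2]
          ring)
      have e : 2 * (2 * (π / 2 * Real.cos (μ * s) / (κ * Real.cosh s))) * (κ * Real.cosh s) *
          Real.exp (-(κ * d * Real.cosh s)) =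
          2 * π * Real.cos (μ * s) * Real.exp (-(κ * d * Real.cosh s)) := by
        field_simp
      rw [← e]
      exact h
    · have h := pairing hκ hd (gS μ κ) (gS_contOn μ hκ) B hB Real.cos Real.continuous_cos
        Real.abs_cos_le_one s univ MeasurableSet.univ 0 (fun x hx => by
          rw [Measure.restrict_univ, odd_int _ (fun y => by
              rw [gS_odd μ κ hx]
              have : κ * -y * Real.sinh s = -(κ * y * Real.sinh s) := by ring
              rw [this, Real.cos_neg]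
              ring)]
          ring)
      rw [mul_zero, zero_mul, zero_mul] at h
      exact h
    · have h := pairing hκ hd (gC μ κ) (gC_contOn μ hκ) B' hB' Real.sin Real.continuous_sin
        Real.abs_sin_le_one s univ MeasurableSet.univ 0 (fun x hx => by
          rw [Measure.restrict_univ, odd_int _ (fun y => by
              rw [gC_even μ κ hx]
              have : κ * -y * Real.sinh s = -(κ * y * Real.sinh s) := by ring
              rw [this, Real.sin_neg]
              ring)]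
          ring)
      rw [mul_zero, zero_mul, zero_mul] at h
      exact h

end Pool.Agent.H284.TiL5
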