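import Pool.Agent.H812.Tm.Spec1
import Pool.Graph.R_seed8.W308.Stu.Bdd
import Pool.Graph.R_seed8.W816.Stu.BddL

/-!
# Project TM of helper812: the stable set and escape (`SEsc`)
-/

set_option autoImplicit false

namespace Pool.Agent.H284.TmEsc

open Pool.Agent.H812.Tm Pool.Agent.W811.Stu Pool.Agent.W308.Stu

theorem orb_z (d : ℕ → ℕ) (p : P3) (m : ℕ) : (orb d p (m + 1)).z = (orb d p m).y := by
  show (stepT (d m) (orb d p m)).z = _
  rw [stepT_eq]

theorem orb_y (d : ℕ → ℕ) (p : P3) (m : ℕ) : (orb d p (m + 1)).y = tq (orb d p m) (d m) := by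
  show (stepT (d m) (orb d p m)).y = _
  rw [stepT_eq]

theorem orb_x (d : ℕ → ℕ) (p : P3) (m : ℕ) : (orb d p (m + 1)).x = tq (orb d p m) (d m + 1) := by
  show (stepT (d m) (orb d p m)).x = _
  rw [stepT_eq]

theorem orb_shift (d : ℕ → ℕ) (p : P3) (n m : ℕ) :
    orb (shd d n) (orb d p n) m = orb d p (n + m) := by
  induction m with
  | zero => rfl
  | succ m ih =>
    show stepT (shd d n m) (orb (shd d n) (orb d p n) m) = stepT (d (n + m)) (orb d p (n + m))
    rw [ih]
    rfl

/-- the step from a point with `|z| ≤ |x|`, `1 ≤ |y|` -/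
theorem up {p : P3} (h : |p.z| ≤ |p.x|) (hy : 1 ≤ |p.y|) {b : ℕ} (hb : 1 ≤ b) :
    |p.x| ≤ |tq p b| ∧ (2 * |p.y| - 1) * |tq p b| ≤ |tq p (b + 1)| := by
  have h0 : |tq p 0| ≤ |tq p (0 + 1)| := by
    rw [tq_zero, zero_add, tq_one]; exact h
  have h1 := grow' p hy 0 h0 b (by omega)
  rwa [zero_add, tq_one] at h1

theorem Op.step {p : P3} (h : Op p) {b : ℕ} (hb : 1 ≤ b) : Op (stepT b p) := by
  obtain ⟨h1, h2, h3⟩ := h
  obtain ⟨u1, u2⟩ := up h3.le h2.le hb
  rw [stepT_eq]
  have h4 : 1 < |tq p b| := by linarith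
  refine ⟨h2, h4, ?_⟩
  show |p.y| < |tq p (b + 1)|
  refine lt_of_lt_of_le ?_ u2
  nlinarith

theorem esc1 (d : ℕ → ℕ) (hd : ∀ k, 1 ≤ d k) (p : P3) {m : ℕ} (hm : Op (orb d p m)) (C : ℝ) :
    ∃ m, C < |(orb d p m).y| := by
  have hall : ∀ e, Op (orb d p (m + e)) := by
    intro e
    induction e with
    | zero => exact hm
    | succ e ih => exact Op.step ih (hd _)
  have h1 : ∀ e, 1 < |(orb d p (m + e)).y| := fun e => (hall e).2.1
  have h2 : ∀ e, |(orb d p (m + e)).y| * |(orb d p (m + (e + 1))).y| ≤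
      |(orb d p (m + (e + 2))).y| := by
    intro e
    have a1 := up (hall e).2.2.le (hall e).2.1.le (hd (m + e))
    have a2 := up (hall (e + 1)).2.2.le (hall (e + 1)).2.1.le (hd (m + (e + 1)))
    have a3 : (orb d p (m + (e + 2))).y = tq (orb d p (m + (e + 1))) (d (m + (e + 1))) :=
      orb_y d p (m + (e + 1))
    have a4 : (orb d p (m + (e + 1))).x = tq (orb d p (m + e)) (d (m + e) + 1) :=
      orb_x d p (m + e)
    have a5 : (orb d p (m + (e + 1))).y = tq (orb d p (m + e)) (d (m + e)) :=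
      orb_y d p (m + e)
    rw [a3]
    refine le_trans ?_ a2.1
    rw [a4]
    refine le_trans ?_ a1.2
    rw [a5]
    refine mul_le_mul_of_nonneg_right ?_ (abs_nonneg _)
    linarith [h1 e]
  set η := |(orb d p (m + 1)).y| with hη
  have hη1 : 1 < η := h1 1
  have h3 : ∀ e, η ≤ |(orb d p (m + (e + 1))).y| := by
    intro e
    induction e with
    | zero => exact le_rfl
    | succ e ih =>
      refine le_trans ih (le_trans ?_ (h2 e))
      exact le_mul_of_one_le_left (abs_nonneg _) (h1 e).le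
  have h4 : ∀ e, η ^ e ≤ |(orb d p (m + (e + 2))).y| := by
    intro e
    induction e with
    | zero => rw [pow_zero]; exact (h1 2).le
    | succ e ih =>
      refine le_trans ?_ (h2 (e + 1))
      rw [pow_succ']
      exact mul_le_mul (h3 e) ih (by positivity) (abs_nonneg _)
  obtain ⟨e, he⟩ := pow_unbounded_of_one_lt C hη1
  exact ⟨m + (e + 2), he.trans_le (h4 e)⟩

/-- bad points are in the open region -/
theorem op_of_bad {p : P3} (h : Bad p) : Op p := by
  obtain ⟨h1, h2, h3⟩ := h
  refine ⟨h1, h2, lt_of_lt_of_le ?_ h3⟩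
  nlinarith

/-- part (2): alive -/
theorem alive_of (d : ℕ → ℕ) (hd : ∀ k, 1 ≤ d k) (p : P3) (hno : ∀ m, ¬ Op (orb d p m)) (n : ℕ)
    (hn : |(orb d p n).z| ≤ 1) : Alive (shd d n) (orb d p n) := by
  intro m
  rw [orb_shift, orb_shift]
  by_contra hcon
  push Not at hcon
  have hex : ∃ m, 1 < |(orb d p (n + m)).y| ∧ 1 < |(orb d p (n + (m + 1))).y| := ⟨m, hcon⟩
  classical
  obtain ⟨h1, h2⟩ := Nat.find_spec hex
  set m0 := Nat.find hex with hm0
  have hz : |(orb d p (n + m0)).z| ≤ 1 := by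
    rcases Nat.eq_zero_or_pos m0 with h0 | h0
    · rw [h0]
      exact hn
    · have h3 := Nat.find_min hex (m := m0 - 1) (by omega)
      have e : n + (m0 - 1 + 1) = n + m0 := by omega
      rw [e] at h3
      have h4 := orb_z d p (n + (m0 - 1))
      have e' : n + (m0 - 1) + 1 = n + m0 := by omega
      rw [e'] at h4
      rw [h4]
      by_contra hcon
      push Not at hcon
      exact h3 ⟨hcon, h1⟩
  have hB : Bad (orb d p (n + m0 + 1)) := by
    show Bad (stepT (d (n + m0)) (orb d p (n + m0)))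
    apply enter hz h1 _ (hd _)
    rw [← orb_y]
    exact h2
  exact hno _ (op_of_bad hB)

/-- boundedness after an alive time -/
theorem bdd_of {δ : ℝ} (hδ : δ ≠ 0) (d : ℕ → ℕ) (hd : ∀ k, 1 ≤ d k) (p : P3) (hp : OnS δ p)
    (n : ℕ) (hn : |(orb d p n).z| ≤ 1) (ha : Alive (shd d n) (orb d p n)) :
    ∃ C : ℝ, ∀ m, |(orb d p m).z| ≤ C ∧ |(orb d p m).y| ≤ C ∧ |(orb d p m).x| ≤ C := by
  obtain ⟨C, hC1, hC⟩ := Pool.Agent.W816.Stu.bddL δ hδ
  have hsh : ∀ k, 1 ≤ shd d n k := fun k => hd _
  have h1 : ∀ j, |(orb d p (n + j)).z| ≤ C ∧ |(orb d p (n + j)).y| ≤ C ∧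
      |(orb d p (n + j)).x| ≤ C := by
    intro j
    rw [← orb_shift]
    rcases ha (j + 1) with h | h
    · exact (hC _ hsh _ (hp.orb d n) hn (j + 1) h j (by omega)).2
    · exact (hC _ hsh _ (hp.orb d n) hn (j + 1 + 1) h j (by omega)).2
  have h2 : ∀ n : ℕ, ∃ C0 : ℝ, ∀ m < n, |(orb d p m).z| ≤ C0 ∧ |(orb d p m).y| ≤ C0 ∧
      |(orb d p m).x| ≤ C0 := by
    intro n
    induction n with
    | zero => exact ⟨0, fun m hm => absurd hm (Nat.not_lt_zero m)⟩
    | succ n ih =>
      obtain ⟨C0, hC0⟩ := ih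
      refine ⟨max C0 (|(orb d p n).z| + |(orb d p n).y| + |(orb d p n).x|), fun m hm => ?_⟩
      rcases Nat.lt_succ_iff_lt_or_eq.1 hm with h | h
      · obtain ⟨a, b, c⟩ := hC0 m h
        exact ⟨le_max_of_le_left a, le_max_of_le_left b, le_max_of_le_left c⟩
      · subst h
        have := abs_nonneg (orb d p m).z
        have := abs_nonneg (orb d p m).y
        have := abs_nonneg (orb d p m).x
        exact ⟨le_max_of_le_right (by linarith), le_max_of_le_right (by linarith),
          le_max_of_le_right (by linarith)⟩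
  obtain ⟨C0, hC0⟩ := h2 n
  refine ⟨max C C0, fun m => ?_⟩
  rcases lt_or_ge m n with h | h
  · obtain ⟨a, b, c⟩ := hC0 m h
    exact ⟨le_max_of_le_right a, le_max_of_le_right b, le_max_of_le_right c⟩
  · obtain ⟨j, rfl⟩ := Nat.exists_eq_add_of_le h
    obtain ⟨a, b, c⟩ := h1 j
    exact ⟨le_max_of_le_left a, le_max_of_le_left b, le_max_of_le_left c⟩

/-- property P with `|x| > 1` leads to `Op` -/
theorem opP {d : ℕ → ℕ} (hd : ∀ k, 1 ≤ d k) {p : P3} (hy : ∀ n, 1 ≤ |(orb d p n).y|) {n : ℕ}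
    (hP : |(orb d p n).z| ≤ |(orb d p n).x|) (hx : 1 < |(orb d p n).x|) :
    Op (orb d p (n + 2)) := by
  have a1 := up hP (hy n) (hd n)
  rw [← orb_y, ← orb_x] at a1
  have b1 := hy n
  have b2 : 1 < |(orb d p (n + 1)).y| := by linarith [a1.1]
  have hz1 : |(orb d p (n + 1)).z| = |(orb d p n).y| := by rw [orb_z]
  have b3 : |(orb d p (n + 1)).y| ≤ |(orb d p (n + 1)).x| := by
    refine le_trans ?_ a1.2
    exact le_mul_of_one_le_left (abs_nonneg _) (by linarith)
  have b4 : |(orb d p (n + 1)).z| ≤ |(orb d p (n + 1)).x| := by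
    rw [hz1]
    refine le_trans ?_ a1.2
    nlinarith
  have a2 := up b4 (hy (n + 1)) (hd (n + 1))
  rw [← orb_y, ← orb_x] at a2
  have b5 : 1 < |(orb d p (n + 1 + 1)).y| := by linarith [a2.1]
  have hz2 : (orb d p (n + 1 + 1)).z = (orb d p (n + 1)).y := orb_z d p (n + 1)
  refine ⟨?_, b5, ?_⟩
  · show 1 < |(orb d p (n + 1 + 1)).z|
    rw [hz2]; exact b2
  · show |(orb d p (n + 1 + 1)).z| < |(orb d p (n + 1 + 1)).x|
    rw [hz2]
    refine lt_of_lt_of_le ?_ a2.2
    nlinarith

theorem noP {δ : ℝ} (hδ : δ ≠ 0) {d : ℕ → ℕ} (hd : ∀ k, 1 ≤ d k) {p : P3} (hp : OnS δ p)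
    (hno : ∀ m, ¬ Op (orb d p m)) (hz : ∀ n, 1 ≤ |(orb d p n).z|)
    (hy : ∀ n, 1 ≤ |(orb d p n).y|) (n : ℕ) : |(orb d p n).x| < |(orb d p n).z| := by
  by_contra hcon
  push Not at hcon
  rcases lt_or_ge 1 |(orb d p n).x| with hx | hx
  · exact hno _ (opP hd hy hcon hx)
  have hz1 : |(orb d p n).z| = 1 := le_antisymm (hcon.trans hx) (hz n)
  have hx1 : |(orb d p n).x| = 1 := le_antisymm hx ((hz n).trans hcon)
  have a1 := up hcon (hy n) (hd n)
  have a1' := a1
  rw [← orb_y, ← orb_x] at a1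
  have b1 := hy n
  have b2 := hy (n + 1)
  have b4 : |(orb d p (n + 1)).z| ≤ |(orb d p (n + 1)).x| := by
    rw [orb_z]
    refine le_trans ?_ a1.2
    nlinarith
  rcases lt_or_eq_of_le b1 with hy1 | hy1
  · refine hno _ (opP hd hy b4 ?_)
    refine lt_of_lt_of_le ?_ a1.2
    nlinarith
  · have hs := hp.orb d n
    unfold OnS at hs
    set q := orb d p n with hq
    have z2 : q.z ^ 2 = 1 := by rw [← sq_abs, hz1, one_pow]
    have y2 : q.y ^ 2 = 1 := by rw [← sq_abs, ← hy1, one_pow]
    have x2 : q.x ^ 2 = 1 := by rw [← sq_abs, hx1, one_pow]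
    have w2 : (q.x * q.y * q.z) ^ 2 = 1 := by
      rw [mul_pow, mul_pow, x2, y2, z2]; norm_num
    have w1 : q.x * q.y * q.z = -1 := by
      have h2 : (q.x * q.y * q.z - 1) * (q.x * q.y * q.z + 1) = 0 := by nlinarith
      rcases mul_eq_zero.1 h2 with h3 | h3
      · exfalso
        have h4 : δ ^ 2 = 0 := by nlinarith
        exact hδ (pow_eq_zero_iff (two_ne_zero) |>.1 h4)
      · linarith
    have xy : q.x * q.y = -q.z := by
      calc q.x * q.y = q.x * q.y * q.z ^ 2 := by rw [z2, mul_one]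
        _ = (q.x * q.y * q.z) * q.z := by ring
        _ = -q.z := by rw [w1]; ring
    have t2 : |tq q 2| = 3 := by
      have h3 : tq q 2 = -3 * q.z := by
        have := tq_rec q 0
        rw [zero_add, zero_add, tq_zero, tq_one] at this
        rw [this]
        have e : 2 * q.y * q.x = 2 * (q.x * q.y) := by ring
        rw [e, xy]
        ring
      rw [h3, abs_mul, hz1]
      norm_num
    have t1 : |tq q 1| = 1 := by rw [tq_one]; exact hx1
    have g := (grow' q b1 1 (by rw [t1, t2]; norm_num) (d n + 1) (by have := hd n; omega)).1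
    rw [t2] at g
    refine hno _ (opP hd hy b4 ?_)
    rw [orb_x]
    linarith

/-- part (ii), one stage -/
theorem stage {d : ℕ → ℕ} (hd : ∀ k, 1 ≤ d k) {p : P3}
    (hy : ∀ n, 1 ≤ |(orb d p n).y|) (hx : ∀ n, |(orb d p n).x| < |(orb d p n).z|) (n : ℕ) :
    |(orb d p (n + 1)).y| ≤ |(orb d p n).x| ∧
      0 < (orb d p n).x * (orb d p n).y * (orb d p n).z := by
  have b1 := hy n
  have claim : ∀ k < d n, |tq (orb d p n) (k + 1)| < |tq (orb d p n) k| := by
    intro k hk
    by_contra hcon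
    push Not at hcon
    have g := (grow' (orb d p n) b1 k hcon (d n) (by omega)).2
    rw [← orb_y, ← orb_x] at g
    have h1 := hx (n + 1)
    rw [orb_z] at h1
    have h2 := hy (n + 1)
    nlinarith
  have mono : ∀ e, e + 1 ≤ d n → |tq (orb d p n) (e + 1)| ≤ |tq (orb d p n) 1| := by
    intro e
    induction e with
    | zero => intro _; exact le_rfl
    | succ e ih =>
      intro he
      exact (claim (e + 1) (by omega)).le.trans (ih (by omega))
  constructor
  · rw [orb_y]
    have h1 := mono (d n - 1) (by have := hd n; omega)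
    have e : d n - 1 + 1 = d n := by have := hd n; omega
    rw [e, tq_one] at h1
    exact h1
  · by_contra hcon
    push Not at hcon
    set q := orb d p n with hq
    have h2 : |tq q 2| = 2 * |q.x| * |q.y| + |q.z| := by
      have h3 : tq q 2 = 2 * (q.x * q.y) - q.z := by
        have := tq_rec q 0
        rw [zero_add, zero_add, tq_zero, tq_one] at this
        rw [this]
        ring
      have h4 : (q.x * q.y) * q.z ≤ 0 := hcon
      rw [h3]
      have h5 : |2 * (q.x * q.y) - q.z| = |2 * (q.x * q.y)| + |q.z| := by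
        rw [sub_eq_add_neg, ← abs_neg q.z]
        refine (abs_add_eq_add_abs_iff _ _).2 ?_
        rcases le_total 0 q.z with hz | hz
        · rcases hz.eq_or_lt with hz0 | hz0
          · rcases le_total 0 (q.x * q.y) with h | h
            · left; constructor
              · linarith
              · rw [← hz0]; simp
            · right; constructor
              · linarith
              · rw [← hz0]; simp
          · right; constructor
            · have : q.x * q.y ≤ 0 := by
                by_contra hc; push Not at hc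
                nlinarith [mul_pos hc hz0]
              linarith
            · linarith
        · rcases hz.eq_or_lt with hz0 | hz0
          · rcases le_total 0 (q.x * q.y) with h | h
            · left; constructor
              · linarith
              · rw [hz0]; simp
            · right; constructor
              · linarith
              · rw [hz0]; simp
          · left; constructor
            · have : 0 ≤ q.x * q.y := by
                by_contra hc; push Not at hc
                nlinarith [mul_pos_of_neg_of_neg hc hz0]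
              linarith
            · linarith
      rw [h5, abs_mul, abs_mul, abs_two]
      ring
    have hx0 := abs_nonneg q.x
    have h6 := hx n
    rcases Nat.lt_or_ge 1 (d n) with h1 | h1
    · have h7 := claim 1 h1
      rw [show (1 + 1 : ℕ) = 2 from rfl, h2, tq_one] at h7
      nlinarith [mul_nonneg hx0 (abs_nonneg q.y)]
    · have hd1 : d n = 1 := le_antisymm h1 (hd n)
      have h7 := hx (n + 1)
      rw [orb_z, orb_x, hd1, show (1 + 1 : ℕ) = 2 from rfl, ← hq, h2] at h7
      have h8 := hy (n + 1)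
      rw [orb_y, hd1, tq_one, ← hq] at h8
      nlinarith [abs_nonneg q.z]

/-- one stage, numerical part -/
theorem num {δ a b X R : ℝ} (ha : 1 ≤ a) (hb : 1 ≤ b) (hX : 1 ≤ X) (hXa : X < a) (haR : a ≤ R)
    (hbR : b ≤ R) (h : X ^ 2 + b ^ 2 + a ^ 2 - 2 * X * a * b = 1 + δ ^ 2) :
    (a + |δ| ≤ b) ∨ (b + |δ| ≤ a ∧ X ≤ a - δ ^ 2 / (|δ| + 2 * R ^ 2)) := by
  have hab : a ≤ a * b := le_mul_of_one_le_right (by linarith) hb
  have h1 : (a * b - X) ^ 2 = δ ^ 2 + (a ^ 2 - 1) * (b ^ 2 - 1) := by nlinarith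
  have h2 : (a * b - X) ^ 2 ≤ (a * b - 1) ^ 2 := by
    refine pow_le_pow_left₀ (by linarith) (by linarith) 2
  have h3 : |δ| ^ 2 ≤ (a - b) ^ 2 := by
    rw [sq_abs]
    nlinarith
  rcases le_total a b with hle | hle
  · left
    have h4 : |δ| ≤ b - a := by
      have : (a - b) ^ 2 = (b - a) ^ 2 := by ring
      rw [this] at h3
      exact (pow_le_pow_iff_left₀ (abs_nonneg _) (by linarith) two_ne_zero).1 h3
    linarith
  · right
    have h4 : |δ| ≤ a - b :=
      (pow_le_pow_iff_left₀ (abs_nonneg _) (by linarith) two_ne_zero).1 h3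
    refine ⟨by linarith, ?_⟩
    set s := a * b - X with hs
    have hs0 : 0 ≤ s := by linarith
    have h5 : δ ^ 2 ≤ s ^ 2 - (a * (b - 1)) ^ 2 := by
      rw [h1]
      have h6 : 0 ≤ (b - 1) * (2 * a ^ 2 - b - 1) :=
        mul_nonneg (by linarith) (by nlinarith)
      nlinarith
    have h7 : s ^ 2 - (a * (b - 1)) ^ 2 = (s - a * (b - 1)) * (s + a * (b - 1)) := by ring
    have h8 : 0 ≤ a * (b - 1) := mul_nonneg (by linarith) (by linarith)
    have hR : 1 ≤ R := by linarith
    have hab2 : a * b ≤ R ^ 2 := by nlinarith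
    have h9 : s + a * (b - 1) ≤ |δ| + 2 * R ^ 2 := by nlinarith [abs_nonneg δ]
    have h10 : 0 < |δ| + 2 * R ^ 2 := by
      have := abs_nonneg δ
      positivity
    have h11 : 0 ≤ s - a * (b - 1) := by
      by_contra hc
      push Not at hc
      have : s ^ 2 < (a * (b - 1)) ^ 2 := pow_lt_pow_left₀ (by linarith) hs0 two_ne_zero
      nlinarith [sq_nonneg δ]
    have h12 : δ ^ 2 ≤ (s - a * (b - 1)) * (|δ| + 2 * R ^ 2) := by
      rw [h7] at h5
      exact h5.trans (mul_le_mul_of_nonneg_left h9 h11)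
    have h13 : δ ^ 2 / (|δ| + 2 * R ^ 2) ≤ s - a * (b - 1) := by
      rw [div_le_iff₀ h10]; exact h12
    have h14 : s - a * (b - 1) = a - X := by rw [hs]; ring
    linarith

theorem exists_small {δ : ℝ} (hδ : δ ≠ 0) {d : ℕ → ℕ} (hd : ∀ k, 1 ≤ d k) {p : P3}
    (hp : OnS δ p) (hno : ∀ m, ¬ Op (orb d p m)) : ∃ n, |(orb d p n).z| < 1 := by
  by_contra hcon
  push Not at hcon
  have hz : ∀ n, 1 ≤ |(orb d p n).z| := hcon
  have hy : ∀ n, 1 ≤ |(orb d p n).y| := fun n => by
    have := hcon (n + 1)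
    rwa [orb_z] at this
  have hx := noP hδ hd hp hno hz hy
  have hst := stage hd hy hx
  set R := max |(orb d p 0).z| |(orb d p 0).y| with hR
  have hRb : ∀ n, |(orb d p n).z| ≤ R ∧ |(orb d p n).y| ≤ R := by
    intro n
    induction n with
    | zero => exact ⟨le_max_left _ _, le_max_right _ _⟩
    | succ n ih =>
      rw [orb_z]
      exact ⟨ih.2, ((hst n).1.trans (hx n).le).trans ih.1⟩
  have hR1 : 1 ≤ R := (hz 0).trans (hRb 0).1
  set c := δ ^ 2 / (|δ| + 2 * R ^ 2) with hc
  have hc0 : 0 < c := by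
    rw [hc]
    have := abs_pos.2 hδ
    positivity
  have hnum : ∀ n, (|(orb d p n).z| + |δ| ≤ |(orb d p n).y|) ∨
      (|(orb d p n).y| + |δ| ≤ |(orb d p n).z| ∧ |(orb d p n).x| ≤ |(orb d p n).z| - c) := by
    intro n
    have hX : 1 ≤ |(orb d p n).x| := (hy (n + 1)).trans (hst n).1
    refine num (hz n) (hy n) hX (hx n) (hRb n).1 (hRb n).2 ?_
    have hs := hp.orb d n
    unfold OnS at hs
    rw [sq_abs, sq_abs, sq_abs]
    have h1 : |(orb d p n).x| * |(orb d p n).z| * |(orb d p n).y| =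
        (orb d p n).x * (orb d p n).y * (orb d p n).z := by
      rw [← abs_mul, ← abs_mul, abs_of_pos]
      · ring
      · have := (hst n).2
        linarith [show (orb d p n).x * (orb d p n).z * (orb d p n).y =
          (orb d p n).x * (orb d p n).y * (orb d p n).z by ring]
    nlinarith
  -- decrease over two stages
  have hdec : ∀ n, |(orb d p (n + 1)).z| + |(orb d p (n + 1)).y| ≤
      |(orb d p n).z| + |(orb d p n).y| := by
    intro n
    rw [orb_z]
    linarith [(hst n).1, hx n]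
  have hdec2 : ∀ n, |(orb d p (n + 2)).z| + |(orb d p (n + 2)).y| ≤
      |(orb d p n).z| + |(orb d p n).y| - c := by
    intro n
    rcases hnum n with h | h
    · have h1 := hnum (n + 1)
      have h2 : |(orb d p (n + 1)).z| = |(orb d p n).y| := by rw [orb_z]
      have h3 := (hst n).1
      have h4 := hx n
      have h5 := abs_nonneg δ
      have h6 := abs_pos.2 hδ
      rcases h1 with h1 | h1
      · exfalso; linarith
      · have h7 := (hst (n + 1)).1
        have h8 : |(orb d p (n + 1 + 1)).z| = |(orb d p (n + 1)).y| := by rw [orb_z]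
        show |(orb d p (n + 1 + 1)).z| + |(orb d p (n + 1 + 1)).y| ≤ _
        linarith
    · have h1 := hdec (n + 1)
      have h2 : |(orb d p (n + 1)).z| = |(orb d p n).y| := by rw [orb_z]
      have h3 := (hst n).1
      show |(orb d p (n + 1 + 1)).z| + |(orb d p (n + 1 + 1)).y| ≤ _
      linarith
  have hN : ∀ N : ℕ, |(orb d p (2 * N)).z| + |(orb d p (2 * N)).y| ≤
      |(orb d p 0).z| + |(orb d p 0).y| - N * c := by
    intro N
    induction N with
    | zero => simp
    | succ N ih =>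
      have := hdec2 (2 * N)
      rw [show 2 * (N + 1) = 2 * N + 2 by ring]
      push_cast
      linarith
  obtain ⟨N, hN1⟩ := exists_nat_gt ((|(orb d p 0).z| + |(orb d p 0).y|) / c)
  rw [div_lt_iff₀ hc0] at hN1
  have := hN N
  have h1 := abs_nonneg (orb d p (2 * N)).z
  have h2 := abs_nonneg (orb d p (2 * N)).y
  linarith

/-- **The stable set.** -/
theorem tSEsc : SEsc := by
  intro δ hδ d hd p hp
  refine ⟨?_, ?_⟩
  · rintro ⟨m, hm⟩ C
    exact esc1 d hd p hm C
  · intro hno
    obtain ⟨n, hn⟩ := exists_small hδ hd hp hno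
    refine ⟨⟨n, hn⟩, fun k hk => alive_of d hd p hno k hk, ?_⟩
    exact bdd_of hδ d hd p hp n hn.le (alive_of d hd p hno n hn.le)

end Pool.Agent.H284.TmEsc
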