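import Pool.Agent.H770.GS.UQC

set_option autoImplicit false

open MeasureTheory Set intervalIntegral Filter Topology

namespace Pool.Agent.H284.UQ21

open Pool.Agent.H770.GS
open Pool.Agent.Helper82.GC

theorem sum_sq (k : ℕ) (a b : ℝ) :
    ((a :: a :: List.replicate k b).map fun x => x ^ 2).sum = 2 * a ^ 2 + k * b ^ 2 := by
  simp only [List.map_cons, List.sum_cons, List.map_replicate, List.sum_replicate, nsmul_eq_mul]
  ring

theorem eq_sqrt_inv {a n : ℝ} (ha : 0 < a) (hn : 0 < n) (h : n * a ^ 2 = 1) :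
    a = 1 / Real.sqrt n := by
  have h1 : a ^ 2 = 1 / n := by
    rw [eq_div_iff hn.ne']
    linarith
  rw [← Real.sqrt_sq ha.le, h1, Real.sqrt_div zero_le_one, Real.sqrt_one]

theorem fin3 : S_fin3 := by
  intro hlink r c l k hr hk hc1 hck hl0 hl1 hTw hEx hmid hmono hV L hL hLs
  obtain ⟨a, b, hb, hba, ha, hLab⟩ := hTw L hL hLs
  subst hLab
  obtain ⟨hlen, hsq, hnn, hmax⟩ := hL
  have hsum : 2 * a ^ 2 + k * b ^ 2 = 1 := by rw [← sum_sq]; exact hsq
  have hk0 : (0:ℝ) < k := by exact_mod_cast hk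
  rcases hb.eq_or_lt with hb0 | hb0
  · left
    subst hb0
    have h2 : a = 1 / Real.sqrt 2 := by
      refine eq_sqrt_inv ha two_pos ?_
      rw [← hsum]
      ring
    unfold L2
    rw [h2]
  rcases hba.eq_or_lt with hab | hab
  · right
    subst hab
    have h2 : b = 1 / Real.sqrt (k + 2) := by
      refine eq_sqrt_inv ha (by positivity) ?_
      rw [← hsum]
      ring
    unfold Ln
    rw [← h2]
    rfl
  exfalso
  have hc0 : 0 < c := by linarith
  have ha2 : 0 < a ^ 2 := by positivity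
  have hb2 : 0 < b ^ 2 := by positivity
  have hLM : MaxL r (k + 2) (a :: a :: List.replicate k b) := ⟨hlen, hsq, hnn, hmax⟩
  have hcase : c * b ^ 2 < a ^ 2 := by
    by_contra hcon
    exact hEx a b hb0 hab (not_lt.1 hcon) hLM
  have hval : Asl r (vec (k + 2) (a :: a :: List.replicate k b)) 0 =
      FF r k (k * b ^ 2 / a ^ 2) := hlink r a b k hr hk ha hb hsum
  rw [hval] at hmax
  obtain ⟨s, hs⟩ : ∃ s : ℝ, s = k * b ^ 2 / a ^ 2 := ⟨_, rfl⟩
  rw [← hs] at hmax
  have hs0 : 0 < s := by rw [hs]; positivity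
  have hsk : s ≤ k / c := by
    rw [hs, div_le_div_iff₀ ha2 hc0]
    nlinarith
  -- the direction with ratio `1/√c`
  obtain ⟨a', ha'⟩ : ∃ a' : ℝ, a' = Real.sqrt (c / (2 * c + k)) := ⟨_, rfl⟩
  obtain ⟨b', hb'⟩ : ∃ b' : ℝ, b' = Real.sqrt (1 / (2 * c + k)) := ⟨_, rfl⟩
  have ha'2 : a' ^ 2 = c / (2 * c + k) := by rw [ha']; exact Real.sq_sqrt (by positivity)
  have hb'2 : b' ^ 2 = 1 / (2 * c + k) := by rw [hb']; exact Real.sq_sqrt (by positivity)
  have hb'0 : 0 < b' := by rw [hb']; exact Real.sqrt_pos.2 (by positivity)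
  have ha'0 : 0 < a' := by rw [ha']; exact Real.sqrt_pos.2 (by positivity)
  have hba' : b' < a' := by
    rw [ha', hb']
    refine Real.sqrt_lt_sqrt (by positivity) ?_
    exact div_lt_div_of_pos_right hc1 (by positivity)
  have hsum' : 2 * a' ^ 2 + k * b' ^ 2 = 1 := by
    rw [ha'2, hb'2]
    field_simp
  have hval' : Asl r (vec (k + 2) (a' :: a' :: List.replicate k b')) 0 =
      FF r k (k * b' ^ 2 / a' ^ 2) := hlink r a' b' k hr hk ha'0 hb'0.le hsum'
  have e : (k:ℝ) * b' ^ 2 / a' ^ 2 = k / c := by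
    rw [ha'2, hb'2]
    field_simp
  rw [e] at hval'
  have h9 : a' ^ 2 ≤ c * b' ^ 2 := by
    rw [ha'2, hb'2]
    apply le_of_eq
    ring
  have key : FF r k (k / c) < FF r k s := by
    by_contra hcon
    have hcon' : FF r k s ≤ FF r k (k / c) := not_lt.1 hcon
    refine hEx a' b' hb'0 hba' h9 ⟨by simp, ?_, ?_, ?_⟩
    · rw [sum_sq]; exact hsum'
    · intro x hx
      rcases List.mem_cons.1 hx with h1 | h1
      · rw [h1]; exact ha'0.le
      · rcases List.mem_cons.1 h1 with h2 | h2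
        · rw [h2]; exact ha'0.le
        · rw [List.eq_of_mem_replicate h2]; exact hb'0.le
    · intro θ hθ
      rw [hval']
      exact (hmax θ hθ).trans hcon'
  have hone : FF r k 1 ≤ FF r k (k / c) := by
    refine hmid 1 le_rfl ?_
    rw [le_div_iff₀ hc0, one_mul]
    exact hck
  have hl2 : l ^ 2 ≤ 1 := by nlinarith
  rcases le_total 1 s with h1 | h1
  · exact absurd (hmid s h1 hsk) (not_le.2 key)
  rcases le_or_gt (l ^ 2) s with h2 | h2
  · exact absurd ((hmono s h2 h1).trans hone) (not_le.2 key)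
  obtain ⟨t, ht0, ht1, ht⟩ := hV s hs0 h2
  have hF0 : FF r k 0 ≤ FF r k s := by
    have hs2 : 0 < 1 / Real.sqrt 2 := by positivity
    have hs22 : (1 / Real.sqrt 2) ^ 2 = 1 / 2 := by
      rw [div_pow, Real.sq_sqrt (by norm_num), one_pow]
    have hsum2 : 2 * (1 / Real.sqrt 2) ^ 2 + (k:ℝ) * (0:ℝ) ^ 2 = 1 := by
      rw [hs22]
      norm_num
    have hv : Asl r (vec (k + 2) (1 / Real.sqrt 2 :: 1 / Real.sqrt 2 :: List.replicate k 0)) 0 =
        FF r k (k * (0:ℝ) ^ 2 / (1 / Real.sqrt 2) ^ 2) :=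
      hlink r (1 / Real.sqrt 2) 0 k hr hk hs2 le_rfl hsum2
    have e0 : (k:ℝ) * (0:ℝ) ^ 2 / (1 / Real.sqrt 2) ^ 2 = 0 := by simp
    rw [e0] at hv
    rw [← hv]
    refine hmax _ (vec_norm (by simp) ?_)
    rw [sum_sq]
    exact hsum2
  have hfin : FF r k s ≤ FF r k (l ^ 2) := by
    have h3 : (1 - t) * FF r k s ≤ (1 - t) * FF r k (l ^ 2) := by nlinarith
    exact le_of_mul_le_mul_left h3 (by linarith)
  have h4 := hmono (l ^ 2) le_rfl hl2
  linarith

end Pool.Agent.H284.UQ21
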