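import Pool.Agent.H770.GS.UQ

set_option autoImplicit false

open MeasureTheory Set intervalIntegral Filter Topology

namespace Pool.Agent.H284.UQ5

open Pool.Agent.H770.GS

theorem P_zero (ρ : ℝ) : P ρ (fun _ => (0 : ℝ)) :=
  ⟨continuous_const, fun _ => by simp, fun v v' _ _ _ => by simp⟩

theorem P_add {ρ : ℝ} {a b : ℝ → ℝ} (ha : P ρ a) (hb : P ρ b) : P ρ (fun v => a v + b v) := by
  refine ⟨ha.cont.add hb.cont, fun x => ?_, fun v v' h1 h2 h3 => ?_⟩
  · rw [ha.odd, hb.odd]; ring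
  · have e1 := ha.le v v' h1 h2 h3
    have e2 := hb.le v v' h1 h2 h3
    nlinarith

theorem P_smul {ρ c : ℝ} {a : ℝ → ℝ} (hc : 0 ≤ c) (ha : P ρ a) : P ρ (fun v => c * a v) := by
  refine ⟨continuous_const.mul ha.cont, fun x => ?_, fun v v' h1 h2 h3 => ?_⟩
  · rw [ha.odd]; ring
  · have e1 := mul_le_mul_of_nonneg_left (ha.le v v' h1 h2 h3) hc
    calc v * (c * a v') = c * (v * a v') := by ring
      _ ≤ c * (v' * a v) := e1
      _ = v' * (c * a v) := by ring

theorem cv_lin {r z c : ℝ} {a b : ℝ → ℝ} (ha : Continuous a) (hb : Continuous b) (v : ℝ) :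
    cv r z (fun v => a v + c * b v) v = cv r z a v + c * cv r z b v := by
  have hW := W_cont
  unfold cv
  rw [← intervalIntegral.integral_const_mul, ← intervalIntegral.integral_add]
  · refine intervalIntegral.integral_congr fun u _ => ?_
    ring
  · exact Continuous.intervalIntegrable (by fun_prop) _ _
  · exact Continuous.intervalIntegrable (by fun_prop) _ _

theorem cv_win {r z t : ℝ} {k : ℝ → ℝ} (hk : Continuous k) (v : ℝ) :
    ∫ x in (v - t)..(v + t), cv r z k x =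
      cv r z (fun v => ∫ u in (v - t)..(v + t), k u) v := by
  have hW := W_cont
  unfold cv
  rw [swap_cont (F := fun x u => W u * k (x + z * u)) (by fun_prop)]
  refine intervalIntegral.integral_congr fun u _ => ?_
  simp only
  rw [intervalIntegral.integral_const_mul, intervalIntegral.integral_comp_add_right (fun x => k x)]
  rw [show v - t + z * u = v + z * u - t by ring, show v + t + z * u = v + z * u + t by ring]

/-- the invariant -/
def Inv (r ρ τ : ℝ) (L : List ℝ) : Prop :=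
  (∀ v, 0 ≤ v → 0 ≤ dens r L (kg τ) v) ∧
    ∃ rest : ℝ → ℝ, P ρ rest ∧ (∀ v, 0 ≤ v → 0 ≤ rest v) ∧
    ∀ v, ((L.map fun x => x ^ 2).sum + τ ^ 2) * dens r L (kg τ) v =
      v * dens r L (gs τ) v + rest v

theorem inv_nil {r τ : ℝ} (hτ : 0 < τ) : Inv r 0 τ [] := by
  refine ⟨fun v hv => ?_, fun _ => 0, P_zero 0, fun _ _ => le_rfl, fun v => ?_⟩
  · rw [dens_nil]
    unfold kg
    exact mul_nonneg (by positivity) (gs_nonneg τ v)
  · rw [dens_nil, dens_nil]
    unfold kg
    simp only [List.map_nil, List.sum_nil, zero_add, add_zero]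
    field_simp

theorem inv_mono {r ρ ρ' τ : ℝ} {L : List ℝ} (h : Inv r ρ τ L) (hρ : ρ ≤ ρ') : Inv r ρ' τ L := by
  obtain ⟨h1, rest, h2, h3, h4⟩ := h
  exact ⟨h1, rest, h2.mono hρ, h3, h4⟩

theorem inv_one (hwin : S_win) (hstep : S_step) (hpos : S_pos) {r ρ τ z : ℝ} {L : List ℝ}
    (hr : 0 < r) (hz : 0 ≤ z) (hzr : z * r ≤ ρ) (hP : P ρ (dens r L (kg τ)))
    (h : Inv r ρ τ L) : Inv r ρ τ (z :: L) := by
  obtain ⟨h1, rest, h2, h3, h4⟩ := h
  have hk := hP.cont
  have hzr0 : 0 ≤ z * r := mul_nonneg hz hr.le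
  have hpk := hpos r z _ hr hz hk hP.odd h1
  have hpr := hpos r z _ hr hz h2.cont h2.odd h3
  refine ⟨fun v hv => ?_, fun v => cv r z rest v + z * W r *
    ∫ u in (v - z * r)..(v + z * r), dens r L (kg τ) u, ?_, fun v hv => ?_, fun v => ?_⟩
  · rw [dens_cons]
    exact hpk.2 v hv
  · refine P_add (h2.cv hr hz hzr) ?_
    exact P_smul (mul_nonneg hz (W_pos r).le) (hwin ρ (z * r) _ hP hzr0 hzr)
  · exact add_nonneg (hpr.2 v hv) (mul_nonneg (mul_nonneg hz (W_pos r).le)
      (hpk.1 (z * r) hzr0 v hv))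
  · have e := hstep r z ((L.map fun x => x ^ 2).sum + τ ^ 2) (dens r L (gs τ)) (dens r L (kg τ))
      rest hr (dens_deriv hr (gs_deriv τ) (kg_cont τ) L) hk h2.cont h4 v
    rw [dens_cons, dens_cons, ← e]
    simp only [List.map_cons, List.sum_cons]
    ring

theorem inv_two (hwin : S_win) (hmix : S_mixed) (hstep : S_step) (hpos : S_pos) {r τ z : ℝ}
    {L : List ℝ} (hr : 0 < r) (hr2 : r ≤ 2) (hz : 0 ≤ z) (hP : P 0 (dens r L (kg τ)))
    (h : Inv r 0 τ L) : Inv r 0 τ (z :: z :: L) := by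
  obtain ⟨h1, rest, h2, h3, h4⟩ := h
  have hk := hP.cont
  have hzr0 : 0 ≤ z * r := mul_nonneg hz hr.le
  have hzW : 0 ≤ z * W r := mul_nonneg hz (W_pos r).le
  obtain ⟨k, hkdef⟩ : ∃ k, k = dens r L (kg τ) := ⟨_, rfl⟩
  obtain ⟨g, hgdef⟩ : ∃ g, g = dens r L (gs τ) := ⟨_, rfl⟩
  rw [← hkdef] at h1 h4 hk hP
  rw [← hgdef] at h4
  obtain ⟨w, hw⟩ : ∃ w : ℝ → ℝ, w = fun v => ∫ u in (v - z * r)..(v + z * r), k u := ⟨_, rfl⟩
  have hPw : P (z * r) w := by
    rw [hw]
    exact hwin (z * r) (z * r) k (hP.mono hzr0) hzr0 le_rfl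
  have hpk := hpos r z k hr hz hk hP.odd h1
  have hw0 : ∀ v, 0 ≤ v → 0 ≤ w v := by
    intro v hv
    rw [hw]
    exact hpk.1 (z * r) hzr0 v hv
  have hpw := hpos r z w hr hz hPw.cont hPw.odd hw0
  have hpk2 := hpos r z (cv r z k) hr hz (cv_cont hk) (cv_odd hP.odd) hpk.2
  have hpr := hpos r z rest hr hz h2.cont h2.odd h3
  have hpr2 := hpos r z (cv r z rest) hr hz (cv_cont h2.cont) (cv_odd h2.odd) hpr.2
  obtain ⟨rest1, hrest1⟩ : ∃ rest1 : ℝ → ℝ, rest1 = fun v => cv r z rest v + z * W r * w v :=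
    ⟨_, rfl⟩
  have hrest1c : Continuous rest1 := by
    rw [hrest1]
    exact (cv_cont h2.cont).add (continuous_const.mul hPw.cont)
  have hd0 : ∀ x, HasDerivAt g (-k x) x := by
    rw [hkdef, hgdef]
    exact dens_deriv hr (gs_deriv τ) (kg_cont τ) L
  have hd1 : ∀ x, HasDerivAt (cv r z g) (-cv r z k x) x := by
    rw [hkdef, hgdef, ← dens_cons, ← dens_cons]
    exact dens_deriv hr (gs_deriv τ) (kg_cont τ) (z :: L)
  have s1 : ∀ v, (((L.map fun x => x ^ 2).sum + τ ^ 2) + z ^ 2) * cv r z k v =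
      v * cv r z g v + rest1 v := by
    intro v
    rw [hstep r z _ g k rest hr hd0 hk h2.cont h4 v, hrest1, hw]
  have s2 := hstep r z _ (cv r z g) (cv r z k) rest1 hr hd1 (cv_cont hk) hrest1c s1
  refine ⟨fun v hv => ?_, fun v => cv r z (cv r z rest) v + (2 * (z * W r)) * cv r z w v, ?_,
    fun v hv => ?_, fun v => ?_⟩
  · rw [dens_cons, dens_cons, ← hkdef]
    exact hpk2.2 v hv
  · refine P_add (h2.pair hr hz) (P_smul (by positivity) ?_)
    rw [hw]
    exact hmix r z k hr hr2 hz hP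
  · exact add_nonneg (hpr2.2 v hv) (mul_nonneg (by positivity) (hpw.2 v hv))
  · have e := s2 v
    have e1 : cv r z rest1 v = cv r z (cv r z rest) v + z * W r * cv r z w v := by
      rw [hrest1]
      exact cv_lin (cv_cont h2.cont) hPw.cont v
    have e2 : ∫ u in (v - z * r)..(v + z * r), cv r z k u = cv r z w v := by
      rw [cv_win hk, hw]
    rw [e1, e2] at e
    rw [dens_cons, dens_cons, dens_cons, dens_cons, ← hkdef, ← hgdef]
    simp only [List.map_cons, List.sum_cons]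
    calc (z ^ 2 + (z ^ 2 + (L.map fun x => x ^ 2).sum) + τ ^ 2) * cv r z (cv r z k) v =
        ((((L.map fun x => x ^ 2).sum + τ ^ 2) + z ^ 2) + z ^ 2) * cv r z (cv r z k) v := by ring
      _ = v * cv r z (cv r z g) v + (cv r z (cv r z rest) v + z * W r * cv r z w v +
          z * W r * cv r z w v) := e
      _ = v * cv r z (cv r z g) v + (cv r z (cv r z rest) v + (2 * (z * W r)) * cv r z w v) := by
          ring

theorem uq5 : S_SP := by
  intro hwin hmix hstep hpos r ρ τ S C hr hr2 hτ hρ hS hC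
  have hdup : Inv r 0 τ (dup C) := by
    induction C with
    | nil => exact inv_nil hτ
    | cons z C ih =>
      have hC' : ∀ x ∈ C, 0 ≤ x := fun x hx => hC x (List.mem_cons_of_mem _ hx)
      exact inv_two hwin hmix hstep hpos hr hr2 (hC z List.mem_cons_self)
        (dens_dup_P hr (kg_P τ) C hC') (ih hC')
  have hmain : Inv r ρ τ (S ++ dup C) := by
    induction S with
    | nil => exact inv_mono hdup hρ
    | cons z S ih =>
      have hS' : ∀ x ∈ S, 0 ≤ x ∧ x * r ≤ ρ := fun x hx => hS x (List.mem_cons_of_mem _ hx)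
      have hz := hS z List.mem_cons_self
      refine inv_one hwin hstep hpos hr hz.1 hz.2 ?_ (ih hS')
      show P ρ (dens r (S ++ dup C) (kg τ))
      rw [dens_append]
      exact dens_P hr ((dens_dup_P hr (kg_P τ) C hC).mono hρ) S hS'
  exact hmain

end Pool.Agent.H284.UQ5
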